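import Pool.Agent.ExpPowI.Explicit

/-! From windows to counting. -/

namespace Pool.Agent.ExpPowI

open Finset Filter

/-- Block covering. -/
theorem block_count (E : ℕ → Prop) [DecidablePred E] (M L k : ℕ)
    (h : ∀ a ≥ M, ((Finset.Ico a (a + L)).filter E).card ≤ k) (j : ℕ) :
    ((Finset.Ico M (M + j * L)).filter E).card ≤ j * k := by
  induction j with
  | zero => simp
  | succ j ih =>
    have h1 : Finset.Ico M (M + (j + 1) * L) ⊆
        Finset.Ico M (M + j * L) ∪ Finset.Ico (M + j * L) (M + j * L + L) := by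
      intro x hx
      simp only [Finset.mem_Ico, Finset.mem_union] at hx ⊢
      have : (j + 1) * L = j * L + L := by ring
      omega
    calc ((Finset.Ico M (M + (j + 1) * L)).filter E).card
        ≤ ((Finset.Ico M (M + j * L) ∪ Finset.Ico (M + j * L) (M + j * L + L)).filter E).card :=
          Finset.card_le_card (Finset.filter_subset_filter _ h1)
      _ ≤ ((Finset.Ico M (M + j * L)).filter E).card +
          ((Finset.Ico (M + j * L) (M + j * L + L)).filter E).card := by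
          rw [Finset.filter_union]
          exact Finset.card_union_le _ _
      _ ≤ j * k + k := add_le_add ih (h _ (by omega))
      _ = (j + 1) * k := by ring

/-- Windows of length `n^θ` with at most `B` elements: at most `C N^{1-θ}` elements up to `N`. -/
theorem count_theta {E : ℕ → Prop} {θ : ℝ} {B n₀ : ℕ} (hθ0 : 0 ≤ θ) (hθ1 : θ < 1)
    (hn1 : 1 ≤ n₀)
    (hwin : ∀ n : ℕ, n₀ ≤ n → ∀ S : Finset ℕ,
      (∀ t ∈ S, n ≤ t ∧ (t : ℝ) ≤ n + (n : ℝ) ^ θ ∧ E t) → S.card ≤ B) :
    ∃ C : ℝ, ∀ N : ℕ, 1 ≤ N → ∀ S : Finset ℕ, (∀ t ∈ S, t ≤ N ∧ E t) →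
      (S.card : ℝ) ≤ C * (N : ℝ) ^ (1 - θ) := by
  classical
  have hθ' : 0 < 1 - θ := by linarith
  set q : ℝ := (2 : ℝ) ^ (-(1 - θ)) with hq
  have hq0 : 0 < q := by positivity
  have hq1 : q < 1 := Real.rpow_lt_one_of_one_lt_of_neg (by norm_num) (by linarith)
  have h1q : 0 < 1 - q := by linarith
  set C : ℝ := max (3 * B * q / (1 - q)) (2 * n₀) with hC
  have hC1 : 3 * B * q / (1 - q) ≤ C := le_max_left _ _
  have hC2 : 2 * (n₀ : ℝ) ≤ C := le_max_right _ _
  have hn1R : (1 : ℝ) ≤ n₀ := by exact_mod_cast hn1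
  have hC0 : 0 < C := by linarith
  have hCq : (C + 3 * B) * q ≤ C := by
    rw [div_le_iff₀ h1q] at hC1
    linarith
  -- the main bound for the filtered ranges
  have key : ∀ N : ℕ, 1 ≤ N →
      (((Finset.range (N + 1)).filter E).card : ℝ) ≤ C * (N : ℝ) ^ (1 - θ) := by
    intro N
    induction N using Nat.strong_induction_on with
    | _ N ih =>
      intro hN
      have hN' : (1 : ℝ) ≤ N := by exact_mod_cast hN
      have hNp : (1 : ℝ) ≤ (N : ℝ) ^ (1 - θ) := Real.one_le_rpow hN' (by linarith)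
      by_cases hsmall : N < 2 * n₀
      · have h1 : ((Finset.range (N + 1)).filter E).card ≤ N + 1 := by
          refine (Finset.card_filter_le _ _).trans ?_
          simp
        have h2 : (((Finset.range (N + 1)).filter E).card : ℝ) ≤ 2 * n₀ := by
          have : ((Finset.range (N + 1)).filter E).card ≤ 2 * n₀ := by omega
          exact_mod_cast this
        nlinarith
      · set M := N / 2 with hM
        have hMn : n₀ ≤ M := by omega
        have hM1 : 1 ≤ M := by omega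
        have hMN : M < N := by omega
        have hM' : (1 : ℝ) ≤ M := by exact_mod_cast hM1
        have hMpos : (0 : ℝ) < M := by linarith
        have ihM := ih M hMN hM1
        set L := ⌊(M : ℝ) ^ θ⌋₊ + 1 with hL
        have hPpos : 0 < (M : ℝ) ^ θ := by positivity
        have hLM : (M : ℝ) ^ θ ≤ L := by
          rw [hL]
          push_cast
          exact (Nat.lt_floor_add_one _).le
        have hLpos : (0 : ℝ) < L := by linarith
        have hLpos' : 0 < L := by omega
        have hblock : ∀ a ≥ M, ((Finset.Ico a (a + L)).filter E).card ≤ B := by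
          intro a ha
          apply hwin a (hMn.trans ha)
          intro t ht
          simp only [Finset.mem_filter, Finset.mem_Ico] at ht
          obtain ⟨⟨h1, h2⟩, h3⟩ := ht
          refine ⟨h1, ?_, h3⟩
          have h4 : t ≤ a + ⌊(M : ℝ) ^ θ⌋₊ := by omega
          have h5 : (t : ℝ) ≤ a + (⌊(M : ℝ) ^ θ⌋₊ : ℝ) := by exact_mod_cast h4
          have h6 : (⌊(M : ℝ) ^ θ⌋₊ : ℝ) ≤ (M : ℝ) ^ θ := Nat.floor_le hPpos.le
          have h7 : (M : ℝ) ^ θ ≤ (a : ℝ) ^ θ :=
            Real.rpow_le_rpow hMpos.le (by exact_mod_cast ha) hθ0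
          linarith
        set j := (N - M) / L + 1 with hj
        have hcov := block_count E M L B hblock j
        have hjL : N < M + j * L := by
          have h1 : N - M < ((N - M) / L + 1) * L := by
            have := Nat.lt_div_mul_add (a := N - M) hLpos'
            calc N - M < (N - M) / L * L + L := this
              _ = ((N - M) / L + 1) * L := by ring
          rw [← hj] at h1
          omega
        have hsub : (Finset.range (N + 1)).filter E ⊆
            (Finset.range (M + 1)).filter E ∪ (Finset.Ico M (M + j * L)).filter E := by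
          intro x hx
          simp only [Finset.mem_filter, Finset.mem_union, Finset.mem_range, Finset.mem_Ico]
            at hx ⊢
          obtain ⟨h1, h2⟩ := hx
          by_cases h3 : x < M + 1
          · exact Or.inl ⟨h3, h2⟩
          · exact Or.inr ⟨⟨by omega, by omega⟩, h2⟩
        have hcard : ((Finset.range (N + 1)).filter E).card ≤
            ((Finset.range (M + 1)).filter E).card + j * B := by
          refine (Finset.card_le_card hsub).trans ((Finset.card_union_le _ _).trans ?_)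
          omega
        have hcard' : (((Finset.range (N + 1)).filter E).card : ℝ) ≤
            (((Finset.range (M + 1)).filter E).card : ℝ) + j * B := by exact_mod_cast hcard
        -- size of `j`
        have hjr : (j : ℝ) ≤ 3 * (M : ℝ) ^ (1 - θ) := by
          have h1 : (((N - M) / L : ℕ) : ℝ) ≤ ((N - M : ℕ) : ℝ) / L := Nat.cast_div_le
          have h2 : ((N - M : ℕ) : ℝ) ≤ 2 * M := by
            have : N - M ≤ 2 * M := by omega
            exact_mod_cast this
          have h3 : ((N - M : ℕ) : ℝ) / L ≤ 2 * M / (M : ℝ) ^ θ := by gcongr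
          have h4 : 2 * (M : ℝ) / (M : ℝ) ^ θ = 2 * (M : ℝ) ^ (1 - θ) := by
            rw [Real.rpow_sub hMpos, Real.rpow_one]
            ring
          have h5 : (1 : ℝ) ≤ (M : ℝ) ^ (1 - θ) := Real.one_le_rpow hM' (by linarith)
          rw [hj]
          push_cast
          linarith
        have hMN2 : (M : ℝ) ^ (1 - θ) ≤ q * (N : ℝ) ^ (1 - θ) := by
          have h1 : (M : ℝ) ≤ N / 2 := by
            have : 2 * M ≤ N := by omega
            have : (2 : ℝ) * M ≤ N := by exact_mod_cast this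
            linarith
          have h2 : (M : ℝ) ^ (1 - θ) ≤ ((N : ℝ) / 2) ^ (1 - θ) :=
            Real.rpow_le_rpow hMpos.le h1 (by linarith)
          have h3 : ((N : ℝ) / 2) ^ (1 - θ) = q * (N : ℝ) ^ (1 - θ) := by
            rw [Real.div_rpow (by linarith) (by norm_num), hq, Real.rpow_neg (by norm_num)]
            ring
          rw [← h3]
          exact h2
        have h10 : (((Finset.range (N + 1)).filter E).card : ℝ) ≤
            (C + 3 * B) * (M : ℝ) ^ (1 - θ) := by
          have := mul_le_mul_of_nonneg_right hjr (by positivity : (0 : ℝ) ≤ B)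
          linarith
        have h11 : (C + 3 * B) * (M : ℝ) ^ (1 - θ) ≤
            (C + 3 * B) * (q * (N : ℝ) ^ (1 - θ)) :=
          mul_le_mul_of_nonneg_left hMN2 (by positivity)
        have h12 : ((C + 3 * B) * q) * (N : ℝ) ^ (1 - θ) ≤ C * (N : ℝ) ^ (1 - θ) :=
          mul_le_mul_of_nonneg_right hCq (by linarith)
        linarith
  refine ⟨C, ?_⟩
  intro N hN S hS
  refine le_trans ?_ (key N hN)
  have : S ⊆ (Finset.range (N + 1)).filter E := by
    intro x hx
    simp only [Finset.mem_filter, Finset.mem_range]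
    exact ⟨by have := (hS x hx).1; omega, (hS x hx).2⟩
  exact_mod_cast Finset.card_le_card this

/-- The parameters for `c ≥ 4`. -/
lemma choose_params {c : ℝ} (hc : 4 ≤ c) : ∃ k : ℕ, 1 ≤ k ∧ ∃ σ : ℝ, 0 < σ ∧
    (k : ℝ) < σ * ((k + 1) * (1 - (1 - 4 / c)) - 1) ∧ σ + (k - 1) < c := by
  have hc0 : 0 < c := by linarith
  set u := 4 / c with hu
  have hu0 : 0 < u := by positivity
  have hu1 : u ≤ 1 := by
    rw [hu, div_le_one hc0]
    exact hc
  have huc : u * c = 4 := by
    rw [hu]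
    field_simp
  set b := ⌈c / 2⌉₊ with hb
  have hb1 : c / 2 ≤ b := Nat.le_ceil _
  have hb2 : (b : ℝ) < c / 2 + 1 := Nat.ceil_lt_add_one (by positivity)
  have hb3 : 2 ≤ b := by
    have : (2 : ℝ) ≤ b := by linarith
    exact_mod_cast this
  refine ⟨b - 1, by omega, ?_⟩
  have hcast : ((b - 1 : ℕ) : ℝ) = b - 1 := by
    rw [Nat.cast_sub (by omega)]
    simp
  rw [hcast]
  set s := b * u - 2 with hs
  have hs0 : 0 ≤ s := by
    have := mul_le_mul_of_nonneg_right hb1 hu0.le
    rw [hs]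
    nlinarith
  have hs1 : s < u := by
    have := mul_lt_mul_of_pos_right hb2 hu0
    rw [hs]
    nlinarith
  have hK : 0 < b * u - 1 := by linarith
  have hmain : (b - 1) / (b * u - 1) < c - b + 2 := by
    rw [div_lt_iff₀ hK]
    have h1 : 2 + s - u < (2 - s + 2 * u) * (1 + s) := by nlinarith
    have h2 : u * (b - 1) = 2 + s - u := by
      rw [hs]
      ring
    have h3 : u * ((c - b + 2) * (b * u - 1)) = (2 - s + 2 * u) * (1 + s) := by
      have h4 : u * (c - b + 2) = 2 - s + 2 * u := by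
        rw [hs]
        linarith
      calc u * ((c - b + 2) * (b * u - 1)) = (u * (c - b + 2)) * (b * u - 1) := by ring
        _ = (2 - s + 2 * u) * (1 + s) := by
          rw [h4, hs]
          ring
    have h5 : u * (b - 1) < u * ((c - b + 2) * (b * u - 1)) := by
      rw [h2, h3]
      exact h1
    exact lt_of_mul_lt_mul_left h5 hu0.le
  obtain ⟨σ, hσ1, hσ2⟩ := exists_between hmain
  rw [div_lt_iff₀ hK] at hσ1
  have hbR : (2 : ℝ) ≤ b := by exact_mod_cast hb3
  refine ⟨σ, ?_, ?_, ?_⟩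
  · by_contra hcon
    have : σ * (b * u - 1) ≤ 0 := mul_nonpos_of_nonpos_of_nonneg (not_lt.mp hcon) hK.le
    linarith
  · calc (b : ℝ) - 1 < σ * (b * u - 1) := hσ1
      _ = σ * ((b - 1 + 1) * (1 - (1 - u)) - 1) := by ring
  · linarith

/-- From the gap principle to counting. -/
theorem count_of_gap {c θ : ℝ} (hθ0 : 0 ≤ θ) (hθ1 : θ < 1) {n₀ : ℕ} (hn1 : 1 ≤ n₀)
    (hn₀ : ∀ n : ℕ, n₀ ≤ n → ∀ t₁ t₂ : ℕ, n ≤ t₁ → t₁ < t₂ →
      (t₂ : ℝ) ≤ n + (n : ℝ) ^ θ →
      distToNearestInt (Real.exp t₁) ≤ Real.exp (-(c * t₁)) →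
      distToNearestInt (Real.exp t₂) ≤ Real.exp (-(c * t₂)) → False) :
    ∃ C : ℝ, ∀ N : ℕ, 1 ≤ N → ∀ S : Finset ℕ,
    (∀ t ∈ S, t ≤ N ∧ distToNearestInt (Real.exp t) ≤ Real.exp (-(c * t))) →
    (S.card : ℝ) ≤ C * (N : ℝ) ^ (1 - θ) := by
  obtain ⟨C, hC⟩ := count_theta
    (E := fun t => distToNearestInt (Real.exp t) ≤ Real.exp (-(c * t))) (θ := θ) (B := 1)
    (n₀ := n₀) hθ0 hθ1 hn1 (by
      intro n hn S hS
      by_contra hcon
      rw [not_le, one_lt_card] at hcon
      obtain ⟨a, ha, b, hb, hab⟩ := hcon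
      have hA := hS a ha
      have hB := hS b hb
      rcases lt_or_gt_of_ne hab with hlt | hlt
      · exact hn₀ n hn a b hA.1 hlt hB.2.1 hA.2.2 hB.2.2
      · exact hn₀ n hn b a hB.1 hlt hA.2.1 hB.2.2 hA.2.2)
  exact ⟨C, hC⟩

/-- For every `c ≥ 4`, `‖e^t‖ > e^{-ct}` for all but `O(N^{4/c})` of the `t ≤ N`. -/
theorem few_large_c (c : ℝ) (hc : 4 ≤ c) : ∃ C : ℝ, ∀ N : ℕ, 1 ≤ N → ∀ S : Finset ℕ,
    (∀ t ∈ S, t ≤ N ∧ distToNearestInt (Real.exp t) ≤ Real.exp (-(c * t))) →
    (S.card : ℝ) ≤ C * (N : ℝ) ^ (4 / c) := by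
  obtain ⟨k, hk, σ, hσ, h1, h2⟩ := choose_params hc
  have hc0 : 0 < c := by linarith
  have hθ0 : 0 ≤ 1 - 4 / c := by
    rw [sub_nonneg, div_le_one hc0]
    exact hc
  have hθ1 : 1 - 4 / c < 1 := by
    have : 0 < 4 / c := by positivity
    linarith
  obtain ⟨n₀, hn1, hn₀⟩ := explicit_pair k hk (1 - 4 / c) σ c hθ1 hσ h1 h2
  obtain ⟨C, hC⟩ := count_of_gap hθ0 hθ1 hn1 hn₀
  refine ⟨C, ?_⟩
  intro N hN S hS
  have h3 := hC N hN S hS
  have h4 : 1 - (1 - 4 / c) = 4 / c := by ring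
  rw [h4] at h3
  exact h3

/-- The general trade-off. -/
theorem gap_general (k : ℕ) (hk : 1 ≤ k) (c θ : ℝ) (hkc : (k : ℝ) < c) (hθ0 : 0 ≤ θ)
    (hθ : θ < k * (c - k) / ((k + 1) * (c - k + 1))) :
    (∃ n₀ : ℕ, ∀ t₁ t₂ : ℕ, n₀ ≤ t₁ → t₁ < t₂ →
      distToNearestInt (Real.exp t₁) ≤ Real.exp (-(c * t₁)) →
      distToNearestInt (Real.exp t₂) ≤ Real.exp (-(c * t₂)) →
      (t₁ : ℝ) + (t₁ : ℝ) ^ θ < t₂) ∧
    (∃ C : ℝ, ∀ N : ℕ, 1 ≤ N → ∀ S : Finset ℕ,
      (∀ t ∈ S, t ≤ N ∧ distToNearestInt (Real.exp t) ≤ Real.exp (-(c * t))) →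
      (S.card : ℝ) ≤ C * (N : ℝ) ^ (1 - θ)) := by
  have hkR : (1 : ℝ) ≤ k := by exact_mod_cast hk
  have hd : 0 < c - k := by linarith
  have hD : 0 < ((k : ℝ) + 1) * (c - k + 1) := by positivity
  rw [lt_div_iff₀ hD] at hθ
  have hK : (k : ℝ) < ((k + 1) * (1 - θ) - 1) * (c - k + 1) := by nlinarith
  have hK0 : 0 < ((k : ℝ) + 1) * (1 - θ) - 1 := by
    by_contra hcon
    have := mul_nonpos_of_nonpos_of_nonneg (not_lt.mp hcon) (by linarith : 0 ≤ c - k + 1)
    linarith
  have hθ1 : θ < 1 := by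
    by_contra hcon
    have : ((k : ℝ) + 1) * (1 - θ) ≤ 0 :=
      mul_nonpos_of_nonneg_of_nonpos (by linarith) (by linarith)
    linarith
  have hmain : (k : ℝ) / ((k + 1) * (1 - θ) - 1) < c - k + 1 := by
    rw [div_lt_iff₀ hK0]
    linarith
  obtain ⟨σ, hσ1, hσ2⟩ := exists_between hmain
  have hσ0 : 0 < σ := lt_trans (by positivity) hσ1
  rw [div_lt_iff₀ hK0] at hσ1
  obtain ⟨n₀, hn1, hn₀⟩ := explicit_pair k hk θ σ c hθ1 hσ0 hσ1 (by linarith)
  refine ⟨⟨n₀, ?_⟩, count_of_gap hθ0 hθ1 hn1 hn₀⟩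
  intro t₁ t₂ h1 h12 h2 h3
  by_contra hcon
  exact hn₀ t₁ h1 t₁ t₂ le_rfl h12 (not_lt.mp hcon) h2 h3

end Pool.Agent.ExpPowI
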