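import Pool.Agent.ExpPowI.Counting

/-! Counting statements with uniformity. -/

namespace Pool.Agent.ExpPowI

open Finset Filter

lemma block_total (E : ℕ → Prop) [DecidablePred E] (M L B T : ℕ) (hL : 1 ≤ L)
    (h : ∀ a ≥ M, ((Finset.Ico a (a + L)).filter E).card ≤ B) :
    (((Finset.range (T + 1)).filter E).card : ℝ) ≤ M + ((T : ℝ) / L + 1) * B := by
  have h1 := block_count E M L B h (T / L + 1)
  have h2 : (Finset.range (T + 1)).filter E ⊆
      (Finset.range M) ∪ (Finset.Ico M (M + (T / L + 1) * L)).filter E := by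
    intro x hx
    simp only [Finset.mem_filter, Finset.mem_union, Finset.mem_range, Finset.mem_Ico] at hx ⊢
    obtain ⟨h1, h2⟩ := hx
    by_cases h3 : x < M
    · exact Or.inl h3
    · refine Or.inr ⟨⟨by omega, ?_⟩, h2⟩
      have h4 : T < (T / L + 1) * L := by
        have := Nat.lt_div_mul_add (a := T) (b := L) (by omega)
        calc T < T / L * L + L := this
          _ = (T / L + 1) * L := by ring
      omega
  have h3 : ((Finset.range (T + 1)).filter E).card ≤ M + (T / L + 1) * B := by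
    refine (Finset.card_le_card h2).trans ((Finset.card_union_le _ _).trans ?_)
    rw [Finset.card_range]
    omega
  have h4 : (((Finset.range (T + 1)).filter E).card : ℝ) ≤ M + ((T / L : ℕ) + 1) * B := by
    exact_mod_cast h3
  refine h4.trans ?_
  have h5 : ((T / L : ℕ) : ℝ) ≤ (T : ℝ) / L := Nat.cast_div_le
  have h6 : (0 : ℝ) ≤ B := by positivity
  have := mul_le_mul_of_nonneg_right (add_le_add_left h5 1) h6
  linarith

/-- The two uniform counting statements for `0 < c ≤ 1`. -/
theorem few_small_c : ∃ T₀ : ℕ, ∀ T : ℕ, T₀ ≤ T → ∀ c : ℝ, 0 < c → c ≤ 1 → ∀ S : Finset ℕ,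
    (∀ t ∈ S, t ≤ T ∧ distToNearestInt (Real.exp t) ≤ Real.exp (-(c * t))) →
    (S.card : ℝ) ≤ 40 / c * (T * Real.log (Real.log T) / Real.log T) ∧
    (S.card : ℝ) ≤ 40 / c * (T : ℝ) ^ (1 - (c / 22) ^ 2) := by
  classical
  obtain ⟨n₀, hn1, hn₀⟩ := window_few
  obtain ⟨T₁, hT₁, hT⟩ := exists_log_large (Real.exp 1) 4
  refine ⟨max (n₀ ^ 2) (max 16 T₁), ?_⟩
  intro T hTT c hc hc1 S hS
  have hT0 : n₀ ^ 2 ≤ T := (le_max_left _ _).trans hTT
  have hT16 : 16 ≤ T := ((le_max_left _ _).trans (le_max_right _ _)).trans hTT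
  obtain ⟨hl, hl4⟩ := hT T (((le_max_right _ _).trans (le_max_right _ _)).trans hTT)
  set l := Real.log T with hldef
  have hTR : (16 : ℝ) ≤ T := by exact_mod_cast hT16
  have hTpos : (0 : ℝ) < T := by linarith
  have hT1R : (1 : ℝ) ≤ T := by linarith
  have hl0 : 0 < l := (Real.exp_pos 1).trans_le hl
  set m := Real.log l with hm
  have hm1 : 1 ≤ m := by rwa [hm, Real.le_log_iff_exp_le hl0]
  set E : ℕ → Prop := fun t => distToNearestInt (Real.exp t) ≤ Real.exp (-(c * t)) with hE
  set M := Nat.sqrt T with hM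
  set M' := M + 1 with hM'
  have hMT : (M' : ℝ) ≤ 2 * Real.sqrt T := by
    have h1 : (M : ℝ) ≤ Real.sqrt T := Real.nat_sqrt_le_real_sqrt
    have h2 : (1 : ℝ) ≤ Real.sqrt T := by
      rw [Real.one_le_sqrt]
      exact hT1R
    rw [hM']
    push_cast
    linarith
  have hlogM : ∀ a : ℕ, M' ≤ a → l / 2 ≤ Real.log a ∧ n₀ ≤ a := by
    intro a ha
    have h1 : T < a * a := by
      have h2 : T < (M + 1) * (M + 1) := Nat.lt_succ_sqrt T
      exact h2.trans_le (Nat.mul_le_mul ha ha)
    have ha1 : 1 ≤ a := by omega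
    have ha0 : (0 : ℝ) < a := by exact_mod_cast ha1
    constructor
    · have h2 : (T : ℝ) ≤ (a : ℝ) * a := by exact_mod_cast h1.le
      have h3 := Real.log_le_log hTpos h2
      rw [Real.log_mul ha0.ne' ha0.ne'] at h3
      linarith
    · by_contra hcon
      rw [not_le] at hcon
      have h2 : a * a ≤ n₀ * n₀ := Nat.mul_le_mul hcon.le hcon.le
      have h3 : n₀ ^ 2 = n₀ * n₀ := sq n₀
      omega
  set B := ⌊10 / c⌋₊ with hB
  have hBle : (B : ℝ) ≤ 10 / c := Nat.floor_le (by positivity)
  have hSsub : S ⊆ (Finset.range (T + 1)).filter E := by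
    intro x hx
    simp only [Finset.mem_filter, Finset.mem_range]
    exact ⟨by have := (hS x hx).1; omega, (hS x hx).2⟩
  have hScard : (S.card : ℝ) ≤ ((Finset.range (T + 1)).filter E).card := by
    exact_mod_cast Finset.card_le_card hSsub
  have hwin : ∀ h : ℕ, (∀ a : ℕ, M' ≤ a → ((h : ℝ) * Real.log h ≤ Real.log a ∨
      Real.log h ≤ (c / 15) ^ 2 * Real.log a)) →
      (S.card : ℝ) ≤ M' + ((T : ℝ) / ((h + 1 : ℕ) : ℝ) + 1) * B := by
    intro h hor
    refine hScard.trans (block_total E M' (h + 1) B T (by omega) ?_)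
    intro a ha
    apply Nat.le_floor
    refine hn₀ a (hlogM a ha).2 c hc hc1 h (hor a ha) _ ?_
    intro t ht
    simp only [Finset.mem_filter, Finset.mem_Ico] at ht
    exact ⟨ht.1.1, by omega, ht.2⟩
  have h1c : 1 ≤ 1 / c := by
    rw [le_div_iff₀ hc]
    linarith
  have hsqrt : Real.sqrt T * Real.sqrt T = T := Real.mul_self_sqrt hTpos.le
  have hsq1 : (1 : ℝ) ≤ Real.sqrt T := by
    rw [Real.one_le_sqrt]
    exact hT1R
  constructor
  · set X := (T : ℝ) * m / l with hX
    -- `h = ⌊l / (2 m)⌋`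
    set h := ⌊l / (2 * m)⌋₊ with hh
    have hhle : (h : ℝ) ≤ l / (2 * m) := Nat.floor_le (by positivity)
    have hhlt : l / (2 * m) < (h : ℝ) + 1 := Nat.lt_floor_add_one _
    have h1 := hwin h (fun a ha => Or.inl (by
      refine le_trans ?_ (hlogM a ha).1
      have h2 : Real.log h ≤ m := by
        rcases Nat.eq_zero_or_pos h with h0 | h0
        · rw [h0]
          simp only [Nat.cast_zero, Real.log_zero]
          linarith
        · apply Real.log_le_log (by exact_mod_cast h0)
          refine hhle.trans ?_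
          rw [div_le_iff₀ (by positivity)]
          nlinarith
      have h3 : (h : ℝ) * Real.log h ≤ (l / (2 * m)) * m :=
        mul_le_mul hhle h2 (Real.log_natCast_nonneg h) (by positivity)
      have h4 : (l / (2 * m)) * m = l / 2 := by
        field_simp
      linarith))
    have h2 : (T : ℝ) / ((h + 1 : ℕ) : ℝ) ≤ 2 * X := by
      push_cast
      have h3 : (T : ℝ) / (h + 1) ≤ T / (l / (2 * m)) := by gcongr
      have h4 : (T : ℝ) / (l / (2 * m)) = 2 * X := by
        rw [hX]
        field_simp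
      linarith
    have hsX : Real.sqrt T ≤ X := by
      rw [hX, le_div_iff₀ hl0]
      have h5 : l ≤ Real.sqrt T := by
        apply Real.le_sqrt_of_sq_le
        refine le_trans ?_ hl4
        have h6 : 1 ≤ l := by
          have := Real.add_one_le_exp (1 : ℝ)
          linarith
        exact pow_le_pow_right₀ h6 (by norm_num)
      calc Real.sqrt T * l ≤ Real.sqrt T * Real.sqrt T :=
            mul_le_mul_of_nonneg_left h5 (by positivity)
        _ = T * 1 := by rw [hsqrt, mul_one]
        _ ≤ T * m := mul_le_mul_of_nonneg_left hm1 hTpos.le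
    have hX1 : 1 ≤ X := hsq1.trans hsX
    have h7 : ((T : ℝ) / ((h + 1 : ℕ) : ℝ) + 1) * B ≤ (3 * X) * (10 / c) :=
      mul_le_mul (by linarith) hBle (by positivity) (by positivity)
    have h8 : (S.card : ℝ) ≤ 2 * X + (3 * X) * (10 / c) := by linarith
    refine h8.trans ?_
    have h9 : 2 * X * 1 ≤ 2 * X * (1 / c) := mul_le_mul_of_nonneg_left h1c (by positivity)
    have h10 : 0 ≤ X * (1 / c) := by positivity
    have h11 : (3 * X) * (10 / c) = 30 * (X * (1 / c)) := by ring
    have h12 : 40 / c * X = 40 * (X * (1 / c)) := by ring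
    rw [h12, h11]
    linarith
  · set e := (c / 22) ^ 2 with he
    have he0 : 0 ≤ e := by positivity
    have he1 : e ≤ 1 / 2 := by
      have h1 : (c / 22) ^ 2 ≤ (1 / 22) ^ 2 := by
        apply pow_le_pow_left₀ (by positivity)
        linarith
      rw [he]
      refine h1.trans ?_
      norm_num
    set h := ⌊(T : ℝ) ^ e⌋₊ with hh
    have hTe : 0 < (T : ℝ) ^ e := by positivity
    have hTe1 : 1 ≤ (T : ℝ) ^ e := Real.one_le_rpow hT1R he0
    have hh1 : 1 ≤ h := by
      rw [hh]
      exact Nat.le_floor (by simpa using hTe1)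
    have hhle : (h : ℝ) ≤ (T : ℝ) ^ e := Nat.floor_le hTe.le
    have hhlt : (T : ℝ) ^ e < (h : ℝ) + 1 := Nat.lt_floor_add_one _
    have h1 := hwin h (fun a ha => Or.inr (by
      have h2 : Real.log h ≤ e * l := by
        have h3 := Real.log_le_log (by exact_mod_cast hh1) hhle
        rwa [Real.log_rpow hTpos] at h3
      refine h2.trans ?_
      have h4 : e * l ≤ (c / 15) ^ 2 * (l / 2) := by
        rw [he]
        have : 0 ≤ c ^ 2 * l := by positivity
        nlinarith
      refine h4.trans ?_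
      exact mul_le_mul_of_nonneg_left (hlogM a ha).1 (by positivity)))
    set Y := (T : ℝ) ^ (1 - e) with hY
    have h2 : (T : ℝ) / ((h + 1 : ℕ) : ℝ) ≤ Y := by
      push_cast
      have h3 : (T : ℝ) / (h + 1) ≤ T / (T : ℝ) ^ e := by gcongr
      have h4 : (T : ℝ) / (T : ℝ) ^ e = Y := by
        rw [hY, Real.rpow_sub hTpos, Real.rpow_one]
      linarith
    have hsY : Real.sqrt T ≤ Y := by
      rw [hY, Real.sqrt_eq_rpow]
      exact Real.rpow_le_rpow_of_exponent_le hT1R (by linarith)
    have hY1 : 1 ≤ Y := hsq1.trans hsY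
    have h7 : ((T : ℝ) / ((h + 1 : ℕ) : ℝ) + 1) * B ≤ (2 * Y) * (10 / c) :=
      mul_le_mul (by linarith) hBle (by positivity) (by positivity)
    have h8 : (S.card : ℝ) ≤ 2 * Y + (2 * Y) * (10 / c) := by linarith
    refine h8.trans ?_
    have h9 : 2 * Y * 1 ≤ 2 * Y * (1 / c) := mul_le_mul_of_nonneg_left h1c (by positivity)
    have h10 : 0 ≤ Y * (1 / c) := by positivity
    have h11 : (2 * Y) * (10 / c) = 20 * (Y * (1 / c)) := by ring
    have h12 : 40 / c * Y = 40 * (Y * (1 / c)) := by ring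
    rw [h12, h11]
    linarith

end Pool.Agent.ExpPowI
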