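import Pool.Agent.ExpPowI.Counting2

/-! Polylogarithmically many exceptions at the level `exp (-δ t log t / log log t)`. -/

namespace Pool.Agent.ExpPowI

open Finset Filter

/-- `(log n)^A ≤ n` eventually, real exponent. -/
lemma exists_log_rpow_le (A : ℝ) :
    ∃ n₀ : ℕ, 1 ≤ n₀ ∧ ∀ n : ℕ, n₀ ≤ n → Real.log n ^ A ≤ (n : ℝ) := by
  have h2 : ∀ᶠ x : ℝ in atTop, ‖Real.log x ^ A‖ ≤ 1 * ‖x ^ (1 : ℝ)‖ :=
    (isLittleO_log_rpow_rpow_atTop A one_pos).bound one_pos
  have h3 : ∀ᶠ n : ℕ in atTop, Real.log n ^ A ≤ (n : ℝ) := by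
    filter_upwards [tendsto_natCast_atTop_atTop.eventually h2] with n hn2
    have h4 := (le_abs_self _).trans hn2
    simpa using h4
  obtain ⟨n₀, hn₀⟩ := eventually_atTop.mp h3
  exact ⟨max 1 n₀, le_max_left _ _, fun n hn => hn₀ n ((le_max_right _ _).trans hn)⟩

/-- In a dyadic block `[n, 2n]` there are at most `2 (log n)^{20/δ}` exceptional integers. -/
theorem dyadic_block (δ : ℝ) (hδ : 0 < δ) (hδ1 : δ ≤ 1) : ∃ n₀ : ℕ, 1 ≤ n₀ ∧
    (∀ n : ℕ, n₀ ≤ n → 1 ≤ Real.log n) ∧ ∀ n : ℕ, n₀ ≤ n →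
    ∀ S : Finset ℕ, (∀ t ∈ S, n ≤ t ∧ t ≤ 2 * n ∧ distToNearestInt (Real.exp t) ≤
      Real.exp (-(δ * (t * Real.log t / Real.log (Real.log t))))) →
    (S.card : ℝ) ≤ 2 * Real.log n ^ (20 / δ) := by
  classical
  obtain ⟨n₁, hn1, hn₁⟩ := pair_gap
  obtain ⟨n₂, hn2, hn₂⟩ := exists_log_rpow_le (20 * (20 / δ))
  obtain ⟨n₃, hn3, hn₃⟩ := exists_log_large (Real.exp 2) 1
  have he2 : Real.exp 1 ≤ Real.exp 2 := Real.exp_le_exp.mpr (by norm_num)
  have he1 : 1 ≤ Real.exp 1 := Real.one_le_exp (by norm_num)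
  refine ⟨max n₁ (max n₂ n₃), hn1.trans (le_max_left _ _), ?_, ?_⟩
  · intro n hn
    exact he1.trans (he2.trans (hn₃ n (((le_max_right _ _).trans (le_max_right _ _)).trans hn)).1)
  intro n hn S hS
  have hgap := hn₁ n ((le_max_left _ _).trans hn)
  have hWn := hn₂ n (((le_max_left _ _).trans (le_max_right _ _)).trans hn)
  obtain ⟨hl, -⟩ := hn₃ n (((le_max_right _ _).trans (le_max_right _ _)).trans hn)
  have hnpos : 1 ≤ n := hn1.trans ((le_max_left _ _).trans hn)
  have hn0 : (0 : ℝ) < n := by exact_mod_cast hnpos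
  set l := Real.log n with hldef
  have hle : Real.exp 1 ≤ l := he2.trans hl
  have hl1 : 1 ≤ l := he1.trans hle
  have hl0 : 0 < l := by linarith
  set m := Real.log l with hm
  have hm1 : 1 ≤ m := by rwa [hm, Real.le_log_iff_exp_le hl0]
  set A := 20 / δ with hA
  have hA20 : 20 ≤ A := by
    rw [hA, le_div_iff₀ hδ]
    linarith
  set W := l ^ A with hW
  have hW20 : l ^ 20 ≤ W := by
    rw [hW, ← Real.rpow_natCast]
    exact Real.rpow_le_rpow_of_exponent_le hl1 (by push_cast; linarith)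
  have hW1 : 1 ≤ W := Real.one_le_rpow hl1 (by linarith)
  have hW0 : 0 < W := by linarith
  have hlogW : Real.log W = A * m := by
    rw [hW, Real.log_rpow hl0]
  have hWl : 20 * Real.log W ≤ l := by
    have h1 : Real.log (l ^ (20 * A)) ≤ Real.log n := Real.log_le_log (by positivity) hWn
    rw [Real.log_rpow hl0] at h1
    rw [hlogW]
    linarith
  -- no two exceptional integers are close
  have hpair : ∀ t₁ ∈ S, ∀ t₂ ∈ S, t₁ < t₂ → (n : ℝ) / W < (t₂ : ℝ) - t₁ := by
    intro t₁ h1 t₂ h2 h12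
    by_contra hcon
    rw [not_lt] at hcon
    have hlev : ∀ t ∈ S, distToNearestInt (Real.exp t) ≤ Real.exp (-(δ * (n * (l / m)))) := by
      intro t ht
      obtain ⟨h3, h4, h5⟩ := hS t ht
      refine h5.trans (Real.exp_le_exp.mpr ?_)
      have h6 : (n : ℝ) ≤ t := by exact_mod_cast h3
      have h7 : l ≤ Real.log t := Real.log_le_log hn0 h6
      have h8 := div_log_mono hle h7
      have h9 : (n : ℝ) * (l / m) ≤ t * (Real.log t / Real.log (Real.log t)) :=
        mul_le_mul h6 h8 (by positivity) (by linarith)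
      have h10 := mul_le_mul_of_nonneg_left h9 hδ.le
      have h11 : (t : ℝ) * Real.log t / Real.log (Real.log t) =
          t * (Real.log t / Real.log (Real.log t)) := by ring
      rw [h11]
      linarith
    have h3 := hgap W hW20 hWl t₁ t₂ h12 (hS t₂ h2).2.1 hcon _ (hlev t₁ h1) (hlev t₂ h2)
    rw [Real.exp_le_exp, neg_le_neg_iff, hlogW] at h3
    have h4 : 10 * (l / (A * m)) * n = 1 / 2 * (δ * (n * (l / m))) := by
      rw [hA]
      field_simp
      ring
    have h5 : 0 < δ * (n * (l / m)) := by positivity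
    rw [h4] at h3
    linarith
  -- counting
  set E : ℕ → Prop := fun t => t ∈ S with hE
  set L := ⌊(n : ℝ) / W⌋₊ + 1 with hL
  have hLfl : (⌊(n : ℝ) / W⌋₊ : ℝ) ≤ n / W := Nat.floor_le (by positivity)
  have hLlt : (n : ℝ) / W < (L : ℝ) := by
    rw [hL]
    push_cast
    exact Nat.lt_floor_add_one _
  have hblock : ∀ a ≥ n, ((Finset.Ico a (a + L)).filter E).card ≤ 1 := by
    intro a _
    by_contra hcon
    rw [not_le, one_lt_card] at hcon
    obtain ⟨u, hu, v, hv, huv⟩ := hcon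
    simp only [hE, mem_filter, mem_Ico] at hu hv
    have hcase : ∀ u v : ℕ, a ≤ u → v < a + L → u ∈ S → v ∈ S → u < v → False := by
      intro u v h1 h2 h3 h4 h5
      have h6 := hpair u h3 v h4 h5
      have h7 : v ≤ u + ⌊(n : ℝ) / W⌋₊ := by omega
      have h8 : (v : ℝ) ≤ u + (⌊(n : ℝ) / W⌋₊ : ℝ) := by exact_mod_cast h7
      linarith
    rcases lt_or_gt_of_ne huv with h | h
    · exact hcase u v hu.1.1 hv.1.2 hu.2 hv.2 h
    · exact hcase v u hv.1.1 hu.1.2 hv.2 hu.2 h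
  have hLpos : 0 < L := by omega
  have hcov := block_count E n L 1 hblock (n / L + 1)
  have hSsub : S ⊆ (Finset.Ico n (n + (n / L + 1) * L)).filter E := by
    intro t ht
    obtain ⟨h1, h2, -⟩ := hS t ht
    simp only [hE, mem_filter, mem_Ico]
    refine ⟨⟨h1, ?_⟩, ht⟩
    have h4 : n < (n / L + 1) * L := by
      have := Nat.lt_div_mul_add (a := n) (b := L) hLpos
      calc n < n / L * L + L := this
        _ = (n / L + 1) * L := by ring
    omega
  have h1 : S.card ≤ n / L + 1 := by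
    have := (card_le_card hSsub).trans hcov
    simpa using this
  have h2 : (S.card : ℝ) ≤ ((n / L : ℕ) : ℝ) + 1 := by exact_mod_cast h1
  have h3 : ((n / L : ℕ) : ℝ) ≤ (n : ℝ) / L := Nat.cast_div_le
  have h4 : (n : ℝ) / L ≤ W := by
    rw [div_le_iff₀ (by exact_mod_cast hLpos)]
    rw [div_lt_iff₀ hW0] at hLlt
    linarith
  linarith

/-- For every `0 < δ ≤ 1`, all but `C (log N)^{21/δ}` of the `t ≤ N` satisfy
`‖e^t‖ > exp (-δ t log t / log log t)`. -/
theorem few_polylog (δ : ℝ) (hδ : 0 < δ) (hδ1 : δ ≤ 1) : ∃ C : ℝ, ∀ N : ℕ, 3 ≤ N →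
    ∀ S : Finset ℕ, (∀ t ∈ S, t ≤ N ∧ distToNearestInt (Real.exp t) ≤
      Real.exp (-(δ * (t * Real.log t / Real.log (Real.log t))))) →
    (S.card : ℝ) ≤ C * Real.log N ^ (21 / δ) := by
  classical
  obtain ⟨n₀, hn1, hlog1, hn₀⟩ := dyadic_block δ hδ hδ1
  set A := 20 / δ with hA
  have hA20 : 20 ≤ A := by
    rw [hA, le_div_iff₀ hδ]
    linarith
  have hA0 : 0 ≤ A := by linarith
  set E : ℕ → Prop := fun t => distToNearestInt (Real.exp t) ≤
      Real.exp (-(δ * (t * Real.log t / Real.log (Real.log t)))) with hE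
  have hn0R : (1 : ℝ) ≤ n₀ := by exact_mod_cast hn1
  -- induction over dyadic blocks
  have hind : ∀ i : ℕ, (((range (2 ^ i * n₀)).filter E).card : ℝ) ≤
      n₀ + 2 * i * Real.log ((2 ^ i * n₀ : ℕ) : ℝ) ^ A := by
    intro i
    induction i with
    | zero =>
      have h1 : ((range (2 ^ 0 * n₀)).filter E).card ≤ n₀ := by
        refine (card_filter_le _ _).trans ?_
        simp
      have h2 : (((range (2 ^ 0 * n₀)).filter E).card : ℝ) ≤ n₀ := by exact_mod_cast h1
      simpa using h2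
    | succ i ih =>
      set n := 2 ^ i * n₀ with hn
      have hn0n : n₀ ≤ n := by
        rw [hn]
        exact Nat.le_mul_of_pos_left _ (by positivity)
      have hn' : 2 ^ (i + 1) * n₀ = 2 * n := by
        rw [hn, pow_succ]
        ring
      rw [hn']
      have hsub : (range (2 * n)).filter E ⊆ (range n).filter E ∪ (Ico n (2 * n)).filter E := by
        intro t ht
        simp only [mem_filter, mem_union, mem_range, mem_Ico] at ht ⊢
        by_cases h : t < n
        · exact Or.inl ⟨h, ht.2⟩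
        · exact Or.inr ⟨⟨by omega, ht.1⟩, ht.2⟩
      have hcard := (card_le_card hsub).trans (card_union_le _ _)
      have hcardR : (((range (2 * n)).filter E).card : ℝ) ≤ ((range n).filter E).card +
          ((Ico n (2 * n)).filter E).card := by exact_mod_cast hcard
      have hblock := hn₀ n hn0n ((Ico n (2 * n)).filter E) (by
        intro t ht
        simp only [mem_filter, mem_Ico] at ht
        exact ⟨ht.1.1, ht.1.2.le, ht.2⟩)
      have hnpos : (0 : ℝ) < n := by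
        have : 1 ≤ n := hn1.trans hn0n
        exact_mod_cast this
      have hlogn : 1 ≤ Real.log n := hlog1 n hn0n
      have hlogmono : Real.log n ≤ Real.log ((2 * n : ℕ) : ℝ) :=
        Real.log_le_log hnpos (by push_cast; linarith)
      have hpow : Real.log n ^ A ≤ Real.log ((2 * n : ℕ) : ℝ) ^ A :=
        Real.rpow_le_rpow (by linarith) hlogmono hA0
      have h1 : 2 * (i : ℝ) * Real.log n ^ A ≤ 2 * i * Real.log ((2 * n : ℕ) : ℝ) ^ A :=
        mul_le_mul_of_nonneg_left hpow (by positivity)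
      push_cast at ih h1 hpow ⊢
      nlinarith
  set K := 1 + Real.log (2 * n₀) with hK
  have hK1 : 1 ≤ K := by
    have : 0 ≤ Real.log (2 * n₀) := Real.log_nonneg (by linarith)
    linarith
  refine ⟨n₀ + 6 * K ^ A, ?_⟩
  intro N hN S hS
  have hNR : (3 : ℝ) ≤ N := by exact_mod_cast hN
  have hN0 : (0 : ℝ) < N := by linarith
  set l := Real.log N with hl
  have hl1 : 1 ≤ l := one_le_log hNR
  set i := Nat.log 2 N + 1 with hi
  have hi1 : N < 2 ^ i := Nat.lt_pow_succ_log_self (by norm_num) N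
  have hi2 : 2 ^ (Nat.log 2 N) ≤ N := Nat.pow_log_le_self 2 (by omega)
  have hSsub : S ⊆ (range (2 ^ i * n₀)).filter E := by
    intro t ht
    obtain ⟨h1, h2⟩ := hS t ht
    simp only [mem_filter, mem_range]
    refine ⟨?_, h2⟩
    have : 2 ^ i ≤ 2 ^ i * n₀ := Nat.le_mul_of_pos_right _ (by omega)
    omega
  have h1 : (S.card : ℝ) ≤ n₀ + 2 * i * Real.log ((2 ^ i * n₀ : ℕ) : ℝ) ^ A :=
    le_trans (by exact_mod_cast card_le_card hSsub) (hind i)
  have h2 : ((2 ^ i * n₀ : ℕ) : ℝ) ≤ N * (2 * n₀) := by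
    have h3 : 2 ^ i * n₀ ≤ N * (2 * n₀) := by
      rw [hi, pow_succ]
      calc 2 ^ (Nat.log 2 N) * 2 * n₀ = 2 ^ (Nat.log 2 N) * (2 * n₀) := by ring
        _ ≤ N * (2 * n₀) := Nat.mul_le_mul_right _ hi2
    exact_mod_cast h3
  have hpos : (0 : ℝ) < ((2 ^ i * n₀ : ℕ) : ℝ) := by
    have : 0 < 2 ^ i * n₀ := by positivity
    exact_mod_cast this
  have hge1 : (1 : ℝ) ≤ ((2 ^ i * n₀ : ℕ) : ℝ) := by
    have : 1 ≤ 2 ^ i * n₀ := Nat.one_le_iff_ne_zero.mpr (by positivity)
    exact_mod_cast this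
  have h3 : Real.log ((2 ^ i * n₀ : ℕ) : ℝ) ≤ K * l := by
    have h4 := Real.log_le_log hpos h2
    rw [Real.log_mul hN0.ne' (by linarith : (2 * (n₀ : ℝ)) ≠ 0).symm.symm] at h4
    have h5 : 0 ≤ Real.log (2 * n₀) := Real.log_nonneg (by linarith)
    have h6 : Real.log (2 * n₀) * 1 ≤ Real.log (2 * n₀) * l := mul_le_mul_of_nonneg_left hl1 h5
    rw [hK]
    linarith
  have h4 : Real.log ((2 ^ i * n₀ : ℕ) : ℝ) ^ A ≤ K ^ A * l ^ A := by
    rw [← Real.mul_rpow (by linarith) (by linarith)]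
    exact Real.rpow_le_rpow (Real.log_nonneg hge1) h3 hA0
  have h5 : (i : ℝ) ≤ 3 * l := by
    have h6 : (Nat.log 2 N : ℝ) * Real.log 2 ≤ l := by
      have h7 : Real.log ((2 ^ (Nat.log 2 N) : ℕ) : ℝ) ≤ Real.log N := by
        apply Real.log_le_log
        · positivity
        · exact_mod_cast hi2
      push_cast at h7
      rwa [Real.log_pow] at h7
    have h8 : (1 / 2 : ℝ) ≤ Real.log 2 := by
      have := Real.log_two_gt_d9
      linarith
    have h9 : (Nat.log 2 N : ℝ) * (1 / 2) ≤ (Nat.log 2 N : ℝ) * Real.log 2 :=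
      mul_le_mul_of_nonneg_left h8 (by positivity)
    rw [hi]
    push_cast
    linarith
  have hlA : 0 ≤ K ^ A * l ^ A := by positivity
  have h6 : 2 * (i : ℝ) * Real.log ((2 ^ i * n₀ : ℕ) : ℝ) ^ A ≤ (2 * (3 * l)) * (K ^ A * l ^ A) :=
    mul_le_mul (by linarith) h4 (Real.rpow_nonneg (Real.log_nonneg hge1) _) (by positivity)
  have h7 : (2 * (3 * l)) * (K ^ A * l ^ A) = 6 * K ^ A * l ^ (A + 1) := by
    rw [Real.rpow_add_one (by linarith)]
    ring
  have h8 : 1 ≤ l ^ (A + 1) := Real.one_le_rpow hl1 (by linarith)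
  have h9 : (n₀ : ℝ) * 1 ≤ n₀ * l ^ (A + 1) := mul_le_mul_of_nonneg_left h8 (by linarith)
  have h10 : (S.card : ℝ) ≤ (n₀ + 6 * K ^ A) * l ^ (A + 1) := by
    rw [h7] at h6
    linarith
  refine h10.trans ?_
  have h11 : A + 1 ≤ 21 / δ := by
    have h12 : 1 ≤ 1 / δ := by
      rw [le_div_iff₀ hδ]
      linarith
    have h13 : 21 / δ = 20 / δ + 1 / δ := by ring
    rw [h13, hA]
    linarith
  have hK0 : 0 ≤ K ^ A := Real.rpow_nonneg (by linarith) _
  exact mul_le_mul_of_nonneg_left (Real.rpow_le_rpow_of_exponent_le hl1 h11) (by positivity)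

end Pool.Agent.ExpPowI
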