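import Pool.Agent.ExpPowI.Pair

/-! The gap principle with an explicit trade-off: windows `[n, n + n^θ]`. -/

namespace Pool.Agent.ExpPowI

open Finset Filter Topology

/-- The asymptotic inequalities used below. -/
lemma asym (σ η θ : ℝ) (k : ℕ) (hσ : 0 < σ) (hη : 0 < η) (hη1 : η ≤ 1) (hθ : θ < 1) :
    ∃ n₀ : ℕ, 1 ≤ n₀ ∧ ∀ n : ℕ, n₀ ≤ n → 1 ≤ Real.log n ∧ (n : ℝ) ^ θ ≤ η * n ∧ 1 ≤ η * n ∧
      (k : ℝ) ^ 2 ≤ n ∧
      ∀ N : ℝ, σ * n / Real.log n ≤ N → N ≤ σ * n / Real.log n + 8 * Real.sqrt n →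
        N ≤ η * n ∧ (1 - η) * Real.log n ≤ Real.log N ∧ Real.log N ≤ Real.log n ∧
        N * Real.log n ≤ (σ + η) * n := by
  have e1 : ∀ᶠ x : ℝ in atTop, 1 ≤ Real.log x := Real.tendsto_log_atTop.eventually_ge_atTop 1
  have e1' : ∀ᶠ x : ℝ in atTop, 2 * σ / η ≤ Real.log x :=
    Real.tendsto_log_atTop.eventually_ge_atTop _
  have e2 : ∀ᶠ x : ℝ in atTop, x ^ (-(1 - θ)) ≤ η :=
    (tendsto_rpow_neg_atTop (show 0 < 1 - θ by linarith)).eventually_le_const hη
  have e3 : ∀ᶠ x : ℝ in atTop, 1 / η ≤ x := eventually_ge_atTop _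
  have e4 : ∀ᶠ x : ℝ in atTop, ‖Real.log x‖ ≤ σ * ‖x ^ η‖ :=
    (isLittleO_log_rpow_atTop hη).bound hσ
  have e5 : ∀ᶠ x : ℝ in atTop, ‖Real.log x‖ ≤ (η / 16) * ‖x ^ ((1 : ℝ) / 2)‖ :=
    (isLittleO_log_rpow_atTop (by norm_num)).bound (by positivity)
  have e6 : ∀ᶠ x : ℝ in atTop, (k : ℝ) ^ 2 ≤ x := eventually_ge_atTop _
  have hall : ∀ᶠ n : ℕ in atTop, 1 ≤ Real.log n ∧ (n : ℝ) ^ θ ≤ η * n ∧ 1 ≤ η * n ∧
      (k : ℝ) ^ 2 ≤ n ∧
      ∀ N : ℝ, σ * n / Real.log n ≤ N → N ≤ σ * n / Real.log n + 8 * Real.sqrt n →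
        N ≤ η * n ∧ (1 - η) * Real.log n ≤ Real.log N ∧ Real.log N ≤ Real.log n ∧
        N * Real.log n ≤ (σ + η) * n := by
    have hc := tendsto_natCast_atTop_atTop (R := ℝ)
    filter_upwards [hc.eventually e1, hc.eventually e1', hc.eventually e2, hc.eventually e3,
      hc.eventually e4, hc.eventually e5, hc.eventually e6, eventually_gt_atTop 0]
      with n h1 h1' h2 h3 h4 h5 h6 h7
    have hn0 : (0 : ℝ) < n := by exact_mod_cast h7
    have hl0 : 0 < Real.log n := by linarith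
    have h3' : 1 ≤ η * n := by
      rw [div_le_iff₀ hη] at h3
      linarith
    rw [Real.norm_eq_abs, abs_of_pos hl0, Real.norm_eq_abs, abs_of_pos (by positivity)] at h4 h5
    rw [← Real.sqrt_eq_rpow] at h5
    have hs : Real.sqrt n * Real.sqrt n = n := Real.mul_self_sqrt hn0.le
    have hs0 : 0 ≤ Real.sqrt n := Real.sqrt_nonneg _
    have h5' : 8 * Real.sqrt n * Real.log n ≤ η / 2 * n := by
      have := mul_le_mul_of_nonneg_left h5 hs0
      nlinarith
    refine ⟨h1, ?_, h3', h6, ?_⟩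
    · have h8 : (n : ℝ) ^ θ = (n : ℝ) ^ (-(1 - θ)) * n := by
        rw [← Real.rpow_add_one hn0.ne']
        congr 1
        ring
      rw [h8]
      exact mul_le_mul_of_nonneg_right h2 hn0.le
    · intro N hN1 hN2
      have h9 : N * Real.log n ≤ σ * n + η / 2 * n := by
        have h10 : N * Real.log n ≤ (σ * n / Real.log n + 8 * Real.sqrt n) * Real.log n :=
          mul_le_mul_of_nonneg_right hN2 hl0.le
        have h11 : (σ * n / Real.log n + 8 * Real.sqrt n) * Real.log n =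
            σ * n + 8 * Real.sqrt n * Real.log n := by
          field_simp
        linarith
      have h12 : (n : ℝ) ^ (1 - η) ≤ N := by
        refine le_trans ?_ hN1
        rw [le_div_iff₀ hl0]
        have h13 : (n : ℝ) ^ (1 - η) * Real.log n ≤ (n : ℝ) ^ (1 - η) * (σ * (n : ℝ) ^ η) :=
          mul_le_mul_of_nonneg_left h4 (by positivity)
        have h14 : (n : ℝ) ^ (1 - η) * (n : ℝ) ^ η = n := by
          rw [← Real.rpow_add hn0]
          simp
        calc (n : ℝ) ^ (1 - η) * Real.log n ≤ (n : ℝ) ^ (1 - η) * (σ * (n : ℝ) ^ η) := h13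
          _ = σ * ((n : ℝ) ^ (1 - η) * (n : ℝ) ^ η) := by ring
          _ = σ * n := by rw [h14]
      have hN0 : 0 < N := lt_of_lt_of_le (by positivity) h12
      have hNη : N ≤ η * n := by
        have h15 : N * Real.log n ≤ (η * n) * Real.log n := by
          have h16 : 2 * σ * n ≤ (η * n) * Real.log n := by
            rw [div_le_iff₀ hη] at h1'
            have := mul_le_mul_of_nonneg_right h1' hn0.le
            linarith
          have h17 : (η * n) * 1 ≤ (η * n) * Real.log n :=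
            mul_le_mul_of_nonneg_left h1 (by positivity)
          linarith
        exact le_of_mul_le_mul_right h15 hl0
      have hNn : N ≤ n := hNη.trans (by nlinarith)
      refine ⟨hNη, ?_, Real.log_le_log hN0 hNn, ?_⟩
      · have h18 : Real.log ((n : ℝ) ^ (1 - η)) ≤ Real.log N :=
          Real.log_le_log (by positivity) h12
        rwa [Real.log_rpow hn0] at h18
      · have : 0 ≤ η * n := by positivity
        linarith
  obtain ⟨n₀, hn₀⟩ := eventually_atTop.mp hall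
  exact ⟨max 1 n₀, le_max_left _ _, fun n hn => hn₀ n ((le_max_right _ _).trans hn)⟩

lemma explicit_hR {n l N k z t θ σ η v : ℝ} (hk : 1 ≤ k) (hη0 : 0 < η)
    (hn0 : 0 < n) (hσ : 0 < σ)
    (hηs : η * (22 * k ^ 2 + σ * k) ≤ σ * ((k + 1) * (1 - θ) - 1) - k)
    (hlogk : Real.log k ≤ k) (hv : v ≤ η * n)
    (ht : t ≤ k * (n + v)) (hN1 : 1 ≤ N) (hN : σ * n ≤ N * l) (hNη : N ≤ η * n)
    (hlogN1 : (1 - η) * l ≤ Real.log N) (hz : 0 < z) (hzv : z ≤ v)
    (hlogz : Real.log z ≤ θ * l) :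
    t + N * Real.log N + (N + 1) * (k * Real.log k) + N * (6 * k) + k + (k + 1) * (N + 1) +
      (k + 1) * N * (Real.log (z * (1 + k)) + 1 - Real.log ((k + 1) * N)) + z * (1 + k) ≤ -1 := by
  have hlogprod : Real.log ((k + 1) * N) = Real.log (k + 1) + Real.log N :=
    Real.log_mul (by linarith) (by linarith)
  have hlogzk : Real.log (z * (1 + k)) = Real.log z + Real.log (k + 1) := by
    rw [Real.log_mul hz.ne' (by linarith), add_comm (1 : ℝ) k]
  have hlogk0 : 0 ≤ Real.log k := Real.log_nonneg hk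
  rw [hlogzk, hlogprod]
  have hN0 : 0 ≤ N := by linarith
  have hkN : 0 ≤ k * N := by positivity
  -- reduce to `η n`
  have h1 : k * Real.log k ≤ k ^ 2 := by
    have := mul_le_mul_of_nonneg_left hlogk (by linarith : (0 : ℝ) ≤ k)
    nlinarith
  have h1' : (N + 1) * (k * Real.log k) ≤ (2 * N) * k ^ 2 :=
    mul_le_mul (by linarith) h1 (by positivity) (by linarith)
  have hkk : k ≤ k ^ 2 := by nlinarith
  have h1kk : 1 ≤ k ^ 2 := by nlinarith
  have h2 : k * N ≤ k ^ 2 * N := mul_le_mul_of_nonneg_right hkk hN0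
  have h3 : k * 1 ≤ k * N := mul_le_mul_of_nonneg_left hN1 (by linarith)
  have h4 : 1 * N ≤ k * N := mul_le_mul_of_nonneg_right hk hN0
  have h5 : k ^ 2 * N ≤ k ^ 2 * (η * n) := mul_le_mul_of_nonneg_left hNη (by positivity)
  have h6 : k * v ≤ k * (η * n) := mul_le_mul_of_nonneg_left hv (by linarith)
  have h6' : k * (η * n) ≤ k ^ 2 * (η * n) := mul_le_mul_of_nonneg_right hkk (by positivity)
  have h7 : z * (1 + k) ≤ (η * n) * (2 * k) :=
    mul_le_mul (hzv.trans hv) (by linarith) (by linarith) (by positivity)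
  have h8 : (k * N) * ((1 - η) * l) ≤ (k * N) * Real.log N :=
    mul_le_mul_of_nonneg_left hlogN1 hkN
  have h9 : ((k + 1) * N) * Real.log z ≤ ((k + 1) * N) * (θ * l) :=
    mul_le_mul_of_nonneg_left hlogz (by positivity)
  -- main term
  have hK : 0 ≤ ((k + 1) * (1 - θ) - 1) - k * η := by
    have h10 : 0 ≤ η * (22 * k ^ 2) := by positivity
    have h11 : 0 ≤ σ * (((k + 1) * (1 - θ) - 1) - k * η) := by nlinarith
    exact nonneg_of_mul_nonneg_right h11 hσ
  have h12 : (σ * n) * (((k + 1) * (1 - θ) - 1) - k * η) ≤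
      (N * l) * (((k + 1) * (1 - θ) - 1) - k * η) := mul_le_mul_of_nonneg_right hN hK
  have h13 : (η * (22 * k ^ 2 + σ * k)) * n ≤ (σ * ((k + 1) * (1 - θ) - 1) - k) * n :=
    mul_le_mul_of_nonneg_right hηs hn0.le
  have h14 : 1 * (η * n) ≤ k ^ 2 * (η * n) := mul_le_mul_of_nonneg_right h1kk (by positivity)
  -- LHS
  have hL : t + N * Real.log N + (N + 1) * (k * Real.log k) + N * (6 * k) + k +
      (k + 1) * (N + 1) + (k + 1) * N * (Real.log z + Real.log (k + 1) + 1 -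
        (Real.log (k + 1) + Real.log N)) + z * (1 + k) ≤
      k * n + k * v - (k * N) * Real.log N + ((k + 1) * N) * Real.log z + 2 * N * k ^ 2 +
        13 * (k * N) + 2 * (k * (η * n)) := by
    nlinarith
  refine hL.trans ?_
  have h15 : k * n + k * v - (k * N) * Real.log N + ((k + 1) * N) * Real.log z +
      2 * N * k ^ 2 + 13 * (k * N) + 2 * (k * (η * n)) ≤
      k * n - (N * l) * (((k + 1) * (1 - θ) - 1) - k * η) + 18 * (k ^ 2 * (η * n)) := by
    nlinarith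
  refine h15.trans ?_
  nlinarith

lemma explicit_exponent {n l N k z σ η v c : ℝ} (hk : 1 ≤ k) (hη0 : 0 < η)
    (hn0 : 0 < n) (hηs : η * (22 * k ^ 2) ≤ c - (k - 1) - σ)
    (hlogk : Real.log k ≤ k)
    (hv : v ≤ η * n) (hηn : 1 ≤ η * n)
    (hN1 : 1 ≤ N) (hN : N * l ≤ (σ + η) * n) (hNη : N ≤ η * n)
    (hlogN2 : Real.log N ≤ l) (hz : z ≤ v) :
    (N * Real.log N + z + k * Real.log k + N * k + N * (6 * k) +
      (k + 1) * (N + 1)) + (3 * k + 1) + (k - 1) * (n + v + 1) < c * n := by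
  have hN0 : 0 ≤ N := by linarith
  have hkN : 0 ≤ k * N := by positivity
  have h1 : k * Real.log k ≤ k ^ 2 := by
    have := mul_le_mul_of_nonneg_left hlogk (by linarith : (0 : ℝ) ≤ k)
    nlinarith
  have hkk : k ≤ k ^ 2 := by nlinarith
  have h1kk : 1 ≤ k ^ 2 := by nlinarith
  have h2 : k * N ≤ k ^ 2 * N := mul_le_mul_of_nonneg_right hkk hN0
  have h3 : k * 1 ≤ k * N := mul_le_mul_of_nonneg_left hN1 (by linarith)
  have h4 : 1 * N ≤ k * N := mul_le_mul_of_nonneg_right hk hN0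
  have h5 : k ^ 2 * N ≤ k ^ 2 * (η * n) := mul_le_mul_of_nonneg_left hNη (by positivity)
  have h6 : k ^ 2 * 1 ≤ k ^ 2 * (η * n) := mul_le_mul_of_nonneg_left hηn (by positivity)
  have h7 : 1 * (η * n) ≤ k ^ 2 * (η * n) := mul_le_mul_of_nonneg_right h1kk (by positivity)
  have h7' : k * (η * n) ≤ k ^ 2 * (η * n) := mul_le_mul_of_nonneg_right hkk (by positivity)
  have h8 : N * Real.log N ≤ N * l := mul_le_mul_of_nonneg_left hlogN2 hN0
  have h12 : (k - 1) * (v + 1) ≤ (k - 1) * (2 * (η * n)) :=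
    mul_le_mul_of_nonneg_left (by linarith) (by linarith)
  have h13 : (η * (22 * k ^ 2)) * n ≤ (c - (k - 1) - σ) * n :=
    mul_le_mul_of_nonneg_right hηs hn0.le
  have h14 : 0 < η * n := by positivity
  have hA : (N * Real.log N + z + k * Real.log k + N * k + N * (6 * k) +
      (k + 1) * (N + 1)) + (3 * k + 1) + (k - 1) * (n + v + 1) ≤
      (N * l) + v + 9 * (k * N) + k ^ 2 + (k + 1) + 4 * k ^ 2 + (k - 1) * n +
        (k - 1) * (2 * (η * n)) := by
    nlinarith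
  refine hA.trans_lt ?_
  nlinarith

/-- **Explicit gap principle.** -/
theorem explicit_pair (k : ℕ) (hk : 1 ≤ k) (θ σ c : ℝ) (hθ : θ < 1) (hσ : 0 < σ)
    (h1 : (k : ℝ) < σ * ((k + 1) * (1 - θ) - 1)) (h2 : σ + (k - 1) < c) :
    ∃ n₀ : ℕ, 1 ≤ n₀ ∧ ∀ n : ℕ, n₀ ≤ n → ∀ t₁ t₂ : ℕ, n ≤ t₁ → t₁ < t₂ →
      (t₂ : ℝ) ≤ n + (n : ℝ) ^ θ →
      distToNearestInt (Real.exp t₁) ≤ Real.exp (-(c * t₁)) →
      distToNearestInt (Real.exp t₂) ≤ Real.exp (-(c * t₂)) → False := by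
  have hkR : (1 : ℝ) ≤ k := by exact_mod_cast hk
  have hc0 : 0 < c := by linarith
  obtain ⟨η, hη0, hη1, hηs1, hηs2⟩ : ∃ η : ℝ, 0 < η ∧ η ≤ 1 ∧
      η * (22 * (k : ℝ) ^ 2 + σ * k) ≤ σ * ((k + 1) * (1 - θ) - 1) - k ∧
      η * (22 * (k : ℝ) ^ 2) ≤ c - (k - 1) - σ := by
    have hA : 0 < 22 * (k : ℝ) ^ 2 + σ * k := by positivity
    have hB : 0 < 22 * (k : ℝ) ^ 2 := by positivity
    refine ⟨min 1 (min ((σ * ((k + 1) * (1 - θ) - 1) - k) / (22 * (k : ℝ) ^ 2 + σ * k))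
      ((c - (k - 1) - σ) / (22 * (k : ℝ) ^ 2))), ?_, min_le_left _ _, ?_, ?_⟩
    · refine lt_min one_pos (lt_min (div_pos (by linarith) hA) (div_pos (by linarith) hB))
    · rw [← le_div_iff₀ hA]
      exact (min_le_right _ _).trans (min_le_left _ _)
    · rw [← le_div_iff₀ hB]
      exact (min_le_right _ _).trans (min_le_right _ _)
  obtain ⟨n₀, hn₀1, hn₀⟩ := asym σ η θ k hσ hη0 hη1 hθ
  refine ⟨n₀, hn₀1, ?_⟩
  intro n hn t₁ t₂ ht1 ht12 ht2 hε1 hε2
  obtain ⟨hl1, hv, hηn, hk2n, hNall⟩ := hn₀ n hn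
  set l := Real.log n with hldef
  set v := (n : ℝ) ^ θ with hvdef
  have hn1 : 1 ≤ n := hn₀1.trans hn
  have hn0 : (0 : ℝ) < n := by exact_mod_cast hn1
  have hl0 : 0 < l := by linarith
  have hv0 : 0 < v := by positivity
  have ht1R : (n : ℝ) ≤ t₁ := by exact_mod_cast ht1
  have ht12R : (t₁ : ℝ) < t₂ := by exact_mod_cast ht12
  obtain ⟨z, hz⟩ : ∃ z : ℕ, t₂ = t₁ + z := ⟨t₂ - t₁, by omega⟩
  have hz1 : 1 ≤ z := by omega
  have hzR : (t₂ : ℝ) - t₁ = z := by
    rw [hz]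
    push_cast
    ring
  have hz0 : (0 : ℝ) < z := by exact_mod_cast hz1
  have hzv : (z : ℝ) ≤ v := by linarith
  have hlogz : Real.log z ≤ θ * l := by
    have h3 := Real.log_le_log hz0 hzv
    rwa [hvdef, Real.log_rpow hn0] at h3
  set y := Nat.sqrt n + 1 with hy
  have hy1 : n < y * y := Nat.lt_succ_sqrt n
  have hy1R : (n : ℝ) < y * y := by exact_mod_cast hy1
  have hy0 : (0 : ℝ) < y := by
    rw [hy]
    positivity
  have hy2 : 4 * (y : ℝ) ≤ 8 * Real.sqrt n := by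
    have h3 : (Nat.sqrt n : ℝ) ≤ Real.sqrt n := Real.nat_sqrt_le_real_sqrt
    have h4 : (1 : ℝ) ≤ Real.sqrt n := by
      rw [Real.one_le_sqrt]
      exact_mod_cast hn1
    rw [hy]
    push_cast
    linarith
  have hky : k ≤ y := by
    have h3 : (k : ℝ) ≤ y := by
      apply le_of_sq_le_sq _ hy0.le
      calc (k : ℝ) ^ 2 ≤ n := hk2n
        _ ≤ y * y := hy1R.le
        _ = (y : ℝ) ^ 2 := by ring
    exact_mod_cast h3
  have hvn : v ≤ n := by
    have h3 : (n : ℝ) ^ θ ≤ (n : ℝ) ^ (1 : ℝ) :=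
      Real.rpow_le_rpow_of_exponent_le (by exact_mod_cast hn1) hθ.le
    rwa [Real.rpow_one] at h3
  have hzn2 : z ≤ y * y := by
    have h3 : (z : ℝ) ≤ y * y := by linarith
    exact_mod_cast h3
  obtain ⟨p', N, hp', hpN, hN1', hyp, hpz, hN1, hN2⟩ := exists_N
    (X := σ * n / l) (by positivity) (y := y) (z := z) (by omega) hz1 hzn2
  obtain ⟨hNη, hlogN1, hlogN2, hNl⟩ := hNall N hN1 (hN2.trans (by linarith))
  have hNl' : σ * (n : ℝ) ≤ N * l := by rwa [div_le_iff₀ hl0] at hN1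
  have hN0 : (0 : ℝ) < N := by exact_mod_cast hN1'
  have hNone : (1 : ℝ) ≤ N := by exact_mod_cast hN1'
  have hND : ¬ p' ∣ k.factorial := by
    intro hdvd
    exact absurd (hp'.dvd_factorial.mp hdvd) (by omega)
  have hNL : ¬ p' ∣ Nat.lcmUpto k := fun hdvd => hND (hdvd.trans (Nat.lcmUpto_dvd_factorial k))
  have hlogk : Real.log k ≤ k := (Real.log_le_sub_one_of_pos (by linarith)).trans (by linarith)
  have hfac : ((k.factorial : ℕ) : ℝ) ≤ Real.exp (k * Real.log k) := factorial_le_exp hk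
  have htwo : (2 : ℝ) ≤ Real.exp 1 := by
    have := Real.add_one_le_exp (1 : ℝ)
    linarith
  have h2k : ((2 ^ k : ℕ) : ℝ) ≤ Real.exp k := by
    push_cast
    calc (2 : ℝ) ^ k ≤ (Real.exp 1) ^ k := pow_le_pow_left₀ (by norm_num) htwo _
      _ = Real.exp k := by rw [← Real.exp_nat_mul, mul_one]
  -- the integers
  set q := round (Real.exp (t₁ : ℝ)) with hq
  set p := round (Real.exp (t₂ : ℝ)) with hp
  set M := Real.exp (n + v + 1) with hM
  have hM0 : 0 < M := Real.exp_pos _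
  have hround : ∀ t : ℕ, (t : ℝ) ≤ n + v → |Real.exp (t : ℝ)| ≤ M ∧
      |((round (Real.exp (t : ℝ)) : ℤ) : ℝ)| ≤ M ∧ round (Real.exp (t : ℝ)) ≠ 0 := by
    intro t ht
    have h3 : Real.exp (t : ℝ) ≤ Real.exp (n + v) := Real.exp_le_exp.mpr ht
    have h4 : (1 : ℝ) ≤ Real.exp (t : ℝ) := Real.one_le_exp (by positivity)
    have h5 : |Real.exp (t : ℝ) - round (Real.exp (t : ℝ))| ≤ 1 / 2 := abs_sub_round _
    have h6 := abs_le.mp h5
    have h7 : Real.exp (n + v + 1) = Real.exp (n + v) * Real.exp 1 := Real.exp_add _ _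
    have h8 : Real.exp (n + v) * 2 ≤ M := by
      rw [hM, h7]
      exact mul_le_mul_of_nonneg_left htwo (Real.exp_pos _).le
    have h9 : (1 : ℝ) ≤ Real.exp (n + v) := h4.trans h3
    refine ⟨?_, ?_, ?_⟩
    · rw [abs_of_pos (Real.exp_pos _)]
      linarith
    · rw [abs_le]
      constructor <;> linarith [h6.1, h6.2]
    · intro h0
      rw [h0] at h6
      push_cast at h6
      linarith [h6.2]
  obtain ⟨ha1, ha2, ha3⟩ := hround t₁ (by linarith)
  obtain ⟨hb1, hb2, hb3⟩ := hround t₂ ht2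
  rw [← hq] at ha2 ha3
  rw [← hp] at hb2 hb3
  set ε := Real.exp (-(c * n)) with hε
  have hqε : |Real.exp (t₁ : ℝ) - q| ≤ ε := by
    refine le_trans hε1 (Real.exp_le_exp.mpr ?_)
    have := mul_le_mul_of_nonneg_left ht1R hc0.le
    linarith
  have hpε : |Real.exp (t₂ : ℝ) - p| ≤ ε := by
    refine le_trans hε2 (Real.exp_le_exp.mpr ?_)
    have := mul_le_mul_of_nonneg_left (ht1R.trans ht12R.le) hc0.le
    linarith
  have hε0 : 0 ≤ ε := (abs_nonneg _).trans hqε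
  set x : Fin (k + 1) → ℤ := fun j => q ^ (k - (j : ℕ)) * p ^ (j : ℕ) with hx
  have hx0 : x ≠ 0 := by
    intro h0
    have h3 : x 0 = 0 := by rw [h0]; rfl
    simp only [hx] at h3
    simp only [Fin.val_zero, tsub_zero, pow_zero, mul_one] at h3
    exact ha3 (pow_eq_zero_iff (by omega) |>.mp h3)
  have hxε : ∀ j : Fin (k + 1), |Real.exp ((k : ℝ) * t₁ + (nat0 k j : ℝ) * z) - x j| ≤
      k * M ^ k * ε / M := by
    intro j
    have hj : (j : ℕ) ≤ k := Nat.lt_succ_iff.mp j.isLt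
    have h3 : Real.exp ((k : ℝ) * t₁ + (nat0 k j : ℝ) * z) =
        Real.exp (t₁ : ℝ) ^ (k - (j : ℕ)) * Real.exp (t₂ : ℝ) ^ (j : ℕ) := by
      rw [← Real.exp_nat_mul, ← Real.exp_nat_mul, ← Real.exp_add]
      congr 1
      unfold nat0
      rw [Nat.cast_sub hj, ← hzR]
      push_cast
      ring
    have h4 := prod_pow_sub_le' ha1 ha2 hb1 hb2 hqε hpε (k - (j : ℕ)) (j : ℕ)
    rw [Nat.sub_add_cancel hj] at h4
    rw [le_div_iff₀ hM0, mul_comm]
    rw [h3]
    simp only [hx]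
    push_cast
    exact h4
  have hkey := key (k := k) (N := N) (p := p') (z := z) (h := k) (k.factorial) (Nat.lcmUpto k)
    (2 ^ k) (k * Real.log k) (6 * k) k (k * t₁) (k * M ^ k * ε / M) (nat0 k) (nat0_inj k)
    (fun j => by unfold nat0; positivity)
    (fun j => by
      unfold nat0
      exact_mod_cast Nat.lt_succ_iff.mp j.isLt) hz1
    (fun j => dp_nat0_dvd k j) (fun j l hjl => diff_nat0_dvd k j l hjl)
    (fun j => le_two_pow_dp_nat0 k j)
    hfac (lcmUpto_le_exp k) h2k hp' hpN hN1' hpz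
    hND hNL x hx0 hxε
    (explicit_hR (n := (n : ℝ)) (l := l) (N := (N : ℝ)) (k := (k : ℝ))
      (z := (z : ℝ)) (t := (k : ℝ) * t₁) (θ := θ) (σ := σ) (η := η) (v := v) hkR hη0 hn0 hσ
      hηs1 hlogk hv
      (mul_le_mul_of_nonneg_left (by linarith) (by linarith)) hNone hNl' hNη hlogN1 hz0 hzv
      hlogz)
  have hexp := explicit_exponent (n := (n : ℝ)) (l := l) (N := (N : ℝ))
    (k := (k : ℝ)) (z := (z : ℝ)) (σ := σ) (η := η) (v := v) (c := c) hkR hη0 hn0
    hηs2 hlogk hv hηn hNone hNl hNη hlogN2 hzv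
  set E := (N : ℝ) * Real.log N + z + k * Real.log k + N * k + N * (6 * k) +
    (k + 1) * (N + 1) with hE
  have h2k' : 2 * ((k : ℝ) + 1) ≤ Real.exp (2 * k + 1) := by
    have := Real.add_one_le_exp (2 * (k : ℝ) + 1)
    linarith
  have hkexp : (k : ℝ) ≤ Real.exp k := by
    have := Real.add_one_le_exp (k : ℝ)
    linarith
  have hMk : M ^ k / M = Real.exp ((k - 1) * (n + v + 1)) := by
    rw [hM, ← Real.exp_nat_mul, ← Real.exp_sub]
    congr 1
    ring
  have h8 : (1 : ℝ) < 1 := by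
    calc (1 : ℝ) ≤ 2 * (k + 1) * (k * M ^ k * ε / M) * Real.exp E := hkey
      _ = (2 * (k + 1)) * (k * (M ^ k / M)) * ε * Real.exp E := by ring
      _ ≤ Real.exp (2 * k + 1) * (Real.exp k * (M ^ k / M)) * ε * Real.exp E := by gcongr
      _ = Real.exp (E + (3 * k + 1) + (k - 1) * (n + v + 1) - c * n) := by
          rw [hMk, hε, ← Real.exp_add, ← Real.exp_add, ← Real.exp_add, ← Real.exp_add]
          congr 1
          ring
      _ < Real.exp 0 := Real.exp_lt_exp.mpr (by linarith)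
      _ = 1 := Real.exp_zero
  exact lt_irrefl _ h8

end Pool.Agent.ExpPowI
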