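import Pool.Agent.ExpPowI.Remainder

/-! Integer linear forms in exponentials at arbitrary integer nodes, nonsingular modulo a prime. -/

namespace Pool.Agent.ExpPowI

open PowerSeries Finset

section

variable {ι : Type*} [Fintype ι] [DecidableEq ι]

/-- product of differences -/
def dp (a : ι → ℤ) (j : ι) : ℤ := ∏ l ∈ univ.erase j, (a j - a l)

lemma int_coeff (a : ι → ℤ) (ha : Function.Injective a) (n : ι → ℕ) (j : ι) (D L : ℤ) (N : ℕ)
    (hn : ∀ l, n l ≤ N + 1) (hD : dp a j ∣ D) (hL : ∀ l, l ≠ j → (a j - a l) ∣ L) (m : ℕ)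
    (hm : m ≤ N) :
    ∃ c : ℤ, (c : ℚ) = (D : ℚ) ^ (N + 1) * (L : ℚ) ^ N * coeff m (F (fun l => (a l : ℚ)) n j) := by
  have hne : ∀ l ∈ univ.erase j, a j - a l ≠ 0 := fun l hl =>
    sub_ne_zero.mpr (fun h => (ne_of_mem_erase hl) (ha h.symm))
  have h1 : IS (L : ℚ) (∏ l ∈ univ.erase j, (C ((a j - a l : ℤ) : ℚ) *
      gi ((a j - a l : ℤ) : ℚ)) ^ n l) := by
    apply IS.prod
    intro l hl
    exact (IS.gi (hne l hl) (hL l (ne_of_mem_erase hl))).pow (n l)
  obtain ⟨c, hc⟩ := h1 m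
  have h2 : (∏ l ∈ univ.erase j, (C ((a j - a l : ℤ) : ℚ) * gi ((a j - a l : ℤ) : ℚ)) ^ n l) =
      C (((∏ l ∈ univ.erase j, (a j - a l) ^ n l : ℤ)) : ℚ) * F (fun l => (a l : ℚ)) n j := by
    unfold F
    rw [Int.cast_prod, map_prod, ← prod_mul_distrib]
    refine prod_congr rfl (fun l _ => ?_)
    rw [mul_pow]
    push_cast
    rw [map_pow]
  rw [h2, coeff_C_mul] at hc
  have h3 : (∏ l ∈ univ.erase j, (a j - a l) ^ n l : ℤ) ∣ D ^ (N + 1) := by
    refine dvd_trans ?_ (pow_dvd_pow_of_dvd hD (N + 1))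
    unfold dp
    rw [← prod_pow]
    exact prod_dvd_prod_of_dvd _ _ (fun l _ => pow_dvd_pow _ (hn l))
  obtain ⟨e, he⟩ := h3
  refine ⟨e * L ^ (N - m) * c, ?_⟩
  rw [Int.cast_mul, Int.cast_mul, hc]
  have he' : (D : ℚ) ^ (N + 1) = ((∏ l ∈ univ.erase j, (a j - a l) ^ n l : ℤ) : ℚ) * (e : ℚ) := by
    exact_mod_cast he
  have hLN : (L : ℚ) ^ N = (L : ℚ) ^ (N - m) * (L : ℚ) ^ m := by
    rw [← pow_add]
    congr 1
    omega
  rw [he', hLN]
  push_cast
  ring

lemma abs_coeff (a : ι → ℤ) (ha : Function.Injective a) (n : ι → ℕ) (j : ι) (N : ℕ)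
    (hn : ∀ l, N ≤ n l) (m : ℕ) :
    |coeff m (F (fun l => (a l : ℚ)) n j)| * |(dp a j : ℚ)| ^ N ≤
      2 ^ (∑ l ∈ univ.erase j, n l) * 2 ^ m := by
  have hge : ∀ l ∈ univ.erase j, (1 : ℚ) ≤ |(a j : ℚ) - (a l : ℚ)| := by
    intro l hl
    have h1 : a j - a l ≠ 0 := sub_ne_zero.mpr (fun h => (ne_of_mem_erase hl) (ha h.symm))
    have h2 : (1 : ℤ) ≤ |a j - a l| := Int.one_le_abs h1
    exact_mod_cast h2
  have h1 := Bd.prod (univ.erase j) (fun l => (a j : ℚ) - (a l : ℚ)) n hge m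
  have h2 : (∏ l ∈ univ.erase j, (2 * |(a j : ℚ) - (a l : ℚ)|⁻¹) ^ n l) * |(dp a j : ℚ)| ^ N ≤
      2 ^ (∑ l ∈ univ.erase j, n l) := by
    unfold dp
    rw [Int.cast_prod, abs_prod, ← prod_pow, ← prod_mul_distrib, ← prod_pow_eq_pow_sum]
    apply prod_le_prod
    · intro l _
      positivity
    · intro l hl
      have hg := hge l hl
      have hpos : (0 : ℚ) < |(a j : ℚ) - (a l : ℚ)| := lt_of_lt_of_le one_pos hg
      push_cast
      rw [mul_pow, mul_assoc, inv_pow]
      calc 2 ^ n l * ((|(a j : ℚ) - (a l : ℚ)| ^ n l)⁻¹ * |(a j : ℚ) - (a l : ℚ)| ^ N)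
          ≤ 2 ^ n l * ((|(a j : ℚ) - (a l : ℚ)| ^ n l)⁻¹ * |(a j : ℚ) - (a l : ℚ)| ^ n l) := by
            apply mul_le_mul_of_nonneg_left _ (by positivity)
            apply mul_le_mul_of_nonneg_left _ (by positivity)
            exact pow_le_pow_right₀ hg (hn l)
        _ = 2 ^ n l := by
            rw [inv_mul_cancel₀ (by positivity), mul_one]
  calc |coeff m (F (fun l => (a l : ℚ)) n j)| * |(dp a j : ℚ)| ^ N
      ≤ ((∏ l ∈ univ.erase j, (2 * |(a j : ℚ) - (a l : ℚ)|⁻¹) ^ n l) * 2 ^ m) *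
          |(dp a j : ℚ)| ^ N := mul_le_mul_of_nonneg_right h1 (by positivity)
    _ = ((∏ l ∈ univ.erase j, (2 * |(a j : ℚ) - (a l : ℚ)|⁻¹) ^ n l) * |(dp a j : ℚ)| ^ N) *
          2 ^ m := by ring
    _ ≤ _ := mul_le_mul_of_nonneg_right h2 (by positivity)

lemma dp_ne_zero (a : ι → ℤ) (ha : Function.Injective a) (j : ι) : dp a j ≠ 0 := by
  unfold dp
  exact prod_ne_zero_iff.mpr (fun l hl =>
    sub_ne_zero.mpr (fun h => (ne_of_mem_erase hl) (ha h.symm)))

end

/-- multiplicities: `N + 1` at `i`, `N` elsewhere. -/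
def mul1 {k : ℕ} (N : ℕ) (i : Fin (k + 1)) : Fin (k + 1) → ℕ := fun j => if j = i then N + 1 else N

lemma mul1_le {k : ℕ} (N : ℕ) (i j : Fin (k + 1)) : mul1 N i j ≤ N + 1 := by
  unfold mul1; split_ifs <;> omega

lemma le_mul1 {k : ℕ} (N : ℕ) (i j : Fin (k + 1)) : N ≤ mul1 N i j := by
  unfold mul1; split_ifs <;> omega

lemma sum_mul1 {k : ℕ} (N : ℕ) (i : Fin (k + 1)) : ∑ j, mul1 N i j = (k + 1) * N + 1 := by
  unfold mul1
  have : ∀ j : Fin (k + 1), (if j = i then N + 1 else N) = N + (if j = i then 1 else 0) := by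
    intro j; split_ifs <;> omega
  simp only [this, sum_add_distrib, sum_ite_eq', mem_univ, if_true, sum_const, card_univ,
    Fintype.card_fin, smul_eq_mul]

/-- **The integer forms.** -/
theorem forms {k N p z h : ℕ} (D L G : ℕ) (a : Fin (k + 1) → ℤ) (ha : Function.Injective a)
    (ha0 : ∀ j, 0 ≤ a j) (hah : ∀ j, a j ≤ h)
    (hD : ∀ j, dp a j ∣ (D : ℤ)) (hL : ∀ j l, l ≠ j → (a j - a l) ∣ (L : ℤ))
    (hG : ∀ j, (D : ℚ) ≤ G * |(dp a j : ℚ)|)
    (hp : p.Prime) (hpN : p ∣ N) (hNpos : 0 < N) (hpz : ¬ p ∣ z) (hpD : ¬ p ∣ D)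
    (hpL : ¬ p ∣ L) (x : Fin (k + 1) → ℤ) (hx : x ≠ 0) :
    ∃ B : Fin (k + 1) → ℤ, (∑ j, B j * x j ≠ 0) ∧
      (∀ j, |(B j : ℝ)| ≤ N.factorial * Real.exp z * D * (G : ℝ) ^ N * (L : ℝ) ^ N *
        2 ^ ((k + 1) * (N + 1))) ∧
      |∑ j, (B j : ℝ) * Real.exp ((a j : ℝ) * z)| ≤
        N.factorial * (D : ℝ) ^ (N + 1) * (L : ℝ) ^ N * ((k + 1) * 2 ^ ((k + 1) * (N + 1)) *
          (((z : ℝ) * (1 + h)) ^ ((k + 1) * N) / ((k + 1) * N).factorial) *
          Real.exp ((z : ℝ) * (1 + h))) := by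
  classical
  set q : Fin (k + 1) → ℚ := fun l => (a l : ℚ) with hq
  have hqi : Function.Injective q := fun u v huv => ha (by
    simp only [hq] at huv
    exact_mod_cast huv)
  -- integer coefficients
  have hc : ∀ i j : Fin (k + 1), ∀ m : ℕ, ∃ c : ℤ, m ≤ N →
      (c : ℚ) = (D : ℚ) ^ (N + 1) * (L : ℚ) ^ N * coeff m (F q (mul1 N i) j) := by
    intro i j m
    by_cases hm : m ≤ N
    · obtain ⟨c, hc⟩ := int_coeff a ha (mul1 N i) j (D : ℤ) (L : ℤ) N (mul1_le N i) (hD j)
        (fun l hl => hL j l hl) m hm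
      exact ⟨c, fun _ => by rw [hc]; push_cast; rfl⟩
    · exact ⟨0, fun h => absurd h hm⟩
  choose c hc using hc
  set B : Matrix (Fin (k + 1)) (Fin (k + 1)) ℤ := Matrix.of (fun i j =>
    ∑ s ∈ range (mul1 N i j), ((N.factorial / s.factorial : ℕ) : ℤ) * (z : ℤ) ^ s *
      c i j (mul1 N i j - 1 - s)) with hB
  have hBv : ∀ i j, (B i j : ℝ) = N.factorial * (D : ℝ) ^ (N + 1) * (L : ℝ) ^ N *
      Ac q (mul1 N i) z j := by
    intro i j
    have hle := mul1_le N i j
    simp only [hB, Matrix.of_apply, Int.cast_sum]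
    unfold Ac
    rw [mul_sum]
    refine sum_congr rfl (fun s hs => ?_)
    have hs' := mem_range.mp hs
    have hcv := hc i j (mul1 N i j - 1 - s) (by omega)
    have hcv' : (c i j (mul1 N i j - 1 - s) : ℝ) = (D : ℝ) ^ (N + 1) * (L : ℝ) ^ N *
        ((coeff (mul1 N i j - 1 - s) (F q (mul1 N i) j) : ℚ) : ℝ) := by exact_mod_cast hcv
    have hdiv : ((N.factorial / s.factorial : ℕ) : ℝ) = N.factorial / s.factorial := by
      rw [Nat.cast_div (Nat.factorial_dvd_factorial (by omega))]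
      exact_mod_cast s.factorial_ne_zero
    rw [Int.cast_mul, Int.cast_mul, Int.cast_pow, Int.cast_natCast, Int.cast_natCast, hcv', hdiv]
    ring
  -- nonsingular modulo p
  have hdet : B.det ≠ 0 := by
    intro h0
    have : Fact p.Prime := ⟨hp⟩
    have h1 : ((B.det : ℤ) : ZMod p) = 0 := by rw [h0]; simp
    have h2 : ((B.det : ℤ) : ZMod p) = (B.map (Int.cast : ℤ → ZMod p)).det := by
      have := RingHom.map_det (Int.castRingHom (ZMod p)) B
      simpa using this
    have hoff : ∀ i j, j ≠ i → ((B i j : ℤ) : ZMod p) = 0 := by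
      intro i j hij
      rw [ZMod.intCast_zmod_eq_zero_iff_dvd]
      simp only [hB, Matrix.of_apply]
      apply Finset.dvd_sum
      intro s hs
      have hm : mul1 N i j = N := by simp [mul1, hij]
      rw [hm, mem_range] at hs
      have h3 : p ∣ N.factorial / s.factorial := by
        refine hpN.trans ?_
        obtain ⟨M, rfl⟩ : ∃ M, N = M + 1 := ⟨N - 1, by omega⟩
        rw [Nat.factorial_succ, Nat.mul_div_assoc _ (Nat.factorial_dvd_factorial (by omega))]
        exact dvd_mul_right _ _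
      exact Dvd.dvd.mul_right (Dvd.dvd.mul_right (by exact_mod_cast h3) _) _
    have hdiag : ∀ i, ((B i i : ℤ) : ZMod p) ≠ 0 := by
      intro i h3
      rw [ZMod.intCast_zmod_eq_zero_iff_dvd] at h3
      have hm : mul1 N i i = N + 1 := by simp [mul1]
      simp only [hB, Matrix.of_apply, hm, sum_range_succ] at h3
      have h4 : (p : ℤ) ∣ ∑ s ∈ range N, ((N.factorial / s.factorial : ℕ) : ℤ) * (z : ℤ) ^ s *
          c i i (N + 1 - 1 - s) := by
        apply Finset.dvd_sum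
        intro s hs
        rw [mem_range] at hs
        have h3 : p ∣ N.factorial / s.factorial := by
          refine hpN.trans ?_
          obtain ⟨M, rfl⟩ : ∃ M, N = M + 1 := ⟨N - 1, by omega⟩
          rw [Nat.factorial_succ, Nat.mul_div_assoc _ (Nat.factorial_dvd_factorial (by omega))]
          exact dvd_mul_right _ _
        exact Dvd.dvd.mul_right (Dvd.dvd.mul_right (by exact_mod_cast h3) _) _
      have h5 := (dvd_add_right h4).mp h3
      have h6 : (N + 1 - 1 - N) = 0 := by omega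
      rw [h6, Nat.div_self (Nat.factorial_pos N)] at h5
      have hpp : Prime (p : ℤ) := Nat.prime_iff_prime_int.mp hp
      have h7 : (p : ℤ) ∣ (z : ℤ) ^ N * c i i 0 := by simpa using h5
      have h8 : (p : ℤ) ∣ c i i 0 := by
        rcases hpp.dvd_or_dvd h7 with h | h
        · exact absurd (by exact_mod_cast hpp.dvd_of_dvd_pow h) hpz
        · exact h
      -- c i i 0 divides D^(N+1) L^N
      have h9 : c i i 0 * ∏ l ∈ univ.erase i, (a i - a l) ^ (mul1 N i l) =
          (D : ℤ) ^ (N + 1) * (L : ℤ) ^ N := by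
        have h10 := hc i i 0 (Nat.zero_le N)
        have h11 : coeff 0 (F q (mul1 N i) i) *
            (∏ l ∈ univ.erase i, (q i - q l) ^ (mul1 N i l)) = 1 := by
          unfold F
          rw [coeff_zero_eq_constantCoeff_apply, map_prod, ← prod_mul_distrib]
          apply prod_eq_one
          intro l hl
          have hne : q i - q l ≠ 0 :=
            sub_ne_zero.mpr (fun h => (ne_of_mem_erase hl) (hqi h.symm))
          rw [map_pow, ← mul_pow, ← coeff_zero_eq_constantCoeff_apply, coeff_gi]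
          simp [hne]
        have h12 : (c i i 0 : ℚ) * ∏ l ∈ univ.erase i, (q i - q l) ^ (mul1 N i l) =
            (D : ℚ) ^ (N + 1) * (L : ℚ) ^ N := by
          rw [h10, mul_assoc, h11, mul_one]
        have h13 : ((c i i 0 * ∏ l ∈ univ.erase i, (a i - a l) ^ (mul1 N i l) : ℤ) : ℚ) =
            (((D : ℤ) ^ (N + 1) * (L : ℤ) ^ N : ℤ) : ℚ) := by
          push_cast
          exact h12
        exact_mod_cast h13
      have h14 : (p : ℤ) ∣ (D : ℤ) ^ (N + 1) * (L : ℤ) ^ N := by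
        rw [← h9]
        exact Dvd.dvd.mul_right h8 _
      rcases hpp.dvd_or_dvd h14 with h | h
      · exact hpD (by exact_mod_cast hpp.dvd_of_dvd_pow h)
      · exact hpL (by exact_mod_cast hpp.dvd_of_dvd_pow h)
    have h3 : B.map (Int.cast : ℤ → ZMod p) = Matrix.diagonal (fun i => ((B i i : ℤ) : ZMod p)) := by
      ext i j
      by_cases hij : i = j
      · subst hij
        simp
      · rw [Matrix.diagonal_apply_ne _ hij]
        exact hoff i j (fun h => hij h.symm)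
    rw [h2, h3, Matrix.det_diagonal, prod_eq_zero_iff] at h1
    obtain ⟨i, -, hi⟩ := h1
    exact hdiag i hi
  have hex : ∃ i, ∑ j, B i j * x j ≠ 0 := by
    by_contra hall
    push Not at hall
    apply hdet
    rw [← Matrix.exists_mulVec_eq_zero_iff]
    refine ⟨x, hx, ?_⟩
    funext i
    exact hall i
  obtain ⟨i, hi⟩ := hex
  -- coefficient bounds
  have hsumle : ∀ j, ∑ l ∈ univ.erase j, mul1 N i l ≤ k * N + 1 := by
    intro j
    have h1 := sum_mul1 N i
    rw [← add_sum_erase _ _ (mem_univ j)] at h1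
    have h2 := le_mul1 N i j
    have h3 : (k + 1) * N = k * N + N := by ring
    omega
  have hdp1 : ∀ j, (1 : ℚ) ≤ |(dp a j : ℚ)| := by
    intro j
    have h2 : (1 : ℤ) ≤ |dp a j| := Int.one_le_abs (dp_ne_zero a ha j)
    exact_mod_cast h2
  have hcb : ∀ j m, m ≤ N → |coeff m (F q (mul1 N i) j)| * |(dp a j : ℚ)| ^ N ≤
      2 ^ ((k + 1) * (N + 1)) := by
    intro j m hm
    refine le_trans (abs_coeff a ha (mul1 N i) j N (le_mul1 N i) m) ?_
    rw [← pow_add]
    apply pow_le_pow_right₀ (by norm_num)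
    have := hsumle j
    have h3 : (k + 1) * (N + 1) = k * N + 1 + N + k := by ring
    omega
  refine ⟨fun j => B i j, hi, ?_, ?_⟩
  · intro j
    have hle := mul1_le N i j
    simp only [hB, Matrix.of_apply, Int.cast_sum]
    refine le_trans (abs_sum_le_sum_abs _ _) ?_
    have h1 : ∀ s ∈ range (mul1 N i j), |((((N.factorial / s.factorial : ℕ) : ℤ) * (z : ℤ) ^ s *
        c i j (mul1 N i j - 1 - s) : ℤ) : ℝ)| ≤ ((z : ℝ) ^ s / s.factorial) *
          (N.factorial * D * (G : ℝ) ^ N * (L : ℝ) ^ N * 2 ^ ((k + 1) * (N + 1))) := by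
      intro s hs
      have hs' := mem_range.mp hs
      have hcv := hc i j (mul1 N i j - 1 - s) (by omega)
      have hb := hcb j (mul1 N i j - 1 - s) (by omega)
      have hcabs : |(c i j (mul1 N i j - 1 - s) : ℚ)| ≤ D * (G : ℚ) ^ N * (L : ℚ) ^ N *
          2 ^ ((k + 1) * (N + 1)) := by
        rw [hcv, abs_mul, abs_mul, abs_pow, abs_pow, Nat.abs_cast, Nat.abs_cast, pow_succ]
        calc (D : ℚ) ^ N * D * (L : ℚ) ^ N * |coeff (mul1 N i j - 1 - s) (F q (mul1 N i) j)|
            ≤ (G * |(dp a j : ℚ)|) ^ N * D * (L : ℚ) ^ N *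
                |coeff (mul1 N i j - 1 - s) (F q (mul1 N i) j)| := by
              have := hG j
              gcongr
          _ = D * (G : ℚ) ^ N * (L : ℚ) ^ N *
                (|coeff (mul1 N i j - 1 - s) (F q (mul1 N i) j)| * |(dp a j : ℚ)| ^ N) := by
              rw [mul_pow]; ring
          _ ≤ _ := by gcongr
      have hcabs' : |(c i j (mul1 N i j - 1 - s) : ℝ)| ≤ D * (G : ℝ) ^ N * (L : ℝ) ^ N *
          2 ^ ((k + 1) * (N + 1)) := by exact_mod_cast hcabs
      have hdiv : ((N.factorial / s.factorial : ℕ) : ℝ) = N.factorial / s.factorial := by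
        rw [Nat.cast_div (Nat.factorial_dvd_factorial (by omega))]
        exact_mod_cast s.factorial_ne_zero
      rw [Int.cast_mul, Int.cast_mul, Int.cast_pow, Int.cast_natCast, Int.cast_natCast,
        abs_mul, abs_mul, abs_pow, Nat.abs_cast z, hdiv,
        abs_of_nonneg (by positivity : (0 : ℝ) ≤ (N.factorial : ℝ) / s.factorial)]
      calc (N.factorial : ℝ) / s.factorial * (z : ℝ) ^ s *
            |(c i j (mul1 N i j - 1 - s) : ℝ)|
          ≤ (N.factorial : ℝ) / s.factorial * (z : ℝ) ^ s * (D * (G : ℝ) ^ N * (L : ℝ) ^ N *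
              2 ^ ((k + 1) * (N + 1))) := by gcongr
        _ = _ := by ring
    refine le_trans (sum_le_sum h1) ?_
    rw [← sum_mul]
    have h2 : ∑ s ∈ range (mul1 N i j), (z : ℝ) ^ s / s.factorial ≤ Real.exp z :=
      Real.sum_le_exp_of_nonneg (by positivity) _
    calc (∑ s ∈ range (mul1 N i j), (z : ℝ) ^ s / s.factorial) *
          (N.factorial * D * (G : ℝ) ^ N * (L : ℝ) ^ N * 2 ^ ((k + 1) * (N + 1)))
        ≤ Real.exp z * (N.factorial * D * (G : ℝ) ^ N * (L : ℝ) ^ N *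
            2 ^ ((k + 1) * (N + 1))) := by gcongr
      _ = _ := by ring
  · have h1 : ∑ j, (B i j : ℝ) * Real.exp ((a j : ℝ) * z) =
        N.factorial * (D : ℝ) ^ (N + 1) * (L : ℝ) ^ N *
          ∑ j, Ac q (mul1 N i) z j * Real.exp ((q j : ℝ) * z) := by
      rw [mul_sum]
      refine sum_congr rfl (fun j _ => ?_)
      rw [hBv]
      simp only [hq, Rat.cast_intCast]
      ring
    rw [h1, abs_mul, abs_of_nonneg (by positivity : (0 : ℝ) ≤
      N.factorial * (D : ℝ) ^ (N + 1) * (L : ℝ) ^ N)]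
    apply mul_le_mul_of_nonneg_left _ (by positivity)
    have hKb : ∀ j m, m < mul1 N i j → |((coeff m (F q (mul1 N i) j) : ℚ) : ℝ)| ≤
        (2 : ℝ) ^ ((k + 1) * (N + 1)) := by
      intro j m hm
      have hle := mul1_le N i j
      have hb := hcb j m (by omega)
      have h2 : |coeff m (F q (mul1 N i) j)| ≤ 2 ^ ((k + 1) * (N + 1)) := by
        refine le_trans ?_ hb
        exact le_mul_of_one_le_right (abs_nonneg _) (one_le_pow₀ (hdp1 j))
      exact_mod_cast h2
    have h2 := abs_form_le q hqi (mul1 N i) ((2 : ℝ) ^ ((k + 1) * (N + 1))) (h : ℝ) (z : ℝ)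
      ((k + 1) * N) (sum_mul1 N i) (by positivity) hKb
      (fun j => by simp only [hq]; exact_mod_cast ha0 j)
      (fun j => by simp only [hq, Rat.cast_intCast]; exact_mod_cast hah j)
      (by positivity) (by positivity)
    rw [Fintype.card_fin] at h2
    push_cast at h2
    exact h2

end Pool.Agent.ExpPowI
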