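import Pool.Agent.ExpPowI.Small

/-! Arithmetic of the products of differences of the nodes. -/

namespace Pool.Agent.ExpPowI

open Finset

lemma natAbs_prod {ι : Type*} (s : Finset ι) (f : ι → ℤ) :
    (∏ i ∈ s, f i).natAbs = ∏ i ∈ s, (f i).natAbs :=
  map_prod Int.natAbsHom f s

/-- nodes in `[0, h]`: the product of differences divides `(h!)^2`. -/
lemma dp_dvd {k h : ℕ} (a : Fin (k + 1) → ℤ) (ha : Function.Injective a)
    (ha0 : ∀ j, 0 ≤ a j) (hah : ∀ j, a j ≤ h) (j : Fin (k + 1)) :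
    dp a j ∣ (((h.factorial) ^ 2 : ℕ) : ℤ) := by
  classical
  have hsub : ∀ s : Finset ℕ, s ⊆ Icc 1 h → ∏ x ∈ s, x ∣ h.factorial := by
    intro s hs
    have h1 : ∏ x ∈ Icc 1 h, x = h.factorial := by
      rw [← Finset.prod_range_add_one_eq_factorial]
      symm
      refine prod_nbij' (fun m => m + 1) (fun m => m - 1) ?_ ?_ ?_ ?_ ?_
      · intro m hm
        rw [mem_range] at hm
        rw [mem_Icc]
        omega
      · intro m hm
        rw [mem_Icc] at hm
        rw [mem_range]
        omega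
      · intro m hm
        omega
      · intro m hm
        rw [mem_Icc] at hm
        omega
      · intro m hm
        rfl
    rw [← h1]
    exact prod_dvd_prod_of_subset _ _ _ hs
  have hnat : (dp a j).natAbs ∣ h.factorial ^ 2 := by
    unfold dp
    rw [natAbs_prod]
    rw [← prod_filter_mul_prod_filter_not (univ.erase j) (fun l => a l < a j), sq]
    apply mul_dvd_mul
    · have : ∏ l ∈ (univ.erase j).filter (fun l => a l < a j), (a j - a l).natAbs =
          ∏ x ∈ ((univ.erase j).filter (fun l => a l < a j)).image (fun l => (a j - a l).natAbs), x := by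
        rw [prod_image]
        intro u hu v hv huv
        rw [coe_filter] at hu hv
        have h1 := hu.2
        have h2 := hv.2
        apply ha
        simp only at huv
        omega
      rw [this]
      apply hsub
      intro x hx
      rw [mem_image] at hx
      obtain ⟨l, hl, rfl⟩ := hx
      have h1 := (mem_filter.mp hl).2
      have h2 := ha0 l
      have h3 := hah j
      rw [mem_Icc]
      omega
    · have : ∏ l ∈ (univ.erase j).filter (fun l => ¬ a l < a j), (a j - a l).natAbs =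
          ∏ x ∈ ((univ.erase j).filter (fun l => ¬ a l < a j)).image (fun l => (a j - a l).natAbs), x := by
        rw [prod_image]
        intro u hu v hv huv
        rw [coe_filter] at hu hv
        have h1 := hu.2
        have h2 := hv.2
        apply ha
        simp only at huv
        omega
      rw [this]
      apply hsub
      intro x hx
      rw [mem_image] at hx
      obtain ⟨l, hl, rfl⟩ := hx
      have h1 := (mem_filter.mp hl).2
      have h0 := ne_of_mem_erase (mem_filter.mp hl).1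
      have h4 : a l ≠ a j := fun h => h0 (ha h)
      have h2 := ha0 j
      have h3 := hah l
      rw [mem_Icc]
      omega
  exact Int.natAbs_dvd.mp (by exact_mod_cast hnat)

lemma diff_dvd {k h : ℕ} (a : Fin (k + 1) → ℤ) (ha : Function.Injective a)
    (ha0 : ∀ j, 0 ≤ a j) (hah : ∀ j, a j ≤ h) (j l : Fin (k + 1)) (hjl : l ≠ j) :
    (a j - a l) ∣ ((h.factorial : ℕ) : ℤ) := by
  have h1 : a l ≠ a j := fun h => hjl (ha h)
  have h2 := ha0 j
  have h3 := ha0 l
  have h4 := hah j
  have h5 := hah l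
  have h6 : (a j - a l).natAbs ∣ h.factorial := Nat.dvd_factorial (by omega) (by omega)
  exact Int.natAbs_dvd.mp (by exact_mod_cast h6)

lemma one_le_dp {k : ℕ} (a : Fin (k + 1) → ℤ) (ha : Function.Injective a) (j : Fin (k + 1)) :
    (1 : ℚ) ≤ |(dp a j : ℚ)| := by
  have h2 : (1 : ℤ) ≤ |dp a j| := Int.one_le_abs (dp_ne_zero a ha j)
  exact_mod_cast h2

/-- nodes `0, 1, ..., k`. -/
def nat0 (k : ℕ) : Fin (k + 1) → ℤ := fun j => ((j : ℕ) : ℤ)

lemma nat0_inj (k : ℕ) : Function.Injective (nat0 k) := by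
  intro u v h
  unfold nat0 at h
  exact Fin.ext (by exact_mod_cast h)

/-- product of the differences `b - m`, `m ∈ [0, h]`, `m ≠ b`. -/
lemma full_prod {h b : ℕ} (hb : b ≤ h) :
    ∏ m ∈ (range (h + 1)).erase b, (((b : ℕ) : ℤ) - (m : ℤ)).natAbs =
      b.factorial * (h - b).factorial := by
  have h2 : (range (h + 1)).erase b = range b ∪ Ioc b h := by
    ext m
    simp only [mem_erase, mem_range, mem_union, mem_Ioc]
    omega
  have hdisj : Disjoint (range b) (Ioc b h) := by
    rw [disjoint_left]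
    intro m hm hm2
    rw [mem_range] at hm
    rw [mem_Ioc] at hm2
    omega
  rw [h2, prod_union hdisj]
  congr 1
  · rw [← prod_range_add_one_eq_factorial, ← prod_range_reflect]
    refine prod_congr rfl (fun m hm => ?_)
    rw [mem_range] at hm
    omega
  · rw [← prod_range_add_one_eq_factorial]
    symm
    refine prod_nbij' (fun m => m + b + 1) (fun m => m - b - 1) ?_ ?_ ?_ ?_ ?_
    · intro m hm
      rw [mem_range] at hm
      rw [mem_Ioc]
      omega
    · intro m hm
      rw [mem_Ioc] at hm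
      rw [mem_range]
      omega
    · intro m hm
      omega
    · intro m hm
      rw [mem_Ioc] at hm
      omega
    · intro m hm
      omega

/-- `dp a j` and the full product of differences. -/
lemma dp_sub {k h : ℕ} (a : Fin (k + 1) → ℤ) (ha : Function.Injective a)
    (ha0 : ∀ j, 0 ≤ a j) (hah : ∀ j, a j ≤ h) (j : Fin (k + 1)) :
    ∃ R : ℕ, R ≤ h ^ (h - k) ∧
      (dp a j).natAbs * R = (a j).toNat.factorial * (h - (a j).toNat).factorial := by
  classical
  set b : Fin (k + 1) → ℕ := fun l => (a l).toNat with hb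
  have hba : ∀ l, ((b l : ℕ) : ℤ) = a l := fun l => Int.toNat_of_nonneg (ha0 l)
  have hbinj : Function.Injective b := by
    intro u v huv
    apply ha
    rw [← hba, ← hba, huv]
  have hbh : ∀ l, b l ≤ h := by
    intro l
    have h1 := hah l
    rw [← hba] at h1
    exact_mod_cast h1
  set I := (univ.erase j).image b with hI
  have hIsub : I ⊆ (range (h + 1)).erase (b j) := by
    intro m hm
    rw [hI, mem_image] at hm
    obtain ⟨l, hl, rfl⟩ := hm
    rw [mem_erase, mem_range]
    exact ⟨fun h => (ne_of_mem_erase hl) (hbinj h), by have := hbh l; omega⟩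
  have hIcard : I.card = k := by
    rw [hI, card_image_of_injective _ hbinj, card_erase_of_mem (mem_univ _), card_univ,
      Fintype.card_fin, Nat.add_sub_cancel]
  have h1 : (dp a j).natAbs = ∏ m ∈ I, (((b j : ℕ) : ℤ) - (m : ℤ)).natAbs := by
    unfold dp
    rw [natAbs_prod, hI, prod_image (fun u _ v _ huv => hbinj huv)]
    refine prod_congr rfl (fun l _ => ?_)
    rw [hba, hba]
  refine ⟨∏ m ∈ ((range (h + 1)).erase (b j)) \ I, (((b j : ℕ) : ℤ) - (m : ℤ)).natAbs, ?_, ?_⟩
  · have h2 : ∏ m ∈ ((range (h + 1)).erase (b j)) \ I, (((b j : ℕ) : ℤ) - (m : ℤ)).natAbs ≤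
        ∏ _m ∈ ((range (h + 1)).erase (b j)) \ I, h := by
      apply prod_le_prod'
      intro m hm
      have h3 := (mem_sdiff.mp hm).1
      rw [mem_erase, mem_range] at h3
      have h4 := hbh j
      omega
    refine h2.trans (le_of_eq ?_)
    rw [prod_const, card_sdiff_of_subset hIsub, hIcard, card_erase_of_mem, card_range,
      Nat.add_sub_cancel]
    rw [mem_range]
    have := hbh j
    omega
  · rw [h1, mul_comm, prod_sdiff hIsub, full_prod (hbh j)]

/-- arbitrary nodes in `[0, h]`: `dp a j` divides `h!`. -/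
lemma dp_dvd_factorial {k h : ℕ} (a : Fin (k + 1) → ℤ) (ha : Function.Injective a)
    (ha0 : ∀ j, 0 ≤ a j) (hah : ∀ j, a j ≤ h) (j : Fin (k + 1)) :
    dp a j ∣ ((h.factorial : ℕ) : ℤ) := by
  obtain ⟨R, -, hR⟩ := dp_sub a ha ha0 hah j
  have hj : (a j).toNat ≤ h := by
    have := hah j
    omega
  have h1 : (dp a j).natAbs ∣ h.factorial :=
    (Dvd.intro _ hR).trans (Nat.factorial_mul_factorial_dvd_factorial hj)
  exact Int.natAbs_dvd.mp (by exact_mod_cast h1)

/-- arbitrary nodes in `[0, h]`: `h! ≤ 2^h h^{h-k} |dp a j|`. -/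
lemma factorial_le_dp {k h : ℕ} (a : Fin (k + 1) → ℤ) (ha : Function.Injective a)
    (ha0 : ∀ j, 0 ≤ a j) (hah : ∀ j, a j ≤ h) (j : Fin (k + 1)) :
    ((h.factorial : ℕ) : ℚ) ≤ ((2 ^ h * h ^ (h - k) : ℕ) : ℚ) * |(dp a j : ℚ)| := by
  obtain ⟨R, hR1, hR⟩ := dp_sub a ha ha0 hah j
  have hj : (a j).toNat ≤ h := by
    have := hah j
    omega
  have h1 : h.factorial ≤ 2 ^ h * h ^ (h - k) * (dp a j).natAbs := by
    rw [← Nat.choose_mul_factorial_mul_factorial hj, mul_assoc, ← hR]
    calc h.choose (a j).toNat * ((dp a j).natAbs * R)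
        ≤ 2 ^ h * ((dp a j).natAbs * h ^ (h - k)) :=
          Nat.mul_le_mul (Nat.choose_le_two_pow _ _) (Nat.mul_le_mul_left _ hR1)
      _ = 2 ^ h * h ^ (h - k) * (dp a j).natAbs := by ring
  have h2 : |(dp a j : ℚ)| = (((dp a j).natAbs : ℕ) : ℚ) := by
    rw [Nat.cast_natAbs, Int.cast_abs]
  rw [h2]
  exact_mod_cast h1

/-- arbitrary nodes in `[0, h]`: differences divide `lcm(1, ..., h)`. -/
lemma diff_dvd_lcm {k h : ℕ} (a : Fin (k + 1) → ℤ) (ha : Function.Injective a)
    (ha0 : ∀ j, 0 ≤ a j) (hah : ∀ j, a j ≤ h) (j l : Fin (k + 1)) (hjl : l ≠ j) :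
    (a j - a l) ∣ ((Nat.lcmUpto h : ℕ) : ℤ) := by
  have h1 : a l ≠ a j := fun h => hjl (ha h)
  have h2 := ha0 j
  have h3 := ha0 l
  have h4 := hah j
  have h5 := hah l
  have h6 : (a j - a l).natAbs ∣ Nat.lcmUpto h := by
    unfold Nat.lcmUpto
    have : (a j - a l).natAbs ∈ Icc 1 h := by
      rw [mem_Icc]
      omega
    exact dvd_lcm this
  exact Int.natAbs_dvd.mp (by exact_mod_cast h6)

lemma nat0_nonneg (k : ℕ) (j : Fin (k + 1)) : 0 ≤ nat0 k j := by
  unfold nat0
  positivity

lemma nat0_le (k : ℕ) (j : Fin (k + 1)) : nat0 k j ≤ k := by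
  unfold nat0
  exact_mod_cast Nat.lt_succ_iff.mp j.isLt

lemma dp_nat0_dvd (k : ℕ) (j : Fin (k + 1)) : dp (nat0 k) j ∣ ((k.factorial : ℕ) : ℤ) :=
  dp_dvd_factorial (nat0 k) (nat0_inj k) (nat0_nonneg k) (nat0_le k) j

lemma le_two_pow_dp_nat0 (k : ℕ) (j : Fin (k + 1)) :
    ((k.factorial : ℕ) : ℚ) ≤ ((2 ^ k : ℕ) : ℚ) * |(dp (nat0 k) j : ℚ)| := by
  have h := factorial_le_dp (nat0 k) (nat0_inj k) (nat0_nonneg k) (nat0_le k) j
  rwa [Nat.sub_self, pow_zero, mul_one] at h

lemma diff_nat0_dvd (k : ℕ) (j l : Fin (k + 1)) (hjl : l ≠ j) :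
    (nat0 k j - nat0 k l) ∣ ((Nat.lcmUpto k : ℕ) : ℤ) :=
  diff_dvd_lcm (nat0 k) (nat0_inj k) (nat0_nonneg k) (nat0_le k) j l hjl

lemma lcmUpto_le_exp (k : ℕ) : ((Nat.lcmUpto k : ℕ) : ℝ) ≤ Real.exp (6 * k) := by
  have h0 : (0 : ℝ) < (Nat.lcmUpto k : ℕ) := by exact_mod_cast Nat.lcmUpto_pos k
  rw [← Real.log_le_iff_le_exp h0]
  have h1 := Chebyshev.psi_le_const_mul_self (x := (k : ℝ)) (by positivity)
  have h2 := Chebyshev.psi_eq_log_lcmUpto k
  rw [← h2]
  refine h1.trans ?_
  have h3 : Real.log 4 ≤ 2 := by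
    have : Real.log 4 = 2 * Real.log 2 := by
      rw [show (4 : ℝ) = 2 ^ 2 by norm_num, Real.log_pow]
      norm_num
    have := Real.log_two_lt_d9
    linarith
  have h4 : (0 : ℝ) ≤ k := by positivity
  nlinarith

end Pool.Agent.ExpPowI
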