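import Pool.Agent.ExpPowI.Short

/-! Two close integers `t₁ < t₂` with `‖e^{t₁}‖`, `‖e^{t₂}‖` both very small. -/

namespace Pool.Agent.ExpPowI

open Finset Filter

lemma pair_hR {n l m w N k z t : ℝ} (hm : 14 ≤ m) (hmw : 20 * m ≤ w)
    (hk : 50 ≤ k) (hkw : 5 / 2 * l ≤ k * w) (hlogk : Real.log k ≤ m) (ht : t ≤ 2 * (k * n))
    (hN : 174 / 100 * (k * n) ≤ N * l) (hN1 : 1 ≤ N) (hkN : k * m + 2 * k + 2 ≤ N)
    (hlogN1 : l - m ≤ Real.log N)
    (hlogN2 : Real.log N ≤ l) (hz : 0 < z) (hlogz : Real.log z ≤ l - w)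
    (hzn : z * (1 + k) ≤ k * n / 50) :
    t + N * Real.log N + (N + 1) * (k * Real.log k) + N * (6 * k) + k + (k + 1) * (N + 1) +
      (k + 1) * N * (Real.log (z * (1 + k)) + 1 - Real.log ((k + 1) * N)) + z * (1 + k) ≤ -1 := by
  have hlogprod : Real.log ((k + 1) * N) = Real.log (k + 1) + Real.log N :=
    Real.log_mul (by linarith) (by linarith)
  have hlogzk : Real.log (z * (1 + k)) = Real.log z + Real.log (k + 1) := by
    rw [Real.log_mul hz.ne' (by linarith), add_comm (1 : ℝ) k]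
  have hlogk0 : 0 ≤ Real.log k := Real.log_nonneg (by linarith)
  rw [hlogzk, hlogprod]
  have hN0 : 0 ≤ N := by linarith
  have hP0 : 0 ≤ k * N := by positivity
  have h1 : (N + 1) * (k * Real.log k) ≤ (N + 1) * (k * m) := by gcongr
  have h3 : 50 * N ≤ k * N := mul_le_mul_of_nonneg_right hk hN0
  have h4 : (k * N) * (20 * m) ≤ (k * N) * w := mul_le_mul_of_nonneg_left hmw hP0
  have h5 : (k * N) * 280 ≤ (k * N) * w := mul_le_mul_of_nonneg_left (by linarith) hP0
  have h8 : N * (5 / 2 * l) ≤ N * (k * w) := mul_le_mul_of_nonneg_left hkw hN0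
  have h9 : N * Real.log N ≤ N * l := mul_le_mul_of_nonneg_left hlogN2 hN0
  have h10 : ((k + 1) * N) * (Real.log z + 1 - Real.log N) ≤ ((k + 1) * N) * (1 + m - w) :=
    mul_le_mul_of_nonneg_left (by linarith) (by positivity)
  have h11 : N * (1 + m - w) ≤ 0 := mul_nonpos_of_nonneg_of_nonpos hN0 (by linarith)
  have hA : t + N * Real.log N + (N + 1) * (k * Real.log k) + N * (6 * k) + k +
      (k + 1) * (N + 1) + (k + 1) * N * (Real.log z + Real.log (k + 1) + 1 -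
        (Real.log (k + 1) + Real.log N)) + z * (1 + k) ≤
      2 * (k * n) + N * l + (k * N) * (2 * m + 8 - w) + N + (k * m + 2 * k + 1) + k * n / 50 := by
    nlinarith
  refine hA.trans ?_
  have hB : (k * N) * (2 * m + 8 - w) ≤ -(87 / 100) * ((k * N) * w) := by nlinarith
  have hC : (k * N) * w = N * (k * w) := by ring
  nlinarith

lemma pair_exponent {n l w N k z m : ℝ} (hl : 1000000 ≤ l) (hw : 280 ≤ w)
    (hk : 50 ≤ k) (hkw : k * w ≤ 51 / 20 * l) (hlogk : Real.log k ≤ m)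
    (hkN : k * m + 3 * k + 2 + l ≤ N)
    (hN : N * l ≤ 174 / 100 * (k * n) + n / 100) (hn : 0 ≤ n)
    (hlogN2 : Real.log N ≤ l) (hz : z ≤ n / 100) (hN0 : 0 ≤ N) :
    (N * Real.log N + z + k * Real.log k + N * k + N * (6 * k) +
      (k + 1) * (N + 1)) + l + (k + (k - 1) * (2 * n + 1)) ≤ 10 * (l / w) * n := by
  have hw0 : 0 < w := by linarith
  have hk0 : 0 < k := by linarith
  have hP0 : 0 ≤ k * N := by positivity
  have h1 : k * Real.log k ≤ k * m := mul_le_mul_of_nonneg_left hlogk hk0.le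
  have h2 : N * Real.log N ≤ N * l := mul_le_mul_of_nonneg_left hlogN2 hN0
  have h6 : k * 280 ≤ k * w := mul_le_mul_of_nonneg_left hw hk0.le
  have h7 : N * (k * 280) ≤ N * (51 / 20 * l) := mul_le_mul_of_nonneg_left (by linarith) hN0
  have h8 : N * 1000000 ≤ N * l := mul_le_mul_of_nonneg_left hl hN0
  have h9 : 50 * n ≤ k * n := mul_le_mul_of_nonneg_right hk hn
  have h10 : (N * Real.log N + z + k * Real.log k + N * k + N * (6 * k) +
      (k + 1) * (N + 1)) + l + (k + (k - 1) * (2 * n + 1)) ≤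
      N * l + 8 * (k * N) + 2 * N + z + 2 * (k * n) := by nlinarith
  refine h10.trans ?_
  have h11 : N * l + 8 * (k * N) + 2 * N + z + 2 * (k * n) ≤ 387 / 100 * (k * n) + n / 20 := by
    nlinarith
  refine h11.trans ?_
  have h12 : k ≤ 51 / 20 * (l / w) := by
    rw [← mul_div_assoc, le_div_iff₀ hw0]
    exact hkw
  have h13 : k * n ≤ 51 / 20 * (l / w) * n := mul_le_mul_of_nonneg_right h12 hn
  linarith

lemma prod_pow_sub_le' {α β q p M ε : ℝ} (hα : |α| ≤ M) (hq : |q| ≤ M) (hβ : |β| ≤ M)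
    (hp : |p| ≤ M) (h1 : |α - q| ≤ ε) (h2 : |β - p| ≤ ε) (a b : ℕ) :
    M * |α ^ a * β ^ b - q ^ a * p ^ b| ≤ (a + b : ℕ) * M ^ (a + b) * ε := by
  have hε : 0 ≤ ε := (abs_nonneg _).trans h1
  have hM : 0 ≤ M := (abs_nonneg _).trans hα
  have pow : ∀ {u v : ℝ}, |u| ≤ M → |v| ≤ M → |u - v| ≤ ε → ∀ a : ℕ,
      M * |u ^ a - v ^ a| ≤ a * M ^ a * ε := by
    intro u v hu hv huv a
    induction a with
    | zero => simp
    | succ a ih =>
      have h3 : u ^ (a + 1) - v ^ (a + 1) = (u ^ a - v ^ a) * u + v ^ a * (u - v) := by ring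
      rw [h3]
      have h4 : M * |(u ^ a - v ^ a) * u + v ^ a * (u - v)| ≤
          (M * |u ^ a - v ^ a|) * |u| + M * (|v| ^ a * |u - v|) := by
        calc M * |(u ^ a - v ^ a) * u + v ^ a * (u - v)|
            ≤ M * (|(u ^ a - v ^ a) * u| + |v ^ a * (u - v)|) :=
              mul_le_mul_of_nonneg_left (abs_add_le _ _) hM
          _ = _ := by rw [abs_mul, abs_mul, abs_pow]; ring
      refine h4.trans ?_
      have h5 : (M * |u ^ a - v ^ a|) * |u| ≤ (a * M ^ a * ε) * M :=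
        mul_le_mul ih hu (abs_nonneg _) (by positivity)
      have h6 : |v| ^ a * |u - v| ≤ M ^ a * ε :=
        mul_le_mul (pow_le_pow_left₀ (abs_nonneg _) hv a) huv (abs_nonneg _) (by positivity)
      have h7 : M * (|v| ^ a * |u - v|) ≤ M * (M ^ a * ε) := mul_le_mul_of_nonneg_left h6 hM
      calc (M * |u ^ a - v ^ a|) * |u| + M * (|v| ^ a * |u - v|) ≤
            (a * M ^ a * ε) * M + M * (M ^ a * ε) := add_le_add h5 h7
        _ = ((a + 1 : ℕ) : ℝ) * M ^ (a + 1) * ε := by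
            push_cast
            ring
  have h3 := pow hα hq h1 a
  have h4 := pow hβ hp h2 b
  have h5 : α ^ a * β ^ b - q ^ a * p ^ b = (α ^ a - q ^ a) * β ^ b + q ^ a * (β ^ b - p ^ b) := by
    ring
  have h6 : (M * |α ^ a - q ^ a|) * |β| ^ b ≤ (a * M ^ a * ε) * M ^ b :=
    mul_le_mul h3 (pow_le_pow_left₀ (abs_nonneg _) hβ b) (by positivity) (by positivity)
  have h7 : |q| ^ a * (M * |β ^ b - p ^ b|) ≤ M ^ a * (b * M ^ b * ε) :=
    mul_le_mul (pow_le_pow_left₀ (abs_nonneg _) hq a) h4 (by positivity) (by positivity)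
  rw [h5]
  calc M * |(α ^ a - q ^ a) * β ^ b + q ^ a * (β ^ b - p ^ b)|
      ≤ M * (|(α ^ a - q ^ a) * β ^ b| + |q ^ a * (β ^ b - p ^ b)|) :=
        mul_le_mul_of_nonneg_left (abs_add_le _ _) hM
    _ = (M * |α ^ a - q ^ a|) * |β| ^ b + |q| ^ a * (M * |β ^ b - p ^ b|) := by
        rw [abs_mul, abs_mul, abs_pow, abs_pow]
        ring
    _ ≤ (a * M ^ a * ε) * M ^ b + M ^ a * (b * M ^ b * ε) := add_le_add h6 h7
    _ = (a + b : ℕ) * M ^ (a + b) * ε := by
        push_cast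
        rw [pow_add]
        ring

/-- **Gap principle.** Two integers `≤ 2n` at distance at most `n / W` cannot both have
`‖e^t‖` smaller than `exp (-10 (log n / log W) n)`. -/
theorem pair_gap : ∃ n₀ : ℕ, 1 ≤ n₀ ∧ ∀ n : ℕ, n₀ ≤ n → ∀ W : ℝ, (Real.log n) ^ 20 ≤ W →
    20 * Real.log W ≤ Real.log n → ∀ t₁ t₂ : ℕ, t₁ < t₂ → t₂ ≤ 2 * n →
    (t₂ : ℝ) - t₁ ≤ n / W → ∀ ε : ℝ, distToNearestInt (Real.exp t₁) ≤ ε →
    distToNearestInt (Real.exp t₂) ≤ ε →
    Real.exp (-(10 * (Real.log n / Real.log W) * n)) ≤ ε := by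
  obtain ⟨n₀, hn₀1, hn₀⟩ := exists_log_large (max 1000000 (Real.exp 14)) 6
  refine ⟨n₀, hn₀1, ?_⟩
  intro n hn W hW1 hW2 t₁ t₂ ht12 ht2 hgap ε hε1 hε2
  obtain ⟨hlK, hl6⟩ := hn₀ n hn
  set l := Real.log n with hldef
  have hn1 : 1 ≤ n := hn₀1.trans hn
  have hn0 : (0 : ℝ) < n := by exact_mod_cast hn1
  have hl : 1000000 ≤ l := (le_max_left _ _).trans hlK
  have hl14 : Real.exp 14 ≤ l := (le_max_right _ _).trans hlK
  have hl0 : 0 < l := by linarith
  have hl1 : 1 ≤ l := by linarith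
  set m := Real.log l with hm
  have hm14 : 14 ≤ m := by rwa [hm, Real.le_log_iff_exp_le hl0]
  have hml : m ≤ l / 100 := log_le_small (by linarith)
  have hlpow : l ≤ l ^ 20 := by
    calc l = l ^ 1 := by ring
      _ ≤ l ^ 20 := pow_le_pow_right₀ hl1 (by norm_num)
  have hW0 : 0 < W := by linarith
  set w := Real.log W with hw
  have hmw : 20 * m ≤ w := by
    have h1 : Real.log (l ^ 20) = 20 * m := by
      rw [Real.log_pow, hm]
      norm_num
    rw [← h1]
    exact Real.log_le_log (by positivity) hW1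
  have hw280 : 280 ≤ w := by linarith
  have hw0 : 0 < w := by linarith
  set k := ⌈5 / 2 * l / w⌉₊ with hk
  have hk1 : 5 / 2 * l / w ≤ k := Nat.le_ceil _
  have hk2 : (k : ℝ) < 5 / 2 * l / w + 1 := Nat.ceil_lt_add_one (by positivity)
  have hkw1 : 5 / 2 * l ≤ k * w := by rwa [div_le_iff₀ hw0] at hk1
  have hkw2 : (k : ℝ) * w ≤ 51 / 20 * l := by
    have h1 : (k : ℝ) * w ≤ (5 / 2 * l / w + 1) * w := mul_le_mul_of_nonneg_right hk2.le hw0.le
    have h2 : (5 / 2 * l / w + 1) * w = 5 / 2 * l + w := by field_simp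
    linarith
  have hk50 : (50 : ℝ) ≤ k := by
    refine le_trans ?_ hk1
    rw [le_div_iff₀ hw0]
    linarith
  have hk1' : 1 ≤ k := by
    have : (1 : ℝ) ≤ k := by linarith
    exact_mod_cast this
  have hk280 : (k : ℝ) * 280 ≤ k * w := mul_le_mul_of_nonneg_left hw280 (by linarith)
  have hkl : (k : ℝ) ≤ l / 100 := by linarith
  have hlogk : Real.log k ≤ m := Real.log_le_log (by linarith) (by linarith)
  -- the step
  obtain ⟨z, hz⟩ : ∃ z : ℕ, t₂ = t₁ + z := ⟨t₂ - t₁, by omega⟩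
  have hz1 : 1 ≤ z := by omega
  have hzR : (t₂ : ℝ) - t₁ = z := by
    rw [hz]
    push_cast
    ring
  rw [hzR] at hgap
  have hz0 : (0 : ℝ) < z := by exact_mod_cast hz1
  have hzW : (z : ℝ) * W ≤ n := by rwa [le_div_iff₀ hW0] at hgap
  have hlogz : Real.log z ≤ l - w := by
    have h1 : Real.log (z * W) ≤ Real.log n := Real.log_le_log (by positivity) hzW
    rw [Real.log_mul hz0.ne' hW0.ne'] at h1
    linarith
  have hWl : l ≤ W := hlpow.trans hW1
  have hz2 : (z : ℝ) * 100 ≤ n := (mul_le_mul_of_nonneg_left (by linarith) hz0.le).trans hzW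
  have hzn' : (z : ℝ) ≤ n / 100 := by linarith
  have hzn : (z : ℝ) * (1 + k) ≤ k * n / 50 := by
    have h1 : (z : ℝ) * (1 + k) ≤ z * (2 * k) := mul_le_mul_of_nonneg_left (by linarith) hz0.le
    have h2 : (k : ℝ) * (z * 100) ≤ k * n := mul_le_mul_of_nonneg_left hz2 (by linarith)
    linarith
  -- powers of `l` and `n`
  have hl2 : 640000 * l ^ 2 ≤ (n : ℝ) := by
    calc 640000 * l ^ 2 ≤ l * l ^ 2 := mul_le_mul_of_nonneg_right (by linarith) (by positivity)
      _ = l ^ 3 := by ring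
      _ ≤ l ^ 6 := pow_le_pow_right₀ hl1 (by norm_num)
      _ ≤ n := hl6
  set y := Nat.sqrt n + 1 with hy
  have hy1 : n < y * y := Nat.lt_succ_sqrt n
  have hy2 : y * y ≤ 4 * n := by
    have h1 : Nat.sqrt n * Nat.sqrt n ≤ n := Nat.sqrt_le n
    have h2 : 1 ≤ Nat.sqrt n := by
      rw [Nat.le_sqrt]
      omega
    rw [hy]
    nlinarith
  have hy2R : (y : ℝ) * y ≤ 4 * n := by exact_mod_cast hy2
  have hy1R : (n : ℝ) < y * y := by exact_mod_cast hy1
  have hy0 : (0 : ℝ) < y := by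
    rw [hy]
    positivity
  have hyl : 400 * ((y : ℝ) * l) ≤ n := by
    apply le_of_sq_le_sq _ hn0.le
    calc (400 * ((y : ℝ) * l)) ^ 2 = (y * y) * (160000 * l ^ 2) := by ring
      _ ≤ (4 * n) * (160000 * l ^ 2) := by gcongr
      _ = n * (640000 * l ^ 2) := by ring
      _ ≤ (n : ℝ) * n := by gcongr
      _ = (n : ℝ) ^ 2 := by ring
  have hky : k ≤ y := by
    have h1 : (k : ℝ) ≤ y := by
      apply le_of_sq_le_sq _ hy0.le
      have h2 : (k : ℝ) ^ 2 ≤ l ^ 2 := pow_le_pow_left₀ (by positivity) (by linarith) 2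
      have h3 : 0 ≤ l ^ 2 := by positivity
      calc (k : ℝ) ^ 2 ≤ l ^ 2 := h2
        _ ≤ 640000 * l ^ 2 := by linarith
        _ ≤ n := hl2
        _ ≤ y * y := hy1R.le
        _ = (y : ℝ) ^ 2 := by ring
    exact_mod_cast h1
  -- the parameter `N`
  have hkn : 50 * (n : ℝ) ≤ k * n := mul_le_mul_of_nonneg_right hk50 hn0.le
  have hzn2 : z ≤ y * y := by
    have h1 : (z : ℝ) ≤ y * y := by linarith
    exact_mod_cast h1
  obtain ⟨p, N, hp, hpN, hN1, hyp, hpz, hNX1, hNX2⟩ := exists_N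
    (X := 174 / 100 * (k * n) / l) (by positivity) (y := y) (z := z) (by omega) hz1 hzn2
  have hN0 : (0 : ℝ) < N := by exact_mod_cast hN1
  have hNone : (1 : ℝ) ≤ N := by exact_mod_cast hN1
  have hNl : 174 / 100 * ((k : ℝ) * n) ≤ N * l := by rwa [div_le_iff₀ hl0] at hNX1
  have hNle : (N : ℝ) * l ≤ 174 / 100 * (k * n) + n / 100 := by
    have h1 := mul_le_mul_of_nonneg_right hNX2 hl0.le
    rw [add_mul, div_mul_cancel₀ _ hl0.ne'] at h1
    linarith
  have hNbig : 1000 * l ^ 2 ≤ N := by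
    have h1 : (1000 * l ^ 2) * l ≤ N * l := by
      calc (1000 * l ^ 2) * l = 1000 * l ^ 3 := by ring
        _ ≤ l * l ^ 3 := mul_le_mul_of_nonneg_right (by linarith) (by positivity)
        _ = l ^ 4 := by ring
        _ ≤ l ^ 6 := pow_le_pow_right₀ hl1 (by norm_num)
        _ ≤ n := hl6
        _ ≤ N * l := by linarith
    exact le_of_mul_le_mul_right h1 hl0
  have hkm : (k : ℝ) * m ≤ l ^ 2 := by
    have := mul_le_mul hkl hml (by linarith) (by linarith)
    nlinarith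
  have hll : l ≤ l ^ 2 := by nlinarith
  have hkN : (k : ℝ) * m + 3 * k + 2 + l ≤ N := by linarith
  have hNn : (N : ℝ) ≤ n := by
    have h1 : (k : ℝ) * n ≤ l / 100 * n := mul_le_mul_of_nonneg_right hkl hn0.le
    have h2 : (n : ℝ) * 1000000 ≤ n * l := mul_le_mul_of_nonneg_left hl hn0.le
    have h4 : (N : ℝ) * l ≤ n * l := by linarith
    exact le_of_mul_le_mul_right h4 hl0
  have hlogN1 : l - m ≤ Real.log N := by
    have h1 : Real.log n ≤ Real.log (N * l) := Real.log_le_log hn0 (by linarith)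
    rw [Real.log_mul hN0.ne' hl0.ne'] at h1
    linarith
  have hlogN2 : Real.log N ≤ l := Real.log_le_log hN0 hNn
  have hpD : ¬ p ∣ k.factorial := by
    intro hdvd
    exact absurd (hp.dvd_factorial.mp hdvd) (by omega)
  have hpL : ¬ p ∣ Nat.lcmUpto k := fun hdvd => hpD (hdvd.trans (Nat.lcmUpto_dvd_factorial k))
  have hfac : ((k.factorial : ℕ) : ℝ) ≤ Real.exp (k * Real.log k) := factorial_le_exp hk1'
  have htwo : (2 : ℝ) ≤ Real.exp 1 := by
    have := Real.add_one_le_exp (1 : ℝ)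
    linarith
  have h2k : ((2 ^ k : ℕ) : ℝ) ≤ Real.exp k := by
    push_cast
    calc (2 : ℝ) ^ k ≤ (Real.exp 1) ^ k := pow_le_pow_left₀ (by norm_num) htwo _
      _ = Real.exp k := by rw [← Real.exp_nat_mul, mul_one]
  -- the integers
  set q := round (Real.exp (t₁ : ℝ)) with hq
  set r := round (Real.exp (t₂ : ℝ)) with hr
  set M := Real.exp (2 * n + 1) with hM
  have hM0 : 0 < M := Real.exp_pos _
  have ht1R : (t₁ : ℝ) ≤ 2 * n := by
    have : t₁ ≤ 2 * n := by omega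
    exact_mod_cast this
  have ht2R : (t₂ : ℝ) ≤ 2 * n := by exact_mod_cast ht2
  have hround : ∀ t : ℕ, (t : ℝ) ≤ 2 * n → |Real.exp (t : ℝ)| ≤ M ∧
      |((round (Real.exp (t : ℝ)) : ℤ) : ℝ)| ≤ M ∧ round (Real.exp (t : ℝ)) ≠ 0 := by
    intro t ht
    have h1 : Real.exp (t : ℝ) ≤ Real.exp (2 * n) := Real.exp_le_exp.mpr ht
    have h2 : (1 : ℝ) ≤ Real.exp (t : ℝ) := Real.one_le_exp (by positivity)
    have h3 : |Real.exp (t : ℝ) - round (Real.exp (t : ℝ))| ≤ 1 / 2 := abs_sub_round _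
    have h4 := abs_le.mp h3
    have h5 : Real.exp (2 * n + 1) = Real.exp (2 * n) * Real.exp 1 := Real.exp_add _ _
    have h7 : Real.exp (2 * n) * 2 ≤ M := by
      rw [hM, h5]
      exact mul_le_mul_of_nonneg_left htwo (Real.exp_pos _).le
    have h8 : (1 : ℝ) ≤ Real.exp (2 * n) := h2.trans h1
    refine ⟨?_, ?_, ?_⟩
    · rw [abs_of_pos (Real.exp_pos _)]
      linarith
    · rw [abs_le]
      constructor <;> linarith [h4.1, h4.2]
    · intro h0
      rw [h0] at h4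
      push_cast at h4
      linarith [h4.2]
  obtain ⟨ha1, ha2, ha3⟩ := hround t₁ ht1R
  obtain ⟨hb1, hb2, hb3⟩ := hround t₂ ht2R
  rw [← hq] at ha2 ha3
  rw [← hr] at hb2 hb3
  have hqε : |Real.exp (t₁ : ℝ) - q| ≤ ε := hε1
  have hpε : |Real.exp (t₂ : ℝ) - r| ≤ ε := hε2
  have hε0 : 0 ≤ ε := (abs_nonneg _).trans hqε
  set x : Fin (k + 1) → ℤ := fun j => q ^ (k - (j : ℕ)) * r ^ (j : ℕ) with hx
  have hx0 : x ≠ 0 := by
    intro h0
    have h1 : x 0 = 0 := by rw [h0]; rfl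
    simp only [hx] at h1
    simp only [Fin.val_zero, tsub_zero, pow_zero, mul_one] at h1
    exact ha3 (pow_eq_zero_iff (by omega) |>.mp h1)
  have hxε : ∀ j : Fin (k + 1), |Real.exp ((k : ℝ) * t₁ + (nat0 k j : ℝ) * z) - x j| ≤
      k * M ^ k * ε / M := by
    intro j
    have hj : (j : ℕ) ≤ k := Nat.lt_succ_iff.mp j.isLt
    have h1 : Real.exp ((k : ℝ) * t₁ + (nat0 k j : ℝ) * z) =
        Real.exp (t₁ : ℝ) ^ (k - (j : ℕ)) * Real.exp (t₂ : ℝ) ^ (j : ℕ) := by
      rw [← Real.exp_nat_mul, ← Real.exp_nat_mul, ← Real.exp_add]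
      congr 1
      unfold nat0
      rw [Nat.cast_sub hj, ← hzR]
      push_cast
      ring
    have h2 := prod_pow_sub_le' ha1 ha2 hb1 hb2 hqε hpε (k - (j : ℕ)) (j : ℕ)
    rw [Nat.sub_add_cancel hj] at h2
    rw [le_div_iff₀ hM0, mul_comm]
    rw [h1]
    simp only [hx]
    push_cast
    exact h2
  have hkey := key (k := k) (N := N) (p := p) (z := z) (h := k) (k.factorial) (Nat.lcmUpto k)
    (2 ^ k) (k * Real.log k) (6 * k) k (k * t₁) (k * M ^ k * ε / M) (nat0 k) (nat0_inj k)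
    (fun j => by unfold nat0; positivity)
    (fun j => by
      unfold nat0
      exact_mod_cast Nat.lt_succ_iff.mp j.isLt) hz1
    (fun j => dp_nat0_dvd k j) (fun j l hjl => diff_nat0_dvd k j l hjl)
    (fun j => le_two_pow_dp_nat0 k j)
    hfac (lcmUpto_le_exp k) h2k hp hpN hN1 hpz hpD hpL x hx0 hxε
    (pair_hR (n := (n : ℝ)) (l := l) (m := m) (w := w) (N := (N : ℝ)) (k := (k : ℝ))
      (z := (z : ℝ)) (t := (k : ℝ) * t₁) hm14 hmw hk50 hkw1 hlogk
      (by
        have : (k : ℝ) * t₁ ≤ k * (2 * n) := mul_le_mul_of_nonneg_left ht1R (by linarith)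
        linarith) hNl hNone (by linarith) hlogN1 hlogN2 hz0 hlogz hzn)
  have hexp := pair_exponent (n := (n : ℝ)) (l := l) (m := m) (w := w) (N := (N : ℝ))
    (k := (k : ℝ)) (z := (z : ℝ)) hl hw280 hk50 hkw2 hlogk hkN hNle hn0.le hlogN2 hzn' hN0.le
  have h2k' : 2 * ((k : ℝ) + 1) ≤ Real.exp l := by
    have h1 : Real.exp l = n := by rw [hldef, Real.exp_log hn0]
    rw [h1]
    linarith
  have hkexp : (k : ℝ) ≤ Real.exp k := by
    have := Real.add_one_le_exp (k : ℝ)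
    linarith
  have hMk : M ^ k / M = Real.exp ((k - 1) * (2 * n + 1)) := by
    rw [hM, ← Real.exp_nat_mul, ← Real.exp_sub]
    congr 1
    ring
  set E := (N : ℝ) * Real.log N + z + k * Real.log k + N * k + N * (6 * k) +
    (k + 1) * (N + 1) with hE
  have h8 : 1 ≤ ε * Real.exp (10 * (l / w) * n) := by
    calc (1 : ℝ) ≤ 2 * (k + 1) * (k * M ^ k * ε / M) * Real.exp E := hkey
      _ = ε * ((2 * (k + 1)) * (k * (M ^ k / M)) * Real.exp E) := by ring
      _ ≤ ε * (Real.exp l * (Real.exp k * (M ^ k / M)) * Real.exp E) := by gcongr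
      _ = ε * Real.exp (E + l + (k + (k - 1) * (2 * n + 1))) := by
          rw [hMk, ← Real.exp_add, ← Real.exp_add, ← Real.exp_add]
          congr 2
          ring
      _ ≤ ε * Real.exp (10 * (l / w) * n) := by gcongr
  rw [Real.exp_neg, inv_le_iff_one_le_mul₀ (Real.exp_pos _)]
  exact h8

end Pool.Agent.ExpPowI
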