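import Pool.Agent.ExpPowI.Residue

/-! The exponential form attached to the residues and its size. -/

namespace Pool.Agent.ExpPowI

open PowerSeries Finset

lemma hasSum_shift (c z : ℝ) (s : ℕ) :
    HasSum (fun r : ℕ => z ^ r / r.factorial * ((r.choose s : ℝ) * c ^ (r - s)))
      (z ^ s / s.factorial * Real.exp (c * z)) := by
  have h0 : ∑ i ∈ range s, z ^ i / (i.factorial : ℝ) * ((i.choose s : ℝ) * c ^ (i - s)) = 0 := by
    refine sum_eq_zero (fun i hi => ?_)
    rw [Nat.choose_eq_zero_of_lt (mem_range.mp hi)]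
    simp
  rw [← add_zero (z ^ s / (s.factorial : ℝ) * Real.exp (c * z)), ← h0, ← hasSum_nat_add_iff s]
  have h1 : HasSum (fun m : ℕ => (c * z) ^ m / m.factorial) (Real.exp (c * z)) := by
    rw [Real.exp_eq_exp_ℝ]
    exact NormedSpace.expSeries_div_hasSum_exp (c * z)
  have h2 := h1.mul_left (z ^ s / (s.factorial : ℝ))
  have h3 : (fun m : ℕ => z ^ (m + s) / ((m + s).factorial : ℝ) *
      (((m + s).choose s : ℝ) * c ^ (m + s - s))) =
      fun m : ℕ => z ^ s / (s.factorial : ℝ) * ((c * z) ^ m / (m.factorial : ℝ)) := by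
    funext m
    have hf : ((m + s).choose s : ℝ) * m.factorial * s.factorial = (m + s).factorial := by
      exact_mod_cast Nat.add_choose_mul_factorial_mul_factorial m s
    have hm : (m.factorial : ℝ) ≠ 0 := by exact_mod_cast m.factorial_ne_zero
    have hs : (s.factorial : ℝ) ≠ 0 := by exact_mod_cast s.factorial_ne_zero
    have hms : ((m + s).factorial : ℝ) ≠ 0 := by exact_mod_cast (m + s).factorial_ne_zero
    rw [Nat.add_sub_cancel, div_mul_eq_mul_div, div_mul_div_comm, div_eq_div_iff hms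
      (mul_ne_zero hs hm), ← hf, mul_pow, pow_add]
    ring
  rw [h3]
  exact h2

lemma res_expand (m : ℕ) (f : ℚ⟦X⟧) (c : ℚ) (r : ℕ) :
    res m (f * (X + C c) ^ r) =
      ∑ s ∈ range m, coeff (m - 1 - s) f * ((r.choose s : ℚ) * c ^ (r - s)) := by
  rcases m with _ | m
  · simp [res]
  · unfold res
    rw [if_neg (Nat.succ_ne_zero m), Nat.add_sub_cancel, mul_comm f, coeff_mul,
      Finset.Nat.sum_antidiagonal_eq_sum_range_succ
        (fun i j => coeff i ((X + C c) ^ r) * coeff j f), Nat.succ_eq_add_one]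
    refine sum_congr rfl (fun s _ => ?_)
    rw [coeff_Pm]
    ring

section

variable {ι : Type*} [Fintype ι] [DecidableEq ι]

/-- the coefficient polynomials of the form at `z` -/
noncomputable def Ac (a : ι → ℚ) (n : ι → ℕ) (z : ℝ) (j : ι) : ℝ :=
  ∑ s ∈ range (n j), z ^ s / s.factorial * ((coeff (n j - 1 - s) (F a n j) : ℚ) : ℝ)

lemma hasSum_form (a : ι → ℚ) (n : ι → ℕ) (z : ℝ) :
    HasSum (fun r : ℕ => z ^ r / r.factorial * ((S a n (Pm a r) : ℚ) : ℝ))
      (∑ j, Ac a n z j * Real.exp ((a j : ℝ) * z)) := by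
  have h1 : ∀ j ∈ (univ : Finset ι), HasSum (fun r : ℕ => ∑ s ∈ range (n j),
      ((coeff (n j - 1 - s) (F a n j) : ℚ) : ℝ) *
        (z ^ r / r.factorial * ((r.choose s : ℝ) * (a j : ℝ) ^ (r - s))))
      (Ac a n z j * Real.exp ((a j : ℝ) * z)) := by
    intro j _
    have h2 : Ac a n z j * Real.exp ((a j : ℝ) * z) = ∑ s ∈ range (n j),
        ((coeff (n j - 1 - s) (F a n j) : ℚ) : ℝ) *
          (z ^ s / s.factorial * Real.exp ((a j : ℝ) * z)) := by
      unfold Ac
      rw [sum_mul]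
      exact sum_congr rfl (fun s _ => by ring)
    rw [h2]
    exact hasSum_sum (fun s _ => (hasSum_shift (a j : ℝ) z s).mul_left _)
  have h3 := hasSum_sum h1
  have h4 : (fun r : ℕ => z ^ r / r.factorial * ((S a n (Pm a r) : ℚ) : ℝ)) =
      fun r : ℕ => ∑ j, ∑ s ∈ range (n j), ((coeff (n j - 1 - s) (F a n j) : ℚ) : ℝ) *
        (z ^ r / r.factorial * ((r.choose s : ℝ) * (a j : ℝ) ^ (r - s))) := by
    funext r
    unfold S Pm
    rw [Rat.cast_sum, mul_sum]
    refine sum_congr rfl (fun j _ => ?_)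
    rw [res_expand, Rat.cast_sum, mul_sum]
    refine sum_congr rfl (fun s _ => ?_)
    push_cast
    ring
  rw [h4]
  exact h3

lemma abs_S_le (a : ι → ℚ) (n : ι → ℕ) (K : ℝ) (h : ℝ) (hK : 0 ≤ K)
    (hKb : ∀ j m, m < n j → |((coeff m (F a n j) : ℚ) : ℝ)| ≤ K)
    (ha0 : ∀ j, 0 ≤ a j) (hah : ∀ j, (a j : ℝ) ≤ h) (r : ℕ) :
    |((S a n (Pm a r) : ℚ) : ℝ)| ≤ Fintype.card ι * K * (1 + h) ^ r := by
  have hb : ∀ j, |((res (n j) (F a n j * Pm a r j) : ℚ) : ℝ)| ≤ K * (1 + h) ^ r := by
    intro j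
    have haj : (0 : ℝ) ≤ a j := by exact_mod_cast ha0 j
    unfold Pm
    rw [res_expand, Rat.cast_sum]
    refine le_trans (abs_sum_le_sum_abs _ _) ?_
    have h1 : ∀ s ∈ range (n j), |((coeff (n j - 1 - s) (F a n j) *
        ((r.choose s : ℚ) * a j ^ (r - s)) : ℚ) : ℝ)| ≤
        K * ((r.choose s : ℝ) * (a j : ℝ) ^ (r - s)) := by
      intro s hs
      have hs' := mem_range.mp hs
      push_cast
      rw [abs_mul, abs_of_nonneg (by positivity : (0 : ℝ) ≤ (r.choose s : ℝ) * (a j : ℝ) ^ (r - s))]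
      exact mul_le_mul_of_nonneg_right (hKb j _ (by omega)) (by positivity)
    refine le_trans (sum_le_sum h1) ?_
    rw [← mul_sum]
    apply mul_le_mul_of_nonneg_left _ hK
    calc ∑ s ∈ range (n j), (r.choose s : ℝ) * (a j : ℝ) ^ (r - s)
        ≤ ∑ s ∈ range (n j + (r + 1)), (r.choose s : ℝ) * (a j : ℝ) ^ (r - s) := by
          apply sum_le_sum_of_subset_of_nonneg
          · exact range_subset_range.mpr (by omega)
          · intros
            positivity
      _ = ∑ s ∈ range (r + 1), (r.choose s : ℝ) * (a j : ℝ) ^ (r - s) := by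
          symm
          apply sum_subset
          · exact range_subset_range.mpr (by omega)
          · intro s _ hs
            rw [mem_range, not_lt] at hs
            rw [Nat.choose_eq_zero_of_lt (by omega)]
            simp
      _ = (1 + (a j : ℝ)) ^ r := by
          rw [add_pow]
          exact sum_congr rfl (fun s _ => by rw [one_pow]; ring)
      _ ≤ (1 + h) ^ r := by
          apply pow_le_pow_left₀ (by linarith)
          linarith [hah j]
  unfold S
  rw [Rat.cast_sum]
  refine le_trans (abs_sum_le_sum_abs _ _) ?_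
  refine le_trans (sum_le_sum (fun j _ => hb j)) ?_
  rw [sum_const, card_univ, nsmul_eq_mul]
  exact le_of_eq (by ring)

lemma abs_form_le (a : ι → ℚ) (ha : Function.Injective a) (n : ι → ℕ) (K h z : ℝ) (R : ℕ)
    (hn : ∑ j, n j = R + 1) (hK : 0 ≤ K)
    (hKb : ∀ j m, m < n j → |((coeff m (F a n j) : ℚ) : ℝ)| ≤ K)
    (ha0 : ∀ j, 0 ≤ a j) (hah : ∀ j, (a j : ℝ) ≤ h) (hh : 0 ≤ h) (hz : 0 ≤ z) :
    |∑ j, Ac a n z j * Real.exp ((a j : ℝ) * z)| ≤
      Fintype.card ι * K * ((z * (1 + h)) ^ R / R.factorial) * Real.exp (z * (1 + h)) := by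
  have h1 := hasSum_form a n z
  have h0 : ∑ r ∈ range R, z ^ r / (r.factorial : ℝ) * ((S a n (Pm a r) : ℚ) : ℝ) = 0 := by
    refine sum_eq_zero (fun r hr => ?_)
    have hr' := mem_range.mp hr
    rw [S_main a ha (R + 1) n hn r (by omega), if_neg (by omega)]
    simp
  rw [← add_zero (∑ j, Ac a n z j * Real.exp ((a j : ℝ) * z)), ← h0, ← hasSum_nat_add_iff R] at h1
  have h2 : HasSum (fun m : ℕ => (z * (1 + h)) ^ m / m.factorial) (Real.exp (z * (1 + h))) := by
    rw [Real.exp_eq_exp_ℝ]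
    exact NormedSpace.expSeries_div_hasSum_exp (z * (1 + h))
  have h3 := h2.mul_left (Fintype.card ι * K * ((z * (1 + h)) ^ R / R.factorial))
  refine h1.norm_le_of_bounded h3 (fun m => ?_)
  rw [Real.norm_eq_abs, abs_mul, abs_of_nonneg (by positivity : (0 : ℝ) ≤ z ^ (m + R) /
    ((m + R).factorial : ℝ))]
  have h4 := abs_S_le a n K h hK hKb ha0 hah (m + R)
  have hfac : (R.factorial : ℝ) * m.factorial ≤ (m + R).factorial := by
    have := Nat.factorial_mul_factorial_dvd_factorial_add R m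
    rw [add_comm R m] at this
    exact_mod_cast Nat.le_of_dvd (Nat.factorial_pos _) this
  have hR0 : (0 : ℝ) < R.factorial := by exact_mod_cast R.factorial_pos
  have hm0 : (0 : ℝ) < m.factorial := by exact_mod_cast m.factorial_pos
  calc z ^ (m + R) / ((m + R).factorial : ℝ) * |((S a n (Pm a (m + R)) : ℚ) : ℝ)|
      ≤ z ^ (m + R) / ((R.factorial : ℝ) * m.factorial) *
          (Fintype.card ι * K * (1 + h) ^ (m + R)) := by
        apply mul_le_mul _ h4 (abs_nonneg _) (by positivity)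
        exact div_le_div_of_nonneg_left (by positivity) (by positivity) hfac
    _ = Fintype.card ι * K * ((z * (1 + h)) ^ R / R.factorial) *
          ((z * (1 + h)) ^ m / m.factorial) := by
        rw [pow_add, pow_add, mul_pow, mul_pow]
        field_simp

end

end Pool.Agent.ExpPowI
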