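import Pool.Agent.ExpPowI.Series

/-! Sum of residues of `p / ∏ (t - a_l)^{n_l}` for polynomials `p` of small degree. -/

namespace Pool.Agent.ExpPowI

open PowerSeries Finset

variable {ι : Type*} [Fintype ι] [DecidableEq ι]

/-- coefficient of `u^{m-1}` (zero for `m = 0`). -/
noncomputable def res (m : ℕ) (f : ℚ⟦X⟧) : ℚ := if m = 0 then 0 else coeff (m - 1) f

lemma res_mul_X {m : ℕ} (hm : m ≠ 0) (f : ℚ⟦X⟧) : res m (f * X) = res (m - 1) f := by
  obtain ⟨m, rfl⟩ := Nat.exists_eq_succ_of_ne_zero hm
  unfold res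
  simp only [Nat.succ_eq_add_one, Nat.add_sub_cancel, Nat.add_eq_zero_iff, one_ne_zero, and_false,
    if_false]
  rcases m with _ | m
  · simp
  · simp [coeff_succ_mul_X]

lemma res_add (m : ℕ) (f g : ℚ⟦X⟧) : res m (f + g) = res m f + res m g := by
  unfold res
  split_ifs <;> simp

lemma res_sub (m : ℕ) (f g : ℚ⟦X⟧) : res m (f - g) = res m f - res m g := by
  unfold res
  split_ifs <;> simp

lemma res_C_mul (m : ℕ) (c : ℚ) (f : ℚ⟦X⟧) : res m (C c * f) = c * res m f := by
  unfold res
  split_ifs <;> simp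

/-- local inverse of `∏_{l ≠ j} (t - a_l)^{n_l}` at `t = a_j + u`. -/
noncomputable def F (a : ι → ℚ) (n : ι → ℕ) (j : ι) : ℚ⟦X⟧ :=
  ∏ l ∈ univ.erase j, gi (a j - a l) ^ n l

/-- sum of residues for a family `P` of local expansions -/
noncomputable def S (a : ι → ℚ) (n : ι → ℕ) (P : ι → ℚ⟦X⟧) : ℚ :=
  ∑ j, res (n j) (F a n j * P j)

/-- decrease the multiplicity at `i`. -/
def dec (n : ι → ℕ) (i : ι) : ι → ℕ := Function.update n i (n i - 1)

omit [Fintype ι] in
lemma dec_same (n : ι → ℕ) (i : ι) : dec n i i = n i - 1 := by simp [dec]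

omit [Fintype ι] in
lemma dec_ne (n : ι → ℕ) {i j : ι} (h : j ≠ i) : dec n i j = n j := by simp [dec, h]

lemma sum_dec (n : ι → ℕ) {i : ι} (h : n i ≠ 0) : (∑ j, dec n i j) + 1 = ∑ j, n j := by
  have h1 : ∑ j ∈ univ.erase i, dec n i j = ∑ j ∈ univ.erase i, n j :=
    sum_congr rfl (fun j hj => dec_ne n (ne_of_mem_erase hj))
  rw [← add_sum_erase _ _ (mem_univ i), ← add_sum_erase (f := n) _ (mem_univ i), h1, dec_same]
  omega

lemma F_dec_same (a : ι → ℚ) (n : ι → ℕ) (i : ι) : F a (dec n i) i = F a n i := by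
  unfold F
  exact prod_congr rfl (fun l hl => by rw [dec_ne n (ne_of_mem_erase hl)])

lemma F_mul (a : ι → ℚ) (ha : Function.Injective a) (n : ι → ℕ) {i j : ι} (hij : j ≠ i)
    (hi : n i ≠ 0) : F a n j * (X + C (a j - a i)) = F a (dec n i) j := by
  have hmem : i ∈ univ.erase j := mem_erase.mpr ⟨hij.symm, mem_univ i⟩
  unfold F
  rw [← mul_prod_erase _ _ hmem, ← mul_prod_erase (univ.erase j) _ hmem]
  have h1 : ∏ l ∈ (univ.erase j).erase i, gi (a j - a l) ^ dec n i l =
      ∏ l ∈ (univ.erase j).erase i, gi (a j - a l) ^ n l :=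
    prod_congr rfl (fun l hl => by rw [dec_ne n (ne_of_mem_erase hl)])
  rw [h1, dec_same]
  obtain ⟨m, hm⟩ := Nat.exists_eq_succ_of_ne_zero hi
  have hne : a j - a i ≠ 0 := sub_ne_zero.mpr (fun h => hij (ha h))
  have h2 := gi_mul hne
  rw [hm, Nat.succ_eq_add_one, Nat.add_sub_cancel, pow_succ]
  calc gi (a j - a i) ^ m * gi (a j - a i) *
        (∏ l ∈ (univ.erase j).erase i, gi (a j - a l) ^ n l) * (X + C (a j - a i))
      = gi (a j - a i) ^ m * (∏ l ∈ (univ.erase j).erase i, gi (a j - a l) ^ n l) *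
          (gi (a j - a i) * (X + C (a j - a i))) := by ring
    _ = _ := by rw [h2, mul_one]

lemma S_shift (a : ι → ℚ) (ha : Function.Injective a) (n : ι → ℕ) {i : ι} (hi : n i ≠ 0)
    (P : ι → ℚ⟦X⟧) : S a n (fun j => P j * (X + C (a j - a i))) = S a (dec n i) P := by
  unfold S
  refine sum_congr rfl (fun j _ => ?_)
  beta_reduce
  by_cases hij : j = i
  · subst hij
    rw [sub_self, map_zero, add_zero, ← mul_assoc, res_mul_X hi, dec_same, F_dec_same]
  · rw [dec_ne n hij, ← F_mul a ha n hij hi]
    congr 1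
    ring

lemma S_add (a : ι → ℚ) (n : ι → ℕ) (P Q : ι → ℚ⟦X⟧) :
    S a n (fun j => P j + Q j) = S a n P + S a n Q := by
  unfold S
  rw [← sum_add_distrib]
  exact sum_congr rfl (fun j _ => by rw [mul_add, res_add])

lemma S_C_mul (a : ι → ℚ) (n : ι → ℕ) (c : ℚ) (P : ι → ℚ⟦X⟧) :
    S a n (fun j => C c * P j) = c * S a n P := by
  unfold S
  rw [mul_sum]
  refine sum_congr rfl (fun j _ => ?_)
  rw [← res_C_mul]
  congr 1
  ring

/-- local expansions of `t^r` -/
noncomputable def Pm (a : ι → ℚ) (r : ℕ) : ι → ℚ⟦X⟧ := fun j => (X + C (a j)) ^ r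

lemma coeff_Pm (c : ℚ) (r m : ℕ) :
    coeff m ((X + C c : ℚ⟦X⟧) ^ r) = (r.choose m : ℚ) * c ^ (r - m) := by
  have h : ((X + C c : ℚ⟦X⟧) ^ r) = (((Polynomial.X + Polynomial.C c) ^ r : Polynomial ℚ) : ℚ⟦X⟧) := by
    simp
  rw [h, Polynomial.coeff_coe, Polynomial.coeff_X_add_C_pow]
  ring

lemma S_main (a : ι → ℚ) (ha : Function.Injective a) (M : ℕ) :
    ∀ n : ι → ℕ, (∑ j, n j) = M → ∀ r : ℕ, r < M → S a n (Pm a r) = if r + 1 = M then 1 else 0 := by
  induction M with
  | zero => intro n _ r hr; exact absurd hr (Nat.not_lt_zero r)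
  | succ M ih =>
    intro n hn r hr
    by_cases hex : ∃ i j, i ≠ j ∧ n i ≠ 0 ∧ n j ≠ 0
    · obtain ⟨i, j, hij, hi, hj⟩ := hex
      have hMi : ∑ l, dec n i l = M := by have := sum_dec n hi; omega
      have hMj : ∑ l, dec n j l = M := by have := sum_dec n hj; omega
      have hM1 : 1 ≤ M := by
        by_contra h
        have h0 : M = 0 := by omega
        have h1 := single_le_sum (f := dec n i) (fun _ _ => Nat.zero_le _) (mem_univ j)
        rw [dec_ne n hij.symm] at h1
        rw [hMi, h0] at h1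
        omega
      have hne : a j - a i ≠ 0 := sub_ne_zero.mpr (fun h => hij (ha h).symm)
      -- the identity (a_j - a_i) S(P; n) = S(P; n - e_i) - S(P; n - e_j)
      have key : ∀ r, (a j - a i) * S a n (Pm a r) =
          S a (dec n i) (Pm a r) - S a (dec n j) (Pm a r) := by
        intro r
        rw [← S_shift a ha n hi, ← S_shift a ha n hj, ← S_C_mul, eq_sub_iff_add_eq, ← S_add]
        congr 1
        funext l
        have : (C (a j - a i) : ℚ⟦X⟧) + (X + C (a l - a j)) = X + C (a l - a i) := by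
          rw [map_sub, map_sub, map_sub]
          ring
        rw [← this]
        ring
      have hlow : ∀ r, r < M → S a n (Pm a r) = 0 := by
        intro r hr
        have h1 := key r
        rw [ih _ hMi r hr, ih _ hMj r hr, sub_self] at h1
        exact (mul_eq_zero.mp h1).resolve_left hne
      by_cases hrM : r + 1 = M + 1
      · rw [if_pos hrM]
        have hr' : r = (M - 1) + 1 := by omega
        have h2 : S a n (Pm a r) = S a n (fun l => Pm a (M - 1) l * (X + C (a l - a i))) +
            S a n (fun l => C (a i) * Pm a (M - 1) l) := by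
          rw [← S_add, hr']
          congr 1
          funext l
          unfold Pm
          rw [pow_succ, map_sub]
          ring
        rw [h2, S_shift a ha n hi, S_C_mul, ih _ hMi (M - 1) (by omega), hlow (M - 1) (by omega),
          if_pos (by omega)]
        ring
      · rw [if_neg hrM]
        exact hlow r (by omega)
    · -- all multiplicities but one vanish
      have hsum : ∃ j, n j ≠ 0 := by
        by_contra h
        push Not at h
        simp [h] at hn
      obtain ⟨j, hj⟩ := hsum
      have h0 : ∀ l, l ≠ j → n l = 0 := by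
        intro l hl
        by_contra h
        exact hex ⟨l, j, hl, h, hj⟩
      have hnj : n j = M + 1 := by
        rw [← hn, ← add_sum_erase _ _ (mem_univ j)]
        have : ∑ l ∈ univ.erase j, n l = 0 :=
          sum_eq_zero (fun l hl => h0 l (ne_of_mem_erase hl))
        omega
      have hF : F a n j = 1 := by
        unfold F
        exact prod_eq_one (fun l hl => by rw [h0 l (ne_of_mem_erase hl), pow_zero])
      have hS : S a n (Pm a r) = coeff M (Pm a r j) := by
        unfold S
        rw [← add_sum_erase _ _ (mem_univ j)]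
        have h1 : ∑ l ∈ univ.erase j, res (n l) (F a n l * Pm a r l) = 0 := by
          refine sum_eq_zero (fun l hl => ?_)
          rw [h0 l (ne_of_mem_erase hl)]
          simp [res]
        rw [h1, hF, one_mul, hnj, add_zero]
        simp [res]
      rw [hS]
      unfold Pm
      rw [coeff_Pm]
      by_cases hrM : r + 1 = M + 1
      · have : r = M := by omega
        subst this
        simp
      · rw [if_neg hrM, Nat.choose_eq_zero_of_lt (by omega)]
        simp

end Pool.Agent.ExpPowI
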