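import Mathlib

/-! Power series tools for type I Hermite-Padé forms with arbitrary integer nodes:
the inverse `gi d` of `X + d`, a growth predicate and an integrality predicate. -/

namespace Pool.Agent.ExpPowI

open PowerSeries Finset

/-- the inverse of `X + C d`. -/
noncomputable def gi (d : ℚ) : ℚ⟦X⟧ := PowerSeries.mk (fun m => (-1) ^ m * (d⁻¹) ^ (m + 1))

lemma coeff_gi (d : ℚ) (m : ℕ) : coeff m (gi d) = (-1) ^ m * (d⁻¹) ^ (m + 1) := by
  simp [gi]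

lemma gi_mul {d : ℚ} (hd : d ≠ 0) : gi d * (X + C d) = 1 := by
  ext m
  rw [mul_add, map_add]
  rcases m with _ | m
  · simp only [coeff_zero_mul_X, coeff_mul_C, coeff_gi]
    simp [hd]
  · rw [coeff_succ_mul_X, coeff_mul_C, coeff_gi, coeff_gi, coeff_one]
    simp only [Nat.add_eq_zero_iff, one_ne_zero, and_false, if_false]
    have h1 : d⁻¹ ^ (m + 1 + 1) * d = d⁻¹ ^ (m + 1) := by
      rw [pow_succ, mul_assoc, inv_mul_cancel₀ hd, mul_one]
    rw [mul_assoc, h1, pow_succ]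
    ring

/-- growth predicate -/
def Bd (c : ℚ) (f : ℚ⟦X⟧) : Prop := ∀ m, |coeff m f| ≤ c * 2 ^ m

lemma Bd.one : Bd 1 (1 : ℚ⟦X⟧) := by
  intro m
  rw [coeff_one]
  split_ifs with h
  · simp [h]
  · simp

lemma Bd.nonneg {c : ℚ} {f : ℚ⟦X⟧} (h : Bd c f) : 0 ≤ c := by
  have := h 0
  simp only [pow_zero, mul_one] at this
  exact le_trans (abs_nonneg _) this

lemma Bd.mul_gi {c d : ℚ} {f : ℚ⟦X⟧} (h : Bd c f) (hd : 1 ≤ |d|) :
    Bd (c * (2 * |d|⁻¹)) (f * gi d) := by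
  intro m
  have hc := h.nonneg
  have hd0 : 0 < |d| := lt_of_lt_of_le one_pos hd
  have hi0 : 0 ≤ |d|⁻¹ := inv_nonneg.mpr hd0.le
  have hi1 : |d|⁻¹ ≤ 1 := inv_le_one_of_one_le₀ hd
  rw [coeff_mul]
  calc |∑ p ∈ antidiagonal m, coeff p.1 f * coeff p.2 (gi d)|
      ≤ ∑ p ∈ antidiagonal m, |coeff p.1 f * coeff p.2 (gi d)| := abs_sum_le_sum_abs _ _
    _ ≤ ∑ p ∈ antidiagonal m, (c * |d|⁻¹) * 2 ^ p.1 := by
        refine sum_le_sum (fun p _ => ?_)
        rw [abs_mul, coeff_gi, abs_mul, abs_pow, abs_neg, abs_one, one_pow, one_mul, abs_pow,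
          abs_inv]
        have h1 : |d|⁻¹ ^ (p.2 + 1) ≤ |d|⁻¹ := by
          rw [pow_succ]
          calc |d|⁻¹ ^ p.2 * |d|⁻¹ ≤ 1 * |d|⁻¹ := by
                apply mul_le_mul_of_nonneg_right _ hi0
                exact pow_le_one₀ hi0 hi1
            _ = |d|⁻¹ := one_mul _
        calc |coeff p.1 f| * |d|⁻¹ ^ (p.2 + 1) ≤ (c * 2 ^ p.1) * |d|⁻¹ :=
              mul_le_mul (h _) h1 (by positivity) (by positivity)
          _ = (c * |d|⁻¹) * 2 ^ p.1 := by ring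
    _ = (c * |d|⁻¹) * ∑ p ∈ antidiagonal m, 2 ^ p.1 := by rw [mul_sum]
    _ ≤ (c * |d|⁻¹) * 2 ^ (m + 1) := by
        apply mul_le_mul_of_nonneg_left _ (by positivity)
        rw [Finset.Nat.sum_antidiagonal_eq_sum_range_succ (fun i _ => (2 : ℚ) ^ i)]
        have : ∑ i ∈ range (m + 1), (2 : ℚ) ^ i = 2 ^ (m + 1) - 1 := by
          rw [geom_sum_eq (by norm_num)]
          ring
        rw [Nat.succ_eq_add_one, this]
        linarith
    _ = c * (2 * |d|⁻¹) * 2 ^ m := by ring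

lemma Bd.mul_gi_pow {c d : ℚ} {f : ℚ⟦X⟧} (h : Bd c f) (hd : 1 ≤ |d|) (n : ℕ) :
    Bd (c * (2 * |d|⁻¹) ^ n) (f * gi d ^ n) := by
  induction n with
  | zero => simpa using h
  | succ n ih =>
    have h1 := ih.mul_gi hd
    have h2 : c * (2 * |d|⁻¹) ^ (n + 1) = c * (2 * |d|⁻¹) ^ n * (2 * |d|⁻¹) := by ring
    have h3 : f * gi d ^ (n + 1) = f * gi d ^ n * gi d := by ring
    rw [h2, h3]
    exact h1

lemma Bd.prod {ι : Type*} (s : Finset ι) (d : ι → ℚ) (n : ι → ℕ) (hd : ∀ l ∈ s, 1 ≤ |d l|) :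
    Bd (∏ l ∈ s, (2 * |d l|⁻¹) ^ n l) (∏ l ∈ s, gi (d l) ^ n l) := by
  classical
  induction s using Finset.induction_on with
  | empty => simpa using Bd.one
  | insert l s hl ih =>
    rw [prod_insert hl, prod_insert hl, mul_comm ((2 * |d l|⁻¹) ^ n l), mul_comm (gi (d l) ^ n l)]
    exact (ih (fun x hx => hd x (mem_insert_of_mem hx))).mul_gi_pow
      (hd l (mem_insert_self l s)) (n l)

/-- integrality predicate -/
def IS (L : ℚ) (f : ℚ⟦X⟧) : Prop := ∀ m, ∃ c : ℤ, (c : ℚ) = L ^ m * coeff m f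

lemma IS.one (L : ℚ) : IS L 1 := by
  intro m
  rw [coeff_one]
  split_ifs with h
  · exact ⟨1, by simp [h]⟩
  · exact ⟨0, by simp⟩

lemma IS.mul {L : ℚ} {f g : ℚ⟦X⟧} (hf : IS L f) (hg : IS L g) : IS L (f * g) := by
  intro m
  choose u hu using hf
  choose v hv using hg
  refine ⟨∑ p ∈ antidiagonal m, u p.1 * v p.2, ?_⟩
  rw [coeff_mul, mul_sum]
  push_cast
  refine sum_congr rfl (fun p hp => ?_)
  rw [hu, hv, ← mem_antidiagonal.mp hp, pow_add]
  ring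

lemma IS.pow {L : ℚ} {f : ℚ⟦X⟧} (hf : IS L f) (n : ℕ) : IS L (f ^ n) := by
  induction n with
  | zero => simpa using IS.one L
  | succ n ih => rw [pow_succ]; exact ih.mul hf

lemma IS.prod {ι : Type*} {L : ℚ} (s : Finset ι) (f : ι → ℚ⟦X⟧) (h : ∀ l ∈ s, IS L (f l)) :
    IS L (∏ l ∈ s, f l) := by
  classical
  induction s using Finset.induction_on with
  | empty => simpa using IS.one L
  | insert l s hl ih =>
    rw [prod_insert hl]
    exact (h l (mem_insert_self l s)).mul (ih (fun x hx => h x (mem_insert_of_mem hx)))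

lemma IS.gi {L d : ℤ} (hd : d ≠ 0) (hL : d ∣ L) : IS (L : ℚ) (C (d : ℚ) * gi (d : ℚ)) := by
  intro m
  obtain ⟨e, rfl⟩ := hL
  refine ⟨(-e) ^ m, ?_⟩
  have hd' : (d : ℚ) ≠ 0 := by exact_mod_cast hd
  rw [coeff_C_mul, coeff_gi]
  push_cast
  rw [inv_pow, pow_succ]
  field_simp
  rw [neg_pow, mul_pow]
  ring

end Pool.Agent.ExpPowI
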