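import Pool.Agent.ExpPowI.Window

/-! Dense subsets of short windows `[n, n + h]`, `h ≤ log n`. -/

namespace Pool.Agent.ExpPowI

open Finset Filter

lemma short_hR {n l N k h : ℝ} (hk : 1 ≤ k) (hkh : k ≤ h) (hh2k : h ≤ 2 * k) (hhl : h ≤ l)
    (hl : 40000 ≤ l) (hN : 105 / 100 * n ≤ N * (k * l)) (hlN : l ^ 2 ≤ N / 100)
    (hlogN : 98 / 100 * l ≤ Real.log N) :
    n + N * Real.log N + (N + 1) * (h * Real.log h) + N * (6 * h) + k + (k + 1) * (N + 1) +
      (k + 1) * N * (Real.log (1 * (1 + h)) + 1 - Real.log ((k + 1) * N)) + 1 * (1 + h) ≤ -1 := by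
  have hlsq : l ≤ l ^ 2 := by nlinarith
  have hN1 : 1 ≤ N := by linarith
  have hN0 : 0 ≤ N := by linarith
  have hh1 : 1 ≤ h := hk.trans hkh
  have hlogprod : Real.log ((k + 1) * N) = Real.log (k + 1) + Real.log N :=
    Real.log_mul (by linarith) (by linarith)
  have hlogh : 0 ≤ Real.log h := Real.log_nonneg hh1
  have hloghl : Real.log h ≤ l / 100 :=
    (Real.log_le_log (by linarith) hhl).trans (log_le_small hl)
  have hq : (k + 1) * (Real.log (1 * (1 + h)) - Real.log (k + 1)) ≤ h - k := by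
    have h1 : Real.log (1 * (1 + h)) - Real.log (k + 1) ≤ (h - k) / (k + 1) := by
      rw [← Real.log_div (by positivity) (by positivity)]
      refine (Real.log_le_sub_one_of_pos (by positivity)).trans (le_of_eq ?_)
      field_simp
      ring
    have h2 : (k + 1) * (Real.log (1 * (1 + h)) - Real.log (k + 1)) ≤
        (k + 1) * ((h - k) / (k + 1)) := mul_le_mul_of_nonneg_left h1 (by linarith)
    have h3 : (k + 1) * ((h - k) / (k + 1)) = h - k := by
      field_simp
    linarith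
  rw [hlogprod]
  have hq' : N * ((k + 1) * (Real.log (1 * (1 + h)) - Real.log (k + 1))) ≤ N * (h - k) :=
    mul_le_mul_of_nonneg_left hq hN0
  have h1 : h * Real.log h ≤ l ^ 2 := by
    have := mul_le_mul hhl (hloghl.trans (by linarith : l / 100 ≤ l)) hlogh (by linarith)
    nlinarith
  have h2 : N * (h * Real.log h) ≤ N * (2 * k * (l / 100)) :=
    mul_le_mul_of_nonneg_left (mul_le_mul hh2k hloghl hlogh (by linarith)) hN0
  have h3 : (k * N) * (98 / 100 * l) ≤ (k * N) * Real.log N :=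
    mul_le_mul_of_nonneg_left hlogN (by positivity)
  have h5 : 1 * N ≤ k * N := mul_le_mul_of_nonneg_right hk hN0
  have h6 : (k * N) * 40000 ≤ (k * N) * l := mul_le_mul_of_nonneg_left hl (by positivity)
  have h7 : N * h ≤ N * (2 * k) := mul_le_mul_of_nonneg_left hh2k hN0
  have hA : n + N * Real.log N + (N + 1) * (h * Real.log h) + N * (6 * h) + k +
      (k + 1) * (N + 1) + (k + 1) * N * (Real.log (1 * (1 + h)) + 1 -
        (Real.log (k + 1) + Real.log N)) + 1 * (1 + h) ≤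
      n - (k * N) * Real.log N + N * (h * Real.log h) + N * (7 * h) + k * N + 3 * N := by
    nlinarith
  refine hA.trans ?_
  nlinarith

lemma short_exponent {n l N k h : ℝ} (hk : 1 ≤ k) (hkh : k ≤ h) (hhl : h ≤ l)
    (hl : 40000 ≤ l) (hN : N * (k * l) ≤ 105 / 100 * n + 4 * h * (k * l)) (hN0 : 0 ≤ N)
    (hlN : l ^ 2 ≤ N / 100) (hlogN : Real.log N ≤ l) (hln : l ^ 4 ≤ n) :
    N * Real.log N + 1 + h * Real.log h + N * (h + (h - k) * Real.log h) + N * (6 * h) +
      (k + 1) * (N + 1) + l ≤ 10 * n / k * (1 + (h - k) * Real.log h / l) := by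
  have hk0 : 0 < k := by linarith
  have hl0 : 0 < l := by linarith
  have hh1 : 1 ≤ h := hk.trans hkh
  have hn0 : 0 ≤ n := le_trans (by positivity) hln
  have hlsq : l ≤ l ^ 2 := by nlinarith
  have hlogh : 0 ≤ Real.log h := Real.log_nonneg hh1
  have hloghl : Real.log h ≤ l / 100 :=
    (Real.log_le_log (by linarith) hhl).trans (log_le_small hl)
  have h1 : N * Real.log N ≤ N * l := mul_le_mul_of_nonneg_left hlogN hN0
  have h2 : h * Real.log h ≤ l ^ 2 := by
    have := mul_le_mul hhl (hloghl.trans (by linarith : l / 100 ≤ l)) hlogh (by linarith)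
    nlinarith
  set u := (h - k) * Real.log h with hu
  have hu0 : 0 ≤ u := mul_nonneg (by linarith) hlogh
  have h3 : N * k ≤ N * l := mul_le_mul_of_nonneg_left (by linarith) hN0
  have h4 : N * h ≤ N * l := mul_le_mul_of_nonneg_left hhl hN0
  have h6 : N * Real.log N + 1 + h * Real.log h + N * (h + u) + N * (6 * h) +
      (k + 1) * (N + 1) + l ≤ N * (9 * l + u + 2) := by
    nlinarith
  refine h6.trans ?_
  have hR : 10 * n / k * (1 + u / l) = 10 * n * (l + u) / (k * l) := by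
    field_simp
  rw [hR, le_div_iff₀ (by positivity)]
  have h9 : h * (k * l) ≤ l ^ 3 := by
    have h10 : h * k ≤ l * l := mul_le_mul hhl (by linarith) hk0.le hl0.le
    nlinarith
  have h11 : l ^ 3 * 40000 ≤ l ^ 3 * l := mul_le_mul_of_nonneg_left hl (by positivity)
  have h12 : l ^ 3 * l = l ^ 4 := by ring
  have h13 : N * (k * l) ≤ 106 / 100 * n := by linarith
  have h14 : N * (k * l) * (9 * l + u + 2) ≤ 106 / 100 * n * (9 * l + u + 2) :=
    mul_le_mul_of_nonneg_right h13 (by positivity)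
  have h15 : n * u ≥ 0 := by positivity
  have h16 : n * 40000 ≤ n * l := mul_le_mul_of_nonneg_left hl hn0
  nlinarith

lemma div_log_mono {x y : ℝ} (hx : Real.exp 1 ≤ x) (hxy : x ≤ y) :
    x / Real.log x ≤ y / Real.log y := by
  have h0 : 0 < x := (Real.exp_pos 1).trans_le hx
  have hlx : 1 ≤ Real.log x := by rwa [Real.le_log_iff_exp_le h0]
  have hly : Real.log x ≤ Real.log y := Real.log_le_log h0 hxy
  have hdiv : Real.log y / y ≤ Real.log x / x :=
    Real.log_div_self_antitoneOn (by simpa using hx) (by simpa using hx.trans hxy) hxy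
  have h1 : 0 < Real.log y / y := div_pos (by linarith) (by linarith)
  have h2 := inv_anti₀ h1 hdiv
  rwa [inv_div, inv_div] at h2

/-- `k + 1` integers of a window of length `h ≤ min (2k, log n)`. -/
theorem short_core : ∃ n₀ : ℕ, 1 ≤ n₀ ∧ ∀ n : ℕ, n₀ ≤ n → ∀ k h : ℕ, 1 ≤ k → k ≤ h →
    h ≤ 2 * k → (h : ℝ) ≤ Real.log n →
    ∀ a : Fin (k + 1) → ℤ, Function.Injective a → (∀ j, 0 ≤ a j) → (∀ j, a j ≤ h) →
    ∀ ε : ℝ, (∀ j, distToNearestInt (Real.exp ((n : ℝ) + a j)) ≤ ε) →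
    Real.exp (-(10 * n / k * (1 + ((h : ℝ) - k) * Real.log h / Real.log n))) ≤ ε := by
  obtain ⟨n₀, hn₀1, hn₀⟩ := exists_log_large 40000 6
  refine ⟨n₀, hn₀1, ?_⟩
  intro n hn k h hk1 hkh hh2k hhl a ha ha0 hah ε hε
  obtain ⟨hl, hl6⟩ := hn₀ n hn
  set l := Real.log n with hldef
  have hn1 : 1 ≤ n := hn₀1.trans hn
  have hn0 : (0 : ℝ) < n := by exact_mod_cast hn1
  have hl0 : 0 < l := by linarith
  have hl1 : 1 ≤ l := by linarith
  have hh1 : 1 ≤ h := hk1.trans hkh
  have hkR : (1 : ℝ) ≤ k := by exact_mod_cast hk1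
  have hhR : (1 : ℝ) ≤ h := by exact_mod_cast hh1
  have hkhR : (k : ℝ) ≤ h := by exact_mod_cast hkh
  have hh2kR : (h : ℝ) ≤ 2 * k := by exact_mod_cast hh2k
  have hkl : (k : ℝ) ≤ l := hkhR.trans hhl
  have hkl0 : (0 : ℝ) < k * l := by positivity
  obtain ⟨p, N, hp, hpN, hN1, hhp, -, hNX1, hNX2⟩ := exists_N
    (X := 105 / 100 * n / (k * l)) (by positivity) hh1 (le_refl 1) (Nat.mul_pos hh1 hh1)
  have hN0 : (0 : ℝ) < N := by exact_mod_cast hN1
  have hNk : 105 / 100 * (n : ℝ) ≤ N * (k * l) := by rwa [div_le_iff₀ hkl0] at hNX1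
  have hNle : (N : ℝ) * (k * l) ≤ 105 / 100 * n + 4 * h * (k * l) := by
    have h1 := mul_le_mul_of_nonneg_right hNX2 hkl0.le
    rw [add_mul, div_mul_cancel₀ _ hkl0.ne'] at h1
    exact h1
  have hkll : (k : ℝ) * l ≤ l ^ 2 := by nlinarith
  have hl2 : 0 < l ^ 2 := by positivity
  have hNl2 : (n : ℝ) ≤ N * l ^ 2 := by
    have := mul_le_mul_of_nonneg_left hkll hN0.le
    linarith
  have hl4n : l ^ 4 ≤ (n : ℝ) := (pow_le_pow_right₀ hl1 (by norm_num)).trans hl6
  have hlN : l ^ 2 ≤ N / 100 := by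
    have h3 : (100 * l ^ 2) * l ^ 2 ≤ N * l ^ 2 := by
      have h4 : 100 * l ^ 4 ≤ l ^ 6 := by
        calc 100 * l ^ 4 ≤ l * l ^ 4 := mul_le_mul_of_nonneg_right (by linarith) (by positivity)
          _ = l ^ 5 := by ring
          _ ≤ l ^ 6 := pow_le_pow_right₀ hl1 (by norm_num)
      calc (100 * l ^ 2) * l ^ 2 = 100 * l ^ 4 := by ring
        _ ≤ l ^ 6 := h4
        _ ≤ n := hl6
        _ ≤ N * l ^ 2 := hNl2
    have h2 := le_of_mul_le_mul_right h3 hl2
    linarith
  have hlsq : l ≤ l ^ 2 := by nlinarith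
  have hNlen : (N : ℝ) ≤ n := by
    have h1 : (1 : ℝ) * 40000 ≤ k * l := mul_le_mul hkR hl (by norm_num) (by linarith)
    by_contra hcon
    rw [not_le] at hcon
    have h3 : (n : ℝ) * (k * l) ≤ N * (k * l) := mul_le_mul_of_nonneg_right hcon.le hkl0.le
    have h4 : (n : ℝ) * 40000 ≤ n * (k * l) := mul_le_mul_of_nonneg_left (by linarith) hn0.le
    have h5 : (h : ℝ) * (k * l) ≤ l * (k * l) := mul_le_mul_of_nonneg_right hhl hkl0.le
    have h6 : l * (k * l) ≤ l * l ^ 2 := mul_le_mul_of_nonneg_left hkll hl0.le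
    have h7 : l * l ^ 2 ≤ l ^ 4 := by
      calc l * l ^ 2 = l ^ 3 := by ring
        _ ≤ l ^ 4 := pow_le_pow_right₀ hl1 (by norm_num)
    linarith
  have hlogN1 : 98 / 100 * l ≤ Real.log N := by
    have h1 : l ≤ Real.log (N * l ^ 2) := Real.log_le_log hn0 hNl2
    rw [Real.log_mul hN0.ne' hl2.ne', Real.log_pow] at h1
    push_cast at h1
    have := log_le_small hl
    linarith
  have hlogN2 : Real.log N ≤ l := Real.log_le_log hN0 hNlen
  have hpD : ¬ p ∣ h.factorial := by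
    intro hdvd
    exact absurd (hp.dvd_factorial.mp hdvd) (by omega)
  have hpL : ¬ p ∣ Nat.lcmUpto h := fun hdvd => hpD (hdvd.trans (Nat.lcmUpto_dvd_factorial h))
  have hfac : ((h.factorial : ℕ) : ℝ) ≤ Real.exp (h * Real.log h) := factorial_le_exp hh1
  have h2G : ((2 ^ h * h ^ (h - k) : ℕ) : ℝ) ≤ Real.exp (h + ((h : ℝ) - k) * Real.log h) := by
    push_cast
    have h1 : (2 : ℝ) ≤ Real.exp 1 := by
      have := Real.add_one_le_exp (1 : ℝ)
      linarith
    have h2 : (2 : ℝ) ^ h ≤ Real.exp h := by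
      calc (2 : ℝ) ^ h ≤ (Real.exp 1) ^ h := pow_le_pow_left₀ (by norm_num) h1 _
        _ = Real.exp h := by rw [← Real.exp_nat_mul, mul_one]
    have h3 : (h : ℝ) ^ (h - k) = Real.exp (((h : ℝ) - k) * Real.log h) := by
      rw [← Real.rpow_natCast, Real.rpow_def_of_pos (by linarith), Nat.cast_sub hkh, mul_comm]
    rw [Real.exp_add, h3]
    gcongr
  set x : Fin (k + 1) → ℤ := fun j => round (Real.exp ((n : ℝ) + a j)) with hx
  have hx0 : x ≠ 0 := by
    intro h0
    have h1 : x 0 = 0 := by rw [h0]; rfl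
    have h2 : |Real.exp ((n : ℝ) + a 0) - round (Real.exp ((n : ℝ) + a 0))| ≤ 1 / 2 :=
      abs_sub_round _
    have h3 : round (Real.exp ((n : ℝ) + a 0)) = 0 := h1
    rw [h3] at h2
    have h4 : (0 : ℝ) ≤ a 0 := by exact_mod_cast ha0 0
    have h5 : (1 : ℝ) ≤ Real.exp ((n : ℝ) + a 0) := Real.one_le_exp (by positivity)
    have h6 := le_abs_self (Real.exp ((n : ℝ) + a 0) - ((0 : ℤ) : ℝ))
    push_cast at h6 h2
    linarith
  have hkey := key (k := k) (N := N) (p := p) (z := 1) (h := h) (h.factorial) (Nat.lcmUpto h)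
    (2 ^ h * h ^ (h - k)) (h * Real.log h) (6 * h) (h + ((h : ℝ) - k) * Real.log h) n ε a ha
    ha0 hah le_rfl
    (fun j => dp_dvd_factorial a ha ha0 hah j) (fun j l hjl => diff_dvd_lcm a ha ha0 hah j l hjl)
    (fun j => factorial_le_dp a ha ha0 hah j)
    hfac (lcmUpto_le_exp h) h2G hp hpN hN1
    (by
      intro hdvd
      have := Nat.le_of_dvd one_pos hdvd
      have := hp.two_le
      omega)
    hpD hpL x hx0
    (fun j => by
      have h1 := hε j
      unfold distToNearestInt at h1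
      simpa using h1)
    (by
      have h1 := short_hR (n := (n : ℝ)) (l := l) (N := (N : ℝ)) (k := (k : ℝ)) (h := (h : ℝ))
        hkR hkhR hh2kR hhl hl hNk hlN hlogN1
      simpa using h1)
  have hexp := short_exponent (n := (n : ℝ)) (l := l) (N := (N : ℝ)) (k := (k : ℝ))
    (h := (h : ℝ)) hkR hkhR hhl hl hNle hN0.le hlN hlogN2 hl4n
  have h2k : 2 * ((k : ℝ) + 1) ≤ Real.exp l := by
    have h1 : Real.exp l = n := by rw [hldef, Real.exp_log hn0]
    rw [h1]
    have h2 : 4 * l ^ 1 ≤ l * l ^ 1 := mul_le_mul_of_nonneg_right (by linarith) (by positivity)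
    have h3 : l * l ^ 1 ≤ l ^ 4 := by
      calc l * l ^ 1 = l ^ 2 := by ring
        _ ≤ l ^ 4 := pow_le_pow_right₀ hl1 (by norm_num)
    rw [pow_one] at h2 h3
    linarith
  have hε0 : 0 ≤ ε := le_trans (abs_nonneg _) (hε 0)
  rw [Nat.cast_one] at hkey
  set E := (N : ℝ) * Real.log N + 1 + h * Real.log h + N * (h + ((h : ℝ) - k) * Real.log h) +
    N * (6 * h) + (k + 1) * (N + 1) with hE
  have h8 : 1 ≤ ε * Real.exp (10 * n / k * (1 + ((h : ℝ) - k) * Real.log h / l)) := by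
    calc (1 : ℝ) ≤ 2 * (k + 1) * ε * Real.exp E := hkey
      _ = ε * ((2 * (k + 1)) * Real.exp E) := by ring
      _ ≤ ε * (Real.exp l * Real.exp E) := by gcongr
      _ = ε * Real.exp (E + l) := by
          rw [← Real.exp_add]
          congr 2
          ring
      _ ≤ ε * Real.exp (10 * n / k * (1 + ((h : ℝ) - k) * Real.log h / l)) := by gcongr
  rw [Real.exp_neg, inv_le_iff_one_le_mul₀ (Real.exp_pos _)]
  exact h8

/-- Among any `k + 1` integers of `[n, n + h]`, `k ≤ h ≤ min (2k, log n)`, there is `t` with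
`‖e^t‖ ≥ exp (-(10 n / k) (1 + (h - k) log h / log n))`. -/
theorem short_dense : ∃ n₀ : ℕ, 1 ≤ n₀ ∧ ∀ n : ℕ, n₀ ≤ n → ∀ k h : ℕ, 1 ≤ k → k ≤ h →
    h ≤ 2 * k → (h : ℝ) ≤ Real.log n → ∀ S : Finset ℕ, k + 1 ≤ S.card →
    (∀ t ∈ S, n ≤ t ∧ t ≤ n + h) → ∃ t ∈ S,
      Real.exp (-(10 * n / k * (1 + ((h : ℝ) - k) * Real.log h / Real.log n))) ≤
        distToNearestInt (Real.exp t) := by
  obtain ⟨n₀, hn1, hn₀⟩ := short_core
  refine ⟨n₀, hn1, ?_⟩
  intro n hn k h hk1 hkh hh2k hhl S hS hSw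
  obtain ⟨T, hTS, hT⟩ := Finset.exists_subset_card_eq hS
  have hmem : ∀ i, T.orderEmbOfFin hT i ∈ S := fun i => hTS (Finset.orderEmbOfFin_mem T hT i)
  set a : Fin (k + 1) → ℤ := fun j => ((T.orderEmbOfFin hT j : ℕ) : ℤ) - n with ha
  have hainj : Function.Injective a := by
    intro u v huv
    have h1 : ((T.orderEmbOfFin hT u : ℕ) : ℤ) = ((T.orderEmbOfFin hT v : ℕ) : ℤ) := by
      have : ((T.orderEmbOfFin hT u : ℕ) : ℤ) - n = ((T.orderEmbOfFin hT v : ℕ) : ℤ) - n := huv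
      linarith
    exact (T.orderEmbOfFin hT).injective (by exact_mod_cast h1)
  have haR : ∀ j, (n : ℝ) + (a j : ℝ) = ((T.orderEmbOfFin hT j : ℕ) : ℝ) := by
    intro j
    simp only [ha]
    push_cast
    ring
  obtain ⟨j, -, hj⟩ := exists_max_image (univ : Finset (Fin (k + 1)))
    (fun j => distToNearestInt (Real.exp ((n : ℝ) + a j))) univ_nonempty
  refine ⟨T.orderEmbOfFin hT j, hmem j, ?_⟩
  rw [← haR j]
  exact hn₀ n hn k h hk1 hkh hh2k hhl a hainj
    (fun j => by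
      have := (hSw _ (hmem j)).1
      simp only [ha]
      omega)
    (fun j => by
      have := (hSw _ (hmem j)).2
      simp only [ha]
      omega) _ (fun i => hj i (mem_univ _))

/-- Consecutive integers. -/
theorem short_max : ∃ n₀ : ℕ, 1 ≤ n₀ ∧ ∀ n : ℕ, n₀ ≤ n → ∀ k : ℕ, 1 ≤ k →
    (k : ℝ) ≤ Real.log n → ∃ t : ℕ, n ≤ t ∧ t ≤ n + k ∧
      Real.exp (-(10 * n / k)) ≤ distToNearestInt (Real.exp t) := by
  obtain ⟨n₀, hn1, hn₀⟩ := short_dense
  refine ⟨n₀, hn1, ?_⟩
  intro n hn k hk hkl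
  obtain ⟨t, ht, ht2⟩ := hn₀ n hn k k hk le_rfl (by omega) hkl (Finset.Icc n (n + k))
    (by rw [Nat.card_Icc]; omega) (fun t ht => Finset.mem_Icc.mp ht)
  rw [Finset.mem_Icc] at ht
  refine ⟨t, ht.1, ht.2, ?_⟩
  rwa [sub_self, zero_mul, zero_div, add_zero, mul_one] at ht2

/-- At least `log n / log log n` of the integers `t` of `[n, n + log n]` satisfy
`‖e^t‖ ≥ exp (-22 t / log t)`. -/
theorem short_many : ∃ n₀ : ℕ, ∀ n : ℕ, n₀ ≤ n → ∀ S : Finset ℕ,
    (∀ t : ℕ, n ≤ t → (t : ℝ) ≤ n + Real.log n →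
      Real.exp (-(22 * (t / Real.log t))) ≤ distToNearestInt (Real.exp t) → t ∈ S) →
    Real.log n / Real.log (Real.log n) ≤ S.card := by
  classical
  obtain ⟨n₀, hn1, hn₀⟩ := short_dense
  obtain ⟨n₁, hn₁1, hn₁⟩ := exists_log_large (max 1000000 (Real.exp 12)) 1
  refine ⟨max n₀ n₁, ?_⟩
  intro n hn S hS
  obtain ⟨hlK, -⟩ := hn₁ n ((le_max_right _ _).trans hn)
  set l := Real.log n with hl
  have hl6 : 1000000 ≤ l := (le_max_left _ _).trans hlK
  have hl12 : Real.exp 12 ≤ l := (le_max_right _ _).trans hlK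
  have hl0 : 0 < l := by linarith
  set m := Real.log l with hm
  have hm12 : 12 ≤ m := by rwa [hm, Real.le_log_iff_exp_le hl0]
  have hn1' : 1 ≤ n := hn1.trans ((le_max_left _ _).trans hn)
  have hn0 : (0 : ℝ) < n := by exact_mod_cast hn1'
  set h := ⌊l⌋₊ with hh
  have hhl : (h : ℝ) ≤ l := Nat.floor_le hl0.le
  have hlh : l < h + 1 := Nat.lt_floor_add_one l
  set s := ⌊l / m⌋₊ with hs
  have hsl : (s : ℝ) ≤ l / m := Nat.floor_le (by positivity)
  have hls : l / m < s + 1 := Nat.lt_floor_add_one _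
  have hlm : l / m ≤ l / 12 := div_le_div_of_nonneg_left hl0.le (by norm_num) hm12
  have hsh : 2 * s ≤ h := by
    have : (2 : ℝ) * s ≤ h := by linarith
    exact_mod_cast this
  obtain ⟨k, hk⟩ : ∃ k, h = k + s := ⟨h - s, by omega⟩
  have hkR : (h : ℝ) = k + s := by exact_mod_cast hk
  have hh1 : 2 ≤ h := by
    have : (2 : ℝ) ≤ h := by linarith
    exact_mod_cast this
  -- the bad set
  set B := (Finset.Icc n (n + h)).filter (fun t => t ∉ S) with hB
  by_contra hcon
  rw [not_le] at hcon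
  have hSs : S.card ≤ s := by
    have h1 : (S.card : ℝ) < s + 1 := hcon.trans hls
    have h2 : S.card < s + 1 := by exact_mod_cast h1
    omega
  have hBcard : k + 1 ≤ B.card := by
    have h1 : Finset.Icc n (n + h) ⊆ B ∪ S := by
      intro t ht
      rw [Finset.mem_union]
      by_cases h : t ∈ S
      · exact Or.inr h
      · exact Or.inl (Finset.mem_filter.mpr ⟨ht, h⟩)
    have h2 := (Finset.card_le_card h1).trans (Finset.card_union_le _ _)
    rw [Nat.card_Icc] at h2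
    omega
  obtain ⟨t, ht, ht2⟩ := hn₀ n ((le_max_left _ _).trans hn) k h (by omega) (by omega) (by omega)
    hhl B hBcard (fun t ht => Finset.mem_Icc.mp (Finset.mem_filter.mp ht).1)
  obtain ⟨h1, h2⟩ := Finset.mem_filter.mp ht
  rw [Finset.mem_Icc] at h1
  apply h2
  apply hS t h1.1
  · have : (t : ℝ) ≤ n + h := by exact_mod_cast h1.2
    linarith
  refine le_trans (Real.exp_le_exp.mpr ?_) ht2
  have hn3 : Real.exp 1 ≤ n := by
    have h3 : Real.log n ≤ n - 1 := Real.log_le_sub_one_of_pos hn0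
    have := Real.exp_one_lt_d9
    linarith
  have h5 := div_log_mono (x := (n : ℝ)) (y := (t : ℝ)) hn3 (by exact_mod_cast h1.1)
  rw [← hl] at h5
  have hk0 : (0 : ℝ) < k := by linarith
  have hu : ((h : ℝ) - k) * Real.log h / l ≤ 1 := by
    rw [div_le_one hl0]
    have h6 : Real.log h ≤ m := Real.log_le_log (by linarith) hhl
    have h7 : 0 ≤ Real.log h := Real.log_natCast_nonneg h
    have h8 : ((h : ℝ) - k) * Real.log h ≤ (l / m) * m :=
      mul_le_mul (by linarith) h6 h7 (by positivity)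
    have h9 : (l / m) * m = l := by
      field_simp
    linarith
  have h10 : 10 * (n : ℝ) / k * (1 + ((h : ℝ) - k) * Real.log h / l) ≤ 10 * n / k * 2 :=
    mul_le_mul_of_nonneg_left (by linarith) (by positivity)
  have h11 : 10 * (n : ℝ) / k * 2 ≤ 22 * (n / l) := by
    have h12 : 10 * (n : ℝ) / k * 2 = 20 * n / k := by ring
    rw [h12, div_le_iff₀ hk0]
    have h13 : l * (n / l) = n := by
      field_simp
    have h14 : (20 * l) * (n / l) ≤ (22 * k) * (n / l) :=
      mul_le_mul_of_nonneg_right (by linarith) (by positivity)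
    linarith
  linarith

end Pool.Agent.ExpPowI
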