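import Pool.Agent.ExpPowI.Forms

/-! Consequence of the forms: numbers close to integers cannot occur at all the nodes. -/

namespace Pool.Agent.ExpPowI

open Finset

lemma factorial_le_exp {N : ℕ} (hN : 1 ≤ N) :
    (N.factorial : ℝ) ≤ Real.exp (N * Real.log N) := by
  have h1 : (N.factorial : ℝ) ≤ (N : ℝ) ^ N := by exact_mod_cast Nat.factorial_le_pow N
  have h2 : (N : ℝ) ^ N = Real.exp (N * Real.log N) := by
    rw [← Real.rpow_natCast, Real.rpow_def_of_pos (by exact_mod_cast hN), mul_comm]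
  rw [← h2]
  exact h1

/-- `M! ≥ (M/e)^M`. -/
lemma exp_le_factorial {M : ℕ} (hM : 1 ≤ M) :
    Real.exp (M * (Real.log M - 1)) ≤ (M.factorial : ℝ) := by
  have h1 : (M : ℝ) ^ M / M.factorial ≤ Real.exp M := Real.pow_div_factorial_le_exp (M : ℝ)
    (by positivity) M
  have h2 : (M : ℝ) ^ M = Real.exp (M * Real.log M) := by
    rw [← Real.rpow_natCast, Real.rpow_def_of_pos (by exact_mod_cast hM), mul_comm]
  rw [h2, div_le_iff₀ (by exact_mod_cast M.factorial_pos)] at h1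
  rw [mul_sub, mul_one, Real.exp_sub, div_le_iff₀ (Real.exp_pos _)]
  linarith

/-- **Key inequality.** With `D ≤ e^d`, `L ≤ e^l`, `G ≤ e^g`. -/
theorem key {k N p z h : ℕ} (D L G : ℕ) (d l g t ε : ℝ) (a : Fin (k + 1) → ℤ)
    (ha : Function.Injective a)
    (ha0 : ∀ j, 0 ≤ a j) (hah : ∀ j, a j ≤ h) (hz : 1 ≤ z)
    (hD : ∀ j, dp a j ∣ (D : ℤ)) (hL : ∀ j l, l ≠ j → (a j - a l) ∣ (L : ℤ))
    (hG : ∀ j, (D : ℚ) ≤ G * |(dp a j : ℚ)|)
    (hDd : (D : ℝ) ≤ Real.exp d) (hLl : (L : ℝ) ≤ Real.exp l) (hGg : (G : ℝ) ≤ Real.exp g)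
    (hp : p.Prime) (hpN : p ∣ N) (hN1 : 1 ≤ N) (hpz : ¬ p ∣ z) (hpD : ¬ p ∣ D) (hpL : ¬ p ∣ L)
    (x : Fin (k + 1) → ℤ) (hx : x ≠ 0)
    (hxε : ∀ j, |Real.exp (t + (a j : ℝ) * z) - x j| ≤ ε)
    (hR : t + N * Real.log N + (N + 1) * d + N * l + k + (k + 1) * (N + 1) +
      (k + 1) * N * (Real.log (z * (1 + h)) + 1 - Real.log ((k + 1) * N)) + z * (1 + h) ≤ -1) :
    1 ≤ 2 * (k + 1) * ε * Real.exp (N * Real.log N + z + d + N * g + N * l +
      (k + 1) * (N + 1)) := by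
  obtain ⟨B, hB0, hBb, hBr⟩ := forms D L G a ha ha0 hah hD hL hG hp hpN hN1 hpz hpD hpL x hx
  have hz0 : (0 : ℝ) < z := by exact_mod_cast hz
  have hN0 : (0 : ℝ) < N := by exact_mod_cast hN1
  have hk1 : (0 : ℝ) < (k : ℝ) + 1 := by positivity
  have h1 : (1 : ℝ) ≤ |∑ j, (B j : ℝ) * x j| := by
    have h2 : (1 : ℤ) ≤ |∑ j, B j * x j| := Int.one_le_abs hB0
    exact_mod_cast h2
  have hsplit : ∑ j, (B j : ℝ) * x j = Real.exp t * ∑ j, (B j : ℝ) * Real.exp ((a j : ℝ) * z) -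
      ∑ j, (B j : ℝ) * (Real.exp (t + (a j : ℝ) * z) - x j) := by
    rw [mul_sum, ← sum_sub_distrib]
    refine sum_congr rfl (fun j _ => ?_)
    rw [Real.exp_add]
    ring
  -- bound for the coefficients
  have h2pow : (2 : ℝ) ^ ((k + 1) * (N + 1)) ≤ Real.exp ((k + 1) * (N + 1)) := by
    have : (2 : ℝ) ≤ Real.exp 1 := by
      have := Real.add_one_le_exp (1 : ℝ); linarith
    calc (2 : ℝ) ^ ((k + 1) * (N + 1)) ≤ (Real.exp 1) ^ ((k + 1) * (N + 1)) :=
          pow_le_pow_left₀ (by norm_num) this _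
      _ = Real.exp ((k + 1) * (N + 1)) := by
          rw [← Real.exp_nat_mul]
          push_cast
          ring_nf
  have hNfac := factorial_le_exp hN1
  have hGN : (G : ℝ) ^ N ≤ Real.exp (N * g) := by
    calc (G : ℝ) ^ N ≤ (Real.exp g) ^ N := pow_le_pow_left₀ (by positivity) hGg _
      _ = _ := by rw [← Real.exp_nat_mul]
  have hLN : (L : ℝ) ^ N ≤ Real.exp (N * l) := by
    calc (L : ℝ) ^ N ≤ (Real.exp l) ^ N := pow_le_pow_left₀ (by positivity) hLl _
      _ = _ := by rw [← Real.exp_nat_mul]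
  have hDN : (D : ℝ) ^ (N + 1) ≤ Real.exp ((N + 1) * d) := by
    calc (D : ℝ) ^ (N + 1) ≤ (Real.exp d) ^ (N + 1) := pow_le_pow_left₀ (by positivity) hDd _
      _ = _ := by rw [← Real.exp_nat_mul]; push_cast; rfl
  set 𝔅 := Real.exp (N * Real.log N + z + d + N * g + N * l +
      (k + 1) * (N + 1)) with h𝔅
  have hBb' : ∀ j, |(B j : ℝ)| ≤ 𝔅 := by
    intro j
    refine le_trans (hBb j) ?_
    rw [h𝔅, Real.exp_add, Real.exp_add, Real.exp_add, Real.exp_add, Real.exp_add]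
    gcongr
  have hsumB : |∑ j, (B j : ℝ) * (Real.exp (t + (a j : ℝ) * z) - x j)| ≤ (k + 1) * 𝔅 * ε := by
    refine le_trans (abs_sum_le_sum_abs _ _) ?_
    have : ∀ j ∈ (univ : Finset (Fin (k + 1))),
        |(B j : ℝ) * (Real.exp (t + (a j : ℝ) * z) - x j)| ≤ 𝔅 * ε := by
      intro j _
      rw [abs_mul]
      exact mul_le_mul (hBb' j) (hxε j) (abs_nonneg _) (Real.exp_pos _).le
    refine le_trans (sum_le_sum this) ?_
    rw [sum_const, card_univ, Fintype.card_fin, nsmul_eq_mul]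
    push_cast
    exact le_of_eq (by ring)
  -- bound for the remainder
  have hM : 1 ≤ (k + 1) * N := Nat.one_le_iff_ne_zero.mpr (by positivity)
  have hfac := exp_le_factorial hM
  push_cast at hfac
  have hzh : (0 : ℝ) < z * (1 + h) := by positivity
  have hpow : ((z : ℝ) * (1 + h)) ^ ((k + 1) * N) = Real.exp ((k + 1) * N *
      Real.log (z * (1 + h))) := by
    rw [← Real.rpow_natCast, Real.rpow_def_of_pos hzh, mul_comm]
    push_cast
    rfl
  have hfac0 : (0 : ℝ) < (((k + 1) * N).factorial : ℝ) := by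
    exact_mod_cast Nat.factorial_pos _
  have hquot : ((z : ℝ) * (1 + h)) ^ ((k + 1) * N) / (((k + 1) * N).factorial : ℝ) ≤
      Real.exp ((k + 1) * N * (Real.log (z * (1 + h)) + 1 - Real.log ((k + 1) * N))) := by
    rw [div_le_iff₀ hfac0, hpow]
    calc Real.exp ((k + 1) * N * Real.log (z * (1 + h)))
        = Real.exp ((k + 1) * N * (Real.log (z * (1 + h)) + 1 - Real.log ((k + 1) * N))) *
          Real.exp ((k + 1) * N * (Real.log ((k + 1) * N) - 1)) := by
          rw [← Real.exp_add]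
          congr 1
          ring
      _ ≤ _ := by gcongr
  have hkexp : (k : ℝ) + 1 ≤ Real.exp k := Real.add_one_le_exp _
  have hrem : Real.exp t * |∑ j, (B j : ℝ) * Real.exp ((a j : ℝ) * z)| ≤ 1 / 2 := by
    have h3 : N.factorial * (D : ℝ) ^ (N + 1) * (L : ℝ) ^ N * ((k + 1) *
          2 ^ ((k + 1) * (N + 1)) *
          (((z : ℝ) * (1 + h)) ^ ((k + 1) * N) / ((k + 1) * N).factorial) *
          Real.exp ((z : ℝ) * (1 + h))) ≤
        Real.exp (N * Real.log N) * Real.exp ((N + 1) * d) * Real.exp (N * l) *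
          (Real.exp k * Real.exp ((k + 1) * (N + 1)) *
          Real.exp ((k + 1) * N * (Real.log (z * (1 + h)) + 1 - Real.log ((k + 1) * N))) *
          Real.exp ((z : ℝ) * (1 + h))) := by gcongr
    have h4 := le_trans hBr h3
    calc Real.exp t * |∑ j, (B j : ℝ) * Real.exp ((a j : ℝ) * z)|
        ≤ Real.exp t * (Real.exp (N * Real.log N) * Real.exp ((N + 1) * d) * Real.exp (N * l) *
          (Real.exp k * Real.exp ((k + 1) * (N + 1)) *
          Real.exp ((k + 1) * N * (Real.log (z * (1 + h)) + 1 - Real.log ((k + 1) * N))) *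
          Real.exp ((z : ℝ) * (1 + h)))) := by gcongr
      _ = Real.exp (t + N * Real.log N + (N + 1) * d + N * l + k + (k + 1) * (N + 1) +
          (k + 1) * N * (Real.log (z * (1 + h)) + 1 - Real.log ((k + 1) * N)) + z * (1 + h)) := by
          rw [← Real.exp_add, ← Real.exp_add, ← Real.exp_add, ← Real.exp_add, ← Real.exp_add,
            ← Real.exp_add, ← Real.exp_add]
          congr 1
          ring
      _ ≤ Real.exp (-1) := Real.exp_le_exp.mpr hR
      _ ≤ 1 / 2 := by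
          rw [Real.exp_neg, one_div]
          apply inv_anti₀ (by norm_num)
          have := Real.add_one_le_exp (1 : ℝ)
          linarith
  have h5 : |∑ j, (B j : ℝ) * x j| ≤ 1 / 2 + (k + 1) * 𝔅 * ε := by
    rw [hsplit]
    refine le_trans (abs_sub _ _) ?_
    rw [abs_mul, abs_of_pos (Real.exp_pos t)]
    exact add_le_add hrem hsumB
  have h6 : 1 ≤ 1 / 2 + (k + 1) * 𝔅 * ε := le_trans h1 h5
  nlinarith

end Pool.Agent.ExpPowI
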