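import Pool.Agent.ExpPowI.Nodes
import Pool.Prelude.Def_H_9f781f72

/-! Short windows: few `t` in `[n, n + h]` with `‖e^t‖` small. -/

namespace Pool.Agent.ExpPowI

open Finset Filter

/-- Choice of the parameter `N`, a multiple of a prime `p` not dividing `z`. -/
lemma exists_N {X : ℝ} (hX : 0 < X) {y z : ℕ} (hy : 1 ≤ y) (hz : 1 ≤ z) (hzy : z ≤ y * y) :
    ∃ p N : ℕ, p.Prime ∧ p ∣ N ∧ 1 ≤ N ∧ y < p ∧ ¬ p ∣ z ∧ X ≤ N ∧ (N : ℝ) ≤ X + 4 * y := by
  have hprime : ∃ p : ℕ, p.Prime ∧ y < p ∧ p ≤ 4 * y ∧ ¬ p ∣ z := by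
    obtain ⟨p₁, hp₁, h1, h2⟩ := Nat.exists_prime_lt_and_le_two_mul y (by omega)
    obtain ⟨p₂, hp₂, h3, h4⟩ := Nat.exists_prime_lt_and_le_two_mul (2 * y) (by omega)
    by_cases hd1 : p₁ ∣ z
    · by_cases hd2 : p₂ ∣ z
      · exfalso
        have hne : p₁ ≠ p₂ := by omega
        have hcop : Nat.Coprime p₁ p₂ := (Nat.coprime_primes hp₁ hp₂).mpr hne
        have h5 := Nat.le_of_dvd hz (hcop.mul_dvd_of_dvd_of_dvd hd1 hd2)
        have h6 : y * y < p₁ * p₂ := Nat.mul_lt_mul'' h1 (by omega)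
        omega
      · exact ⟨p₂, hp₂, by omega, by omega, hd2⟩
    · exact ⟨p₁, hp₁, h1, by omega, hd1⟩
  obtain ⟨p, hp, h1, h2, h3⟩ := hprime
  have hp0 : (0 : ℝ) < p := by exact_mod_cast hp.pos
  have hc0 : 0 < ⌈X / p⌉₊ := Nat.ceil_pos.mpr (by positivity)
  refine ⟨p, p * ⌈X / p⌉₊, hp, dvd_mul_right _ _, Nat.mul_pos hp.pos hc0, h1, h3, ?_, ?_⟩
  · push_cast
    have h4 := Nat.le_ceil (X / p)
    rw [div_le_iff₀ hp0] at h4
    linarith
  · push_cast
    have h4 := (Nat.ceil_lt_add_one (show 0 ≤ X / p by positivity)).le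
    have h5 : (p : ℝ) * ⌈X / p⌉₊ ≤ p * (X / p + 1) := mul_le_mul_of_nonneg_left h4 hp0.le
    have h6 : (p : ℝ) * (X / p + 1) = X + p := by
      field_simp
    have h7 : (p : ℝ) ≤ 4 * y := by exact_mod_cast h2
    linarith

/-- eventually `(log n)^r ≤ n` and `log n` large. -/
lemma exists_log_large (K : ℝ) (r : ℕ) :
    ∃ n₀ : ℕ, 1 ≤ n₀ ∧ ∀ n : ℕ, n₀ ≤ n → K ≤ Real.log n ∧ (Real.log n) ^ r ≤ n := by
  have h1 : ∀ᶠ x : ℝ in atTop, K ≤ Real.log x := Real.tendsto_log_atTop.eventually_ge_atTop K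
  have h2 : ∀ᶠ x : ℝ in atTop, ‖(Real.log x) ^ r‖ ≤ 1 * ‖id x‖ :=
    (Real.isLittleO_pow_log_id_atTop (n := r)).bound one_pos
  have h3 : ∀ᶠ n : ℕ in atTop, K ≤ Real.log n ∧ (Real.log n) ^ r ≤ n := by
    filter_upwards [tendsto_natCast_atTop_atTop.eventually h1,
      tendsto_natCast_atTop_atTop.eventually h2] with n hn1 hn2
    refine ⟨hn1, ?_⟩
    have h4 := (le_abs_self _).trans hn2
    simpa using h4
  obtain ⟨n₀, hn₀⟩ := eventually_atTop.mp h3
  exact ⟨max 1 n₀, le_max_left _ _, fun n hn => hn₀ n ((le_max_right _ _).trans hn)⟩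

lemma one_le_log {h : ℝ} (hh : 3 ≤ h) : 1 ≤ Real.log h := by
  rw [Real.le_log_iff_exp_le (by linarith)]
  have := Real.exp_one_lt_d9
  linarith

lemma log_le_small {l : ℝ} (hl : 40000 ≤ l) : Real.log l ≤ l / 100 := by
  have h0 : 0 < l := by linarith
  have h1 : Real.log (Real.sqrt l) ≤ Real.sqrt l - 1 :=
    Real.log_le_sub_one_of_pos (Real.sqrt_pos.mpr h0)
  have h2 : Real.log (Real.sqrt l) = Real.log l / 2 := Real.log_sqrt h0.le
  have h3 : 200 ≤ Real.sqrt l := by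
    apply Real.le_sqrt_of_sq_le
    linarith
  have h4 : Real.sqrt l * Real.sqrt l = l := Real.mul_self_sqrt h0.le
  nlinarith

lemma window_hR {n l lam N k h : ℝ} (hk : 8 ≤ k) (hN100 : 100 ≤ N) (hl0 : 0 ≤ l)
    (hlog : 3 * lam + (k + 1) * (Real.log (1 * (1 + h)) - Real.log (k + 1)) + 2 * k + 4 ≤
      7 / 2 * l) (hlamN : lam ≤ N / 100) (hkN : k ≤ N / 100) (hhN : h ≤ N / 100)
    (hN : 105 / 100 * n ≤ N * ((k - 4) * l)) (hlogN : 98 / 100 * l ≤ Real.log N) :
    n + N * Real.log N + (N + 1) * (2 * lam) + N * lam + k + (k + 1) * (N + 1) +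
      (k + 1) * N * (Real.log (1 * (1 + h)) + 1 - Real.log ((k + 1) * N)) + 1 * (1 + h) ≤ -1 := by
  have hlogprod : Real.log ((k + 1) * N) = Real.log (k + 1) + Real.log N :=
    Real.log_mul (by linarith) (by linarith)
  have h2 : N * (3 * lam + (k + 1) * (Real.log (1 * (1 + h)) - Real.log (k + 1)) + 2 * k + 4) ≤
      N * (7 / 2 * l) := mul_le_mul_of_nonneg_left hlog (by linarith)
  have h6 : (k * N) * (98 / 100 * l) ≤ (k * N) * Real.log N :=
    mul_le_mul_of_nonneg_left hlogN (by nlinarith)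
  have h7 : 0 ≤ N * l := by positivity
  have h8 : 0 ≤ k * (N * l) := by positivity
  rw [hlogprod]
  have h9 : n ≤ 98 / 100 * (k * (N * l)) - 7 / 2 * (N * l) := by nlinarith
  nlinarith

lemma window_exponent {n l lam N k h : ℝ} (hk : 8 ≤ k) (hkl : k ≤ l)
    (hlog : 3 * lam + k + 2 ≤ 7 / 2 * l) (hlN : l ≤ N / 100) (hN0 : 0 ≤ N) (hh0 : 0 ≤ h) (hhn : 200 * (h * l ^ 2) ≤ n)
    (hN : N * ((k - 4) * l) ≤ 105 / 100 * n + 4 * h * ((k - 4) * l))
    (hlogN : Real.log N ≤ l) :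
    N * Real.log N + 1 + 2 * lam + N * (2 * lam) + N * lam + (k + 1) * (N + 1) + l ≤
      5 * n / (k - 4) := by
  have hk4 : 0 < k - 4 := by linarith
  have h1 : N * Real.log N ≤ N * l := mul_le_mul_of_nonneg_left hlogN hN0
  have h2 : N * (3 * lam + k + 2) ≤ N * (7 / 2 * l) := mul_le_mul_of_nonneg_left hlog hN0
  have h6 : N * Real.log N + 1 + 2 * lam + N * (2 * lam) + N * lam + (k + 1) * (N + 1) + l ≤
      9 / 2 * (N * l) := by nlinarith
  refine h6.trans ?_
  rw [le_div_iff₀ hk4]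
  have h7 : h * ((k - 4) * l) ≤ h * l ^ 2 := by
    apply mul_le_mul_of_nonneg_left _ hh0
    nlinarith
  nlinarith

/-- Core statement: `D, L, G` control the denominators. -/
theorem window_core : ∃ n₀ : ℕ, 1 ≤ n₀ ∧ (∀ n : ℕ, n₀ ≤ n → 40000 ≤ Real.log n) ∧
    ∀ n : ℕ, n₀ ≤ n → ∀ (h k D L G : ℕ) (lam : ℝ),
    8 ≤ k → k ≤ h → 0 ≤ lam → (k : ℝ) ≤ Real.log n → (h : ℝ) ^ 2 ≤ n →
    3 * lam + ((k : ℝ) + 1) * (Real.log (1 * (1 + h)) - Real.log (k + 1)) + 2 * k + 4 ≤
      7 / 2 * Real.log n → 3 * lam + k + 2 ≤ 7 / 2 * Real.log n →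
    ∀ a : Fin (k + 1) → ℤ, Function.Injective a → (∀ j, 0 ≤ a j) → (∀ j, a j ≤ h) →
    (∀ j, dp a j ∣ (D : ℤ)) → (∀ j l, l ≠ j → (a j - a l) ∣ (L : ℤ)) →
    (∀ j, (D : ℚ) ≤ G * |(dp a j : ℚ)|) →
    (D : ℝ) ≤ Real.exp (2 * lam) → (L : ℝ) ≤ Real.exp lam → (G : ℝ) ≤ Real.exp (2 * lam) →
    (∀ p : ℕ, p.Prime → h < p → ¬ p ∣ D) → (∀ p : ℕ, p.Prime → h < p → ¬ p ∣ L) →
    ∀ ε : ℝ, (∀ j, distToNearestInt (Real.exp ((n : ℝ) + a j)) ≤ ε) →
    Real.exp (-(5 * n / (k - 4))) ≤ ε := by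
  obtain ⟨n₀, hn₀1, hn₀⟩ := exists_log_large 40000 8
  refine ⟨n₀, hn₀1, fun n hn => (hn₀ n hn).1, ?_⟩
  intro n hn h k D L G lam hk hkh hlam0 hkl hhn H1 H2 a ha ha0 hah hdvd hdiff hGD hDe hLe hGe
    hpD hpL ε hε
  obtain ⟨hl, hl8⟩ := hn₀ n hn
  set l := Real.log n with hldef
  have hn1 : 1 ≤ n := hn₀1.trans hn
  have hn0 : (0 : ℝ) < n := by exact_mod_cast hn1
  have hl0 : 0 < l := by linarith
  have hkR : (8 : ℝ) ≤ k := by exact_mod_cast hk
  have hk4 : (0 : ℝ) < k - 4 := by linarith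
  have hk40 : (0 : ℝ) < (k - 4) * l := by positivity
  have hh0 : (0 : ℝ) ≤ h := by positivity
  have hh1 : 1 ≤ h := by omega
  -- `200 h l^2 ≤ n`
  have hl5 : 40000 * l ^ 4 ≤ l ^ 8 := by
    have h1 : 40000 * l ^ 4 ≤ l * l ^ 4 := mul_le_mul_of_nonneg_right hl (by positivity)
    have h2 : l ^ 5 ≤ l ^ 8 := pow_le_pow_right₀ (by linarith) (by norm_num)
    calc 40000 * l ^ 4 ≤ l * l ^ 4 := h1
      _ = l ^ 5 := by ring
      _ ≤ l ^ 8 := h2
  have hhl : 200 * ((h : ℝ) * l ^ 2) ≤ n := by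
    apply le_of_sq_le_sq _ hn0.le
    calc (200 * ((h : ℝ) * l ^ 2)) ^ 2 = (h : ℝ) ^ 2 * (40000 * l ^ 4) := by ring
      _ ≤ (n : ℝ) * n := mul_le_mul hhn (hl5.trans hl8) (by positivity) hn0.le
      _ = (n : ℝ) ^ 2 := by ring
  obtain ⟨p, N, hp, hpN, hN1, hhp, -, hNX1, hNX2⟩ := exists_N
    (X := 105 / 100 * n / ((k - 4) * l)) (by positivity) hh1 (le_refl 1)
    (Nat.mul_pos hh1 hh1)
  have hN0 : (0 : ℝ) < N := by exact_mod_cast hN1
  have hNk : 105 / 100 * (n : ℝ) ≤ N * ((k - 4) * l) := by rwa [div_le_iff₀ hk40] at hNX1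
  have hNle : (N : ℝ) * ((k - 4) * l) ≤ 105 / 100 * n + 4 * h * ((k - 4) * l) := by
    have h1 := mul_le_mul_of_nonneg_right hNX2 hk40.le
    rw [add_mul, div_mul_cancel₀ _ hk40.ne'] at h1
    exact h1
  have hk4l : ((k : ℝ) - 4) * l ≤ l ^ 2 := by nlinarith
  have hNl2 : (n : ℝ) ≤ N * l ^ 2 := by
    have := mul_le_mul_of_nonneg_left hk4l hN0.le
    linarith
  have hl2 : 0 < l ^ 2 := by positivity
  have hhN : (h : ℝ) ≤ N / 100 := by
    have h1 : (200 * (h : ℝ)) * l ^ 2 ≤ N * l ^ 2 := by linarith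
    have h2 := le_of_mul_le_mul_right h1 hl2
    linarith
  have hlN : 4 * l ≤ N / 100 := by
    have h3 : (400 * l) * l ^ 2 ≤ N * l ^ 2 := by
      have h4 : 400 * l ^ 3 ≤ l ^ 8 := by
        calc 400 * l ^ 3 ≤ l * l ^ 3 := mul_le_mul_of_nonneg_right (by linarith) (by positivity)
          _ = l ^ 4 := by ring
          _ ≤ l ^ 8 := pow_le_pow_right₀ (by linarith) (by norm_num)
      calc (400 * l) * l ^ 2 = 400 * l ^ 3 := by ring
        _ ≤ l ^ 8 := h4
        _ ≤ n := hl8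
        _ ≤ N * l ^ 2 := hNl2
    have h2 := le_of_mul_le_mul_right h3 hl2
    linarith
  have hlamN : lam ≤ N / 100 := by linarith
  have hkN : (k : ℝ) ≤ N / 100 := by linarith
  have hN100 : (100 : ℝ) ≤ N := by linarith
  have hhl' : 4 * (h : ℝ) * ((k - 4) * l) ≤ n / 50 := by
    have h1 : (h : ℝ) * ((k - 4) * l) ≤ h * l ^ 2 := mul_le_mul_of_nonneg_left hk4l hh0
    linarith
  have hNlen : (N : ℝ) ≤ n := by
    have h1 : (4 : ℝ) * 40000 ≤ (k - 4) * l := mul_le_mul (by linarith) hl (by norm_num) hk4.le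
    by_contra hcon
    rw [not_le] at hcon
    have h3 : (n : ℝ) * ((k - 4) * l) ≤ N * ((k - 4) * l) :=
      mul_le_mul_of_nonneg_right hcon.le hk40.le
    have h4 : (n : ℝ) * (4 * 40000) ≤ n * ((k - 4) * l) := mul_le_mul_of_nonneg_left h1 hn0.le
    linarith
  have hlogN1 : 98 / 100 * l ≤ Real.log N := by
    have h1 : l ≤ Real.log (N * l ^ 2) := Real.log_le_log hn0 hNl2
    rw [Real.log_mul hN0.ne' hl2.ne', Real.log_pow] at h1
    push_cast at h1
    have := log_le_small hl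
    linarith
  have hlogN2 : Real.log N ≤ l := Real.log_le_log hN0 hNlen
  set x : Fin (k + 1) → ℤ := fun j => round (Real.exp ((n : ℝ) + a j)) with hx
  have hx0 : x ≠ 0 := by
    intro h0
    have h1 : x 0 = 0 := by rw [h0]; rfl
    have h2 : |Real.exp ((n : ℝ) + a 0) - round (Real.exp ((n : ℝ) + a 0))| ≤ 1 / 2 :=
      abs_sub_round _
    have h3 : round (Real.exp ((n : ℝ) + a 0)) = 0 := h1
    rw [h3] at h2
    have h4 : (0 : ℝ) ≤ a 0 := by exact_mod_cast ha0 0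
    have h5 : (1 : ℝ) ≤ Real.exp ((n : ℝ) + a 0) := Real.one_le_exp (by positivity)
    have h6 := le_abs_self (Real.exp ((n : ℝ) + a 0) - ((0 : ℤ) : ℝ))
    push_cast at h6 h2
    linarith
  have hkey := key (k := k) (N := N) (p := p) (z := 1) (h := h) D L G (2 * lam) lam (2 * lam) n
    ε a ha ha0 hah le_rfl hdvd hdiff hGD hDe hLe hGe hp hpN hN1
    (by
      intro hdvd
      have := Nat.le_of_dvd one_pos hdvd
      have := hp.two_le
      omega)
    (hpD p hp hhp) (hpL p hp hhp) x hx0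
    (fun j => by
      have h1 := hε j
      unfold distToNearestInt at h1
      simpa using h1)
    (by
      have h1 := window_hR (n := (n : ℝ)) (l := l) (lam := lam) (N := (N : ℝ)) (k := (k : ℝ))
        (h := (h : ℝ)) hkR hN100 hl0.le H1 hlamN hkN hhN hNk hlogN1
      simpa using h1)
  have hexp := window_exponent (n := (n : ℝ)) (l := l) (lam := lam) (N := (N : ℝ)) (k := (k : ℝ))
    (h := (h : ℝ)) hkR hkl H2 (by linarith) hN0.le hh0 hhl hNle hlogN2
  have h2k : 2 * ((k : ℝ) + 1) ≤ Real.exp l := by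
    have h1 : Real.exp l = n := by rw [hldef, Real.exp_log hn0]
    rw [h1]
    linarith
  have hε0 : 0 ≤ ε := le_trans (abs_nonneg _) (hε 0)
  push_cast at hkey
  have h8 : 1 ≤ ε * Real.exp (5 * n / (k - 4)) := by
    calc (1 : ℝ) ≤ 2 * (k + 1) * ε * Real.exp (N * Real.log N + 1 + 2 * lam +
          N * (2 * lam) + N * lam + (k + 1) * (N + 1)) := hkey
      _ = ε * ((2 * (k + 1)) * Real.exp (N * Real.log N + 1 + 2 * lam +
          N * (2 * lam) + N * lam + (k + 1) * (N + 1))) := by ring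
      _ ≤ ε * (Real.exp l * Real.exp (N * Real.log N + 1 + 2 * lam +
          N * (2 * lam) + N * lam + (k + 1) * (N + 1))) := by gcongr
      _ = ε * Real.exp (N * Real.log N + 1 + 2 * lam +
          N * (2 * lam) + N * lam + (k + 1) * (N + 1) + l) := by
          rw [← Real.exp_add]
          congr 2
          ring
      _ ≤ ε * Real.exp (5 * n / (k - 4)) := by gcongr
  rw [Real.exp_neg, inv_le_iff_one_le_mul₀ (Real.exp_pos _)]
  exact h8

lemma log_one_add_le {h : ℝ} (hh : 3 ≤ h) : Real.log (1 * (1 + h)) ≤ 2 * Real.log h := by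
  rw [← Real.log_rpow (by linarith)]
  apply Real.log_le_log (by linarith)
  rw [show (2 : ℝ) = ((2 : ℕ) : ℝ) by norm_num, Real.rpow_natCast]
  nlinarith

/-- The maximum of `‖e^t‖` over `k + 1` integers `t` of a window of length `h` is not small,
for `h log h ≤ log n` and for `2 k^2 log h ≤ log n`. -/
theorem window_max : ∃ n₀ : ℕ, 1 ≤ n₀ ∧ ∀ n : ℕ, n₀ ≤ n → ∀ k h : ℕ, 8 ≤ k → k ≤ h →
    ((h : ℝ) * Real.log h ≤ Real.log n ∨ 2 * (k : ℝ) ^ 2 * Real.log h ≤ Real.log n) →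
    ∀ a : Fin (k + 1) → ℤ, Function.Injective a → (∀ j, 0 ≤ a j) → (∀ j, a j ≤ h) →
    ∀ ε : ℝ, (∀ j, distToNearestInt (Real.exp ((n : ℝ) + a j)) ≤ ε) →
    Real.exp (-(5 * n / (k - 4))) ≤ ε := by
  obtain ⟨n₀, hn₀1, hn₀l, hn₀⟩ := window_core
  refine ⟨n₀, hn₀1, ?_⟩
  intro n hn k h hk hkh hor a ha ha0 hah ε hε
  have hn1 : 1 ≤ n := hn₀1.trans hn
  have hn0 : (0 : ℝ) < n := by exact_mod_cast hn1
  have hl := hn₀l n hn
  have hkR : (8 : ℝ) ≤ k := by exact_mod_cast hk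
  have hkhR : (k : ℝ) ≤ h := by exact_mod_cast hkh
  have hhR : (8 : ℝ) ≤ h := hkR.trans hkhR
  have hh0 : (0 : ℝ) < h := by linarith
  have hlogh : 1 ≤ Real.log h := one_le_log (by linarith)
  have hlog1 := log_one_add_le (h := (h : ℝ)) (by linarith)
  have hsq : ∀ lam : ℝ, 2 * Real.log h ≤ lam → lam ≤ Real.log n → (h : ℝ) ^ 2 ≤ n := by
    intro lam h1 h2
    have h3 : Real.log ((h : ℝ) ^ 2) ≤ Real.log n := by
      rw [Real.log_pow]
      push_cast
      linarith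
    exact (Real.log_le_log_iff (by positivity) hn0).mp h3
  rcases hor with hlog | hlog
  · -- `D = (h!)^2`, `L = h!`
    set lam := (h : ℝ) * Real.log h with hlam
    have hhlam : (h : ℝ) ≤ lam := by rw [hlam]; nlinarith
    have hfac : ((h.factorial : ℕ) : ℝ) ≤ Real.exp lam := factorial_le_exp (by omega)
    have hfac2 : (((h.factorial) ^ 2 : ℕ) : ℝ) ≤ Real.exp (2 * lam) := by
      push_cast
      calc ((h.factorial : ℕ) : ℝ) ^ 2 ≤ (Real.exp lam) ^ 2 :=
            pow_le_pow_left₀ (by positivity) hfac 2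
        _ = Real.exp (2 * lam) := by rw [← Real.exp_nat_mul]; norm_num
    have hND : ∀ N : ℕ, N.Prime → h < N → ¬ N ∣ h.factorial := by
      intro N hNp hhN hdvd
      exact absurd (hNp.dvd_factorial.mp hdvd) (by omega)
    have hmain : 3 * lam + 2 * h + 4 ≤ 7 / 2 * Real.log n := by
      by_cases hsmall : h < 128
      · have h1 : (h : ℝ) ≤ 128 := by exact_mod_cast hsmall.le
        have h2 : Real.log h ≤ 7 := by
          have h3 : Real.log h ≤ Real.log 128 := Real.log_le_log hh0 h1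
          have h4 : Real.log 128 = 7 * Real.log 2 := by
            rw [show (128 : ℝ) = 2 ^ 7 by norm_num, Real.log_pow]
            norm_num
          have := Real.log_two_lt_d9
          linarith
        have h3 : lam ≤ 128 * 7 := mul_le_mul h1 h2 (by linarith) (by norm_num)
        linarith
      · have h1 : (128 : ℝ) ≤ h := by exact_mod_cast not_lt.mp hsmall
        have h2 : 4.8 ≤ Real.log h := by
          have h3 : Real.log 128 ≤ Real.log h := Real.log_le_log (by norm_num) h1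
          have h4 : Real.log 128 = 7 * Real.log 2 := by
            rw [show (128 : ℝ) = 2 ^ 7 by norm_num, Real.log_pow]
            norm_num
          have := Real.log_two_gt_d9
          linarith
        have h3 : (h : ℝ) * 4.8 ≤ lam := mul_le_mul_of_nonneg_left h2 hh0.le
        linarith
    refine hn₀ n hn h k (h.factorial ^ 2) h.factorial (h.factorial ^ 2) lam hk hkh (by linarith)
      (hkhR.trans (hhlam.trans hlog)) (hsq lam ?_ hlog) ?_ (by linarith) a ha ha0 hah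
      (fun j => dp_dvd a ha ha0 hah j) (fun j l hjl => diff_dvd a ha ha0 hah j l hjl)
      (fun j => by
        have h1 := one_le_dp a ha j
        have h2 : (0 : ℚ) ≤ ((h.factorial ^ 2 : ℕ) : ℚ) := by positivity
        nlinarith) hfac2 hfac hfac2
      (fun N hNp hhN hdvd => hND N hNp hhN (hNp.dvd_of_dvd_pow hdvd)) hND ε hε
    · rw [hlam]
      exact mul_le_mul_of_nonneg_right (by linarith) (by linarith)
    · -- `(k+1) log ((1+h)/(k+1)) ≤ h - k`
      have h1 : Real.log (1 * (1 + h)) - Real.log (k + 1) ≤ (h - k) / (k + 1) := by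
        rw [← Real.log_div (by positivity) (by positivity)]
        refine (Real.log_le_sub_one_of_pos (by positivity)).trans (le_of_eq ?_)
        field_simp
        ring
      have h2 : ((k : ℝ) + 1) * (Real.log (1 * (1 + h)) - Real.log (k + 1)) ≤
          (k + 1) * ((h - k) / (k + 1)) := mul_le_mul_of_nonneg_left h1 (by linarith)
      have h3 : ((k : ℝ) + 1) * ((h - k) / (k + 1)) = h - k := by
        field_simp
      linarith
  · -- `D = L = G = ∏ |dp a j|`
    set lam := 2 * (k : ℝ) ^ 2 * Real.log h with hlam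
    have hk2 : (k : ℝ) * 8 ≤ (k : ℝ) ^ 2 := by nlinarith
    have hk2l : (k : ℝ) ^ 2 * 1 ≤ (k : ℝ) ^ 2 * Real.log h :=
      mul_le_mul_of_nonneg_left hlogh (by positivity)
    have hklam : (k : ℝ) ≤ lam := by
      rw [hlam]
      linarith
    have hlam0 : 0 ≤ lam := by linarith
    have hlog0 : 0 ≤ Real.log (k + 1) := Real.log_nonneg (by linarith)
    have hmain1 : ((k : ℝ) + 1) * (Real.log (1 * (1 + h)) - Real.log (k + 1)) + 2 * k + 4 ≤
        lam / 2 := by
      have h1 : ((k : ℝ) + 1) * (Real.log (1 * (1 + h)) - Real.log (k + 1)) ≤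
          (k + 1) * (2 * Real.log h) := mul_le_mul_of_nonneg_left (by linarith) (by linarith)
      have h2 : (2 * (k : ℝ) + 4) * 1 ≤ (2 * k + 4) * Real.log h :=
        mul_le_mul_of_nonneg_left hlogh (by linarith)
      have h3 : (4 * (k : ℝ) + 6) * Real.log h ≤ (k : ℝ) ^ 2 * Real.log h :=
        mul_le_mul_of_nonneg_right (by nlinarith) (by linarith)
      rw [hlam]
      nlinarith
    set D := ∏ j, (dp a j).natAbs with hD
    have hdiffle : ∀ j l : Fin (k + 1), (a j - a l).natAbs ≤ h := by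
      intro j l
      have h1 := ha0 j
      have h2 := ha0 l
      have h3 := hah j
      have h4 := hah l
      omega
    have hdple : ∀ j, (dp a j).natAbs ≤ h ^ k := by
      intro j
      unfold dp
      rw [natAbs_prod]
      have h1 : ∏ l ∈ univ.erase j, (a j - a l).natAbs ≤ ∏ _l ∈ univ.erase j, h :=
        prod_le_prod' (fun l _ => hdiffle j l)
      refine h1.trans (le_of_eq ?_)
      rw [prod_const, card_erase_of_mem (mem_univ _), card_univ, Fintype.card_fin,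
        Nat.add_sub_cancel]
    have hDle : D ≤ h ^ (k * (k + 1)) := by
      have h1 : D ≤ ∏ _j : Fin (k + 1), h ^ k := prod_le_prod' (fun j _ => hdple j)
      refine h1.trans (le_of_eq ?_)
      rw [prod_const, card_univ, Fintype.card_fin, ← pow_mul]
    have hDexp : (D : ℝ) ≤ Real.exp lam := by
      have h1 : (D : ℝ) ≤ (h : ℝ) ^ (k * (k + 1)) := by exact_mod_cast hDle
      refine h1.trans ?_
      rw [← Real.rpow_natCast, Real.rpow_def_of_pos hh0]
      apply Real.exp_le_exp.mpr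
      rw [hlam]
      push_cast
      have h2 : (k : ℝ) * (k + 1) ≤ 2 * (k : ℝ) ^ 2 := by nlinarith
      have := mul_le_mul_of_nonneg_right h2 (by linarith : (0 : ℝ) ≤ Real.log h)
      linarith
    have hDexp2 : (D : ℝ) ≤ Real.exp (2 * lam) :=
      hDexp.trans (Real.exp_le_exp.mpr (by linarith))
    have hdvdD : ∀ j, dp a j ∣ (D : ℤ) := by
      intro j
      have h1 : (dp a j).natAbs ∣ D := dvd_prod_of_mem _ (mem_univ j)
      exact Int.natAbs_dvd.mp (by exact_mod_cast h1)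
    have hNdvd : ∀ N : ℕ, N.Prime → h < N → ¬ N ∣ D := by
      intro N hNp hhN hdvd
      obtain ⟨j, -, hj⟩ := (hNp.prime.dvd_finsetProd_iff _).mp hdvd
      unfold dp at hj
      rw [natAbs_prod] at hj
      obtain ⟨l, hl, hjl⟩ := (hNp.prime.dvd_finsetProd_iff _).mp hj
      have h1 : l ≠ j := ne_of_mem_erase hl
      have h2 : a l ≠ a j := fun h => h1 (ha h)
      have h3 := Nat.le_of_dvd (by omega) hjl
      have h4 := hdiffle j l
      omega
    refine hn₀ n hn h k D D D lam hk hkh hlam0 (hklam.trans hlog) (hsq lam ?_ hlog)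
      (by linarith) (by linarith) a ha ha0 hah
      hdvdD ?_ ?_ hDexp2 hDexp hDexp2 hNdvd hNdvd ε hε
    · rw [hlam]
      have h1 : (1 : ℝ) * Real.log h ≤ (k : ℝ) ^ 2 * Real.log h :=
        mul_le_mul_of_nonneg_right (by nlinarith) (by linarith)
      linarith
    · intro j l hjl
      refine dvd_trans ?_ (hdvdD j)
      unfold dp
      exact dvd_prod_of_mem _ (mem_erase.mpr ⟨hjl, mem_univ _⟩)
    · intro j
      have h1 := one_le_dp a ha j
      have h2 : (0 : ℚ) ≤ (D : ℚ) := by positivity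
      nlinarith

/-- Few integers `t` in a window with `‖e^t‖ ≤ e^{-ct}`. -/
theorem window_few : ∃ n₀ : ℕ, 1 ≤ n₀ ∧ ∀ n : ℕ, n₀ ≤ n → ∀ c : ℝ, 0 < c → c ≤ 1 → ∀ h : ℕ,
    ((h : ℝ) * Real.log h ≤ Real.log n ∨ Real.log h ≤ (c / 15) ^ 2 * Real.log n) →
    ∀ S : Finset ℕ,
    (∀ t ∈ S, n ≤ t ∧ t ≤ n + h ∧ distToNearestInt (Real.exp t) ≤ Real.exp (-(c * t))) →
    (S.card : ℝ) ≤ 10 / c := by
  obtain ⟨n₀, hn1, hn₀⟩ := window_max
  refine ⟨n₀, hn1, ?_⟩
  intro n hn c hc hc1 h hor S hS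
  by_contra hcon
  rw [not_le] at hcon
  have hn0 : (0 : ℝ) < n := by exact_mod_cast (hn1.trans hn)
  have h5c : 5 ≤ 5 / c := by
    rw [le_div_iff₀ hc]
    linarith
  set k := ⌊4 + 5 / c⌋₊ + 1 with hk
  have hk1 : 4 + 5 / c < k := by
    rw [hk]
    push_cast
    exact Nat.lt_floor_add_one _
  have hk2 : (k : ℝ) ≤ 10 / c := by
    have h1 : (⌊4 + 5 / c⌋₊ : ℝ) ≤ 4 + 5 / c := Nat.floor_le (by positivity)
    have h3 : 10 / c = 5 / c + 5 / c := by ring
    rw [hk, h3]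
    push_cast
    linarith
  have hkS : k + 1 ≤ S.card := by
    have : (k : ℝ) < S.card := hk2.trans_lt hcon
    exact_mod_cast this
  have hk8R : (8 : ℝ) < k := by linarith
  have hk8 : 8 ≤ k := by
    have : 8 < k := by exact_mod_cast hk8R
    omega
  obtain ⟨T, hTS, hT⟩ := Finset.exists_subset_card_eq hkS
  have hmem : ∀ i, T.orderEmbOfFin hT i ∈ S := fun i => hTS (Finset.orderEmbOfFin_mem T hT i)
  have hkh : k ≤ h := by
    have h1 : T ⊆ Finset.Icc n (n + h) := by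
      intro t ht
      have := hS t (hTS ht)
      rw [Finset.mem_Icc]
      exact ⟨this.1, this.2.1⟩
    have h2 := Finset.card_le_card h1
    rw [Nat.card_Icc, hT] at h2
    omega
  have hhR : (3 : ℝ) ≤ h := by
    have : 3 ≤ h := by omega
    exact_mod_cast this
  have hor' : (h : ℝ) * Real.log h ≤ Real.log n ∨ 2 * (k : ℝ) ^ 2 * Real.log h ≤ Real.log n := by
    refine hor.imp id (fun h1 => ?_)
    have hlogh := one_le_log hhR
    have h2 : (k : ℝ) * c ≤ 10 := by rwa [le_div_iff₀ hc] at hk2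
    have h3 : ((k : ℝ) * c) ^ 2 ≤ 10 ^ 2 := pow_le_pow_left₀ (by positivity) h2 2
    have h5 : 0 ≤ Real.log n := Real.log_nonneg (by exact_mod_cast (hn1.trans hn))
    have h4 : 2 * (k : ℝ) ^ 2 * Real.log h ≤ 2 * (k : ℝ) ^ 2 * ((c / 15) ^ 2 * Real.log n) :=
      mul_le_mul_of_nonneg_left h1 (by positivity)
    have h6 : 2 * (k : ℝ) ^ 2 * ((c / 15) ^ 2 * Real.log n) =
        (2 * ((k : ℝ) * c) ^ 2 / 225) * Real.log n := by ring
    have h7 : (2 * ((k : ℝ) * c) ^ 2 / 225) * Real.log n ≤ 1 * Real.log n :=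
      mul_le_mul_of_nonneg_right (by linarith) h5
    linarith
  set a : Fin (k + 1) → ℤ := fun j => ((T.orderEmbOfFin hT j : ℕ) : ℤ) - n with ha
  have hainj : Function.Injective a := by
    intro u v huv
    have h1 : ((T.orderEmbOfFin hT u : ℕ) : ℤ) = ((T.orderEmbOfFin hT v : ℕ) : ℤ) := by
      have : ((T.orderEmbOfFin hT u : ℕ) : ℤ) - n = ((T.orderEmbOfFin hT v : ℕ) : ℤ) - n := huv
      linarith
    exact (T.orderEmbOfFin hT).injective (by exact_mod_cast h1)
  have h1 := hn₀ n hn k h hk8 hkh hor' a hainj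
    (fun j => by
      have := (hS _ (hmem j)).1
      simp only [ha]
      omega)
    (fun j => by
      have := (hS _ (hmem j)).2.1
      simp only [ha]
      omega) (Real.exp (-(c * n)))
    (fun j => by
      have h2 := (hS _ (hmem j)).2.2
      have h3 : (n : ℝ) + (a j : ℝ) = ((T.orderEmbOfFin hT j : ℕ) : ℝ) := by
        simp only [ha]
        push_cast
        ring
      rw [h3]
      refine h2.trans (Real.exp_le_exp.mpr ?_)
      have h4 : (n : ℝ) ≤ ((T.orderEmbOfFin hT j : ℕ) : ℝ) := by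
        exact_mod_cast (hS _ (hmem j)).1
      nlinarith)
  rw [Real.exp_le_exp, neg_le_neg_iff] at h1
  have hk3 : 5 / c < k - 4 := by linarith
  rw [div_lt_iff₀ hc] at hk3
  rw [le_div_iff₀ (by linarith)] at h1
  nlinarith

end Pool.Agent.ExpPowI
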